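import Mathlib

set_option autoImplicit false
open Finset

namespace Pool.Agent.H111R3

section AL

variable {B : Type*} [Fintype B]

/-- Partition function. -/
noncomputable def Psi (w : B → ℝ) (G : B → B → ℝ) (ι : Type*) [Fintype ι] [DecidableEq ι]
    (a : ℝ) : ℝ :=
  ∑ ω : ι → B, (∏ k, w (ω k)) * Real.exp (a * ∑ k, ∑ l, G (ω k) (ω l))

lemma Psi_equiv (w : B → ℝ) (G : B → B → ℝ) {ι ι' : Type*} [Fintype ι] [DecidableEq ι]
    [Fintype ι'] [DecidableEq ι'] (f : ι ≃ ι') (a : ℝ) : Psi w G ι a = Psi w G ι' a := by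
  unfold Psi
  rw [← Equiv.sum_comp (Equiv.arrowCongr f (Equiv.refl B))]
  refine Finset.sum_congr rfl fun ω _ => ?_
  simp only [Equiv.arrowCongr_apply, Equiv.coe_refl, Function.comp_apply, id_eq]
  congr 1
  · exact (Equiv.prod_comp f.symm (fun k => w (ω k))).symm
  · congr 2
    rw [← Equiv.sum_comp f.symm]
    refine Finset.sum_congr rfl fun k _ => ?_
    rw [← Equiv.sum_comp f.symm]

/-- xor translation. -/
def xorE (r : ℕ) (c : Fin r → Bool) : (Fin r → Bool) ≃ (Fin r → Bool) where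
  toFun ε := fun i => xor (ε i) (c i)
  invFun ε := fun i => xor (ε i) (c i)
  left_inv ε := by funext i; simp
  right_inv ε := by funext i; simp

lemma avg_ne (r : ℕ) {i j : Fin r} (hij : i ≠ j) (h : Bool → Bool → ℝ) :
    4 * ∑ ε : Fin r → Bool, h (ε i) (!ε j) =
      (Fintype.card (Fin r → Bool) : ℝ) * ∑ s : Bool, ∑ t : Bool, h s t := by
  have h1 : ∀ s t : Bool, ∑ ε : Fin r → Bool, h (ε i) (!ε j) =
      ∑ ε : Fin r → Bool, h (xor (ε i) s) (!(xor (ε j) t)) := by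
    intro s t
    rw [← Equiv.sum_comp (xorE r (fun k => if k = i then s else if k = j then t else false))]
    refine Finset.sum_congr rfl fun ε _ => ?_
    simp [xorE, hij.symm]
  have h2 : ∑ s : Bool, ∑ t : Bool, ∑ ε : Fin r → Bool, h (ε i) (!ε j) =
      4 * ∑ ε : Fin r → Bool, h (ε i) (!ε j) := by
    simp only [Fintype.sum_bool]; ring
  rw [← h2]
  have h3 : ∑ s : Bool, ∑ t : Bool, ∑ ε : Fin r → Bool, h (ε i) (!ε j) =
      ∑ s : Bool, ∑ t : Bool, ∑ ε : Fin r → Bool, h (xor (ε i) s) (!(xor (ε j) t)) :=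
    Finset.sum_congr rfl fun s _ => Finset.sum_congr rfl fun t _ => h1 s t
  rw [h3]
  have h4 : ∑ s : Bool, ∑ t : Bool, ∑ ε : Fin r → Bool, h (xor (ε i) s) (!(xor (ε j) t)) =
      ∑ ε : Fin r → Bool, ∑ s : Bool, ∑ t : Bool, h (xor (ε i) s) (!(xor (ε j) t)) := by
    simp only [Fintype.sum_bool, Finset.sum_add_distrib]
  rw [h4]
  have h5 : ∀ ε : Fin r → Bool, ∑ s : Bool, ∑ t : Bool, h (xor (ε i) s) (!(xor (ε j) t)) =
      ∑ s : Bool, ∑ t : Bool, h s t := by
    intro ε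
    simp only [Fintype.sum_bool]
    cases ε i <;> cases ε j <;> simp <;> ring
  simp only [h5]
  rw [Finset.sum_const, Finset.card_univ, nsmul_eq_mul]

lemma avg_eq (r : ℕ) (i : Fin r) (h : Bool → Bool → ℝ) :
    2 * ∑ ε : Fin r → Bool, h (ε i) (!ε i) =
      (Fintype.card (Fin r → Bool) : ℝ) * ∑ s : Bool, h s (!s) := by
  have h1 : ∀ s : Bool, ∑ ε : Fin r → Bool, h (ε i) (!ε i) =
      ∑ ε : Fin r → Bool, h (xor (ε i) s) (!(xor (ε i) s)) := by
    intro s
    rw [← Equiv.sum_comp (xorE r (fun k => if k = i then s else false))]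
    refine Finset.sum_congr rfl fun ε _ => ?_
    simp [xorE]
  have h2 : ∑ s : Bool, ∑ ε : Fin r → Bool, h (ε i) (!ε i) =
      2 * ∑ ε : Fin r → Bool, h (ε i) (!ε i) := by
    simp only [Fintype.sum_bool]; ring
  rw [← h2]
  have h3 : ∑ s : Bool, ∑ ε : Fin r → Bool, h (ε i) (!ε i) =
      ∑ s : Bool, ∑ ε : Fin r → Bool, h (xor (ε i) s) (!(xor (ε i) s)) :=
    Finset.sum_congr rfl fun s _ => h1 s
  rw [h3, Finset.sum_comm]
  have h5 : ∀ ε : Fin r → Bool, ∑ s : Bool, h (xor (ε i) s) (!(xor (ε i) s)) =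
      ∑ s : Bool, h s (!s) := by
    intro ε
    simp only [Fintype.sum_bool]
    cases ε i <;> simp <;> ring
  simp only [h5]
  rw [Finset.sum_const, Finset.card_univ, nsmul_eq_mul]

variable {w : B → ℝ} {G : B → B → ℝ}

lemma offdiag_le (hG : ∀ x y, 0 ≤ G x y) (r : ℕ) (ω : Fin r × Bool → B) :
    (Fintype.card (Fin r → Bool) : ℝ) *
      (∑ k, ∑ l, G (ω k) (ω l) - ∑ k, G (ω k) (ω k)) ≤
      4 * ∑ ε : Fin r → Bool, ∑ i, ∑ j, G (ω (i, ε i)) (ω (j, !ε j)) := by
  classical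
  have h0 : ∑ k, ∑ l, G (ω k) (ω l) - ∑ k, G (ω k) (ω k) =
      ∑ i : Fin r, ∑ j : Fin r, if i = j then ∑ s : Bool, G (ω (i, s)) (ω (i, !s))
        else ∑ s : Bool, ∑ t : Bool, G (ω (i, s)) (ω (j, t)) := by
    rw [Fintype.sum_prod_type, Fintype.sum_prod_type, ← Finset.sum_sub_distrib]
    refine Finset.sum_congr rfl fun i _ => ?_
    simp only [Fintype.sum_prod_type]
    rw [Finset.sum_comm]
    rw [← Finset.add_sum_erase _ _ (Finset.mem_univ i), ← Finset.add_sum_erase _ _ (Finset.mem_univ i)]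
    rw [if_pos rfl]
    have e1 : ∑ j ∈ (Finset.univ : Finset (Fin r)).erase i, (if i = j then
        ∑ s : Bool, G (ω (i, s)) (ω (i, !s)) else ∑ s : Bool, ∑ t : Bool, G (ω (i, s)) (ω (j, t)))
        = ∑ j ∈ (Finset.univ : Finset (Fin r)).erase i,
          ∑ s : Bool, ∑ t : Bool, G (ω (i, s)) (ω (j, t)) := by
      refine Finset.sum_congr rfl fun j hj => ?_
      rw [if_neg (Finset.ne_of_mem_erase hj).symm]
    rw [e1]
    simp only [Fintype.sum_bool]
    simp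
    ring
  rw [h0, Finset.mul_sum]
  have h1 : 4 * ∑ ε : Fin r → Bool, ∑ i, ∑ j, G (ω (i, ε i)) (ω (j, !ε j)) =
      ∑ i : Fin r, ∑ j : Fin r, 4 * ∑ ε : Fin r → Bool, G (ω (i, ε i)) (ω (j, !ε j)) := by
    simp only [← Finset.mul_sum]
    congr 1
    rw [Finset.sum_comm]
    exact Finset.sum_congr rfl fun i _ => Finset.sum_comm
  rw [h1]
  refine Finset.sum_le_sum fun i _ => ?_
  rw [Finset.mul_sum]
  refine Finset.sum_le_sum fun j _ => ?_
  split_ifs with hij
  · subst hij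
    have h2 := avg_eq r i (fun s t => G (ω (i, s)) (ω (i, t)))
    have h3 : 0 ≤ ∑ ε : Fin r → Bool, G (ω (i, ε i)) (ω (i, !ε i)) :=
      Finset.sum_nonneg fun _ _ => hG _ _
    linarith
  · have h2 := avg_ne r hij (fun s t => G (ω (i, s)) (ω (j, t)))
    rw [h2]

lemma split_sum (r : ℕ) (F : (Fin r × Bool → B) → ℝ) :
    ∑ ω : Fin r × Bool → B, F ω = ∑ ω0 : Fin r → B, ∑ ω1 : Fin r → B,
      F (fun k => if k.2 then ω1 k.1 else ω0 k.1) := by
  let E : ((Fin r → B) × (Fin r → B)) ≃ (Fin r × Bool → B) :=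
    { toFun := fun p k => if k.2 then p.2 k.1 else p.1 k.1
      invFun := fun ω => (fun i => ω (i, false), fun i => ω (i, true))
      left_inv := by intro p; simp
      right_inv := by
        intro ω; funext k
        rcases k with ⟨i, s⟩
        cases s <;> simp }
  rw [← Equiv.sum_comp E, Fintype.sum_prod_type]
  rfl

lemma twist (hw : ∀ x, 0 ≤ w x) (r : ℕ) (ε : Fin r → Bool) (t : ℝ) :
    ∑ ω : Fin r × Bool → B, (∏ k, w (ω k)) *
      Real.exp (t * ∑ i, ∑ j, G (ω (i, ε i)) (ω (j, !ε j))) =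
    ∑ ω : Fin r × Bool → B, (∏ k, w (ω k)) *
      Real.exp (t * ∑ i, ∑ j, G (ω (i, false)) (ω (j, true))) := by
  let τ : (Fin r × Bool) ≃ (Fin r × Bool) :=
    { toFun := fun k => (k.1, xor k.2 (ε k.1))
      invFun := fun k => (k.1, xor k.2 (ε k.1))
      left_inv := by intro k; simp
      right_inv := by intro k; simp }
  rw [← Equiv.sum_comp (Equiv.arrowCongr τ (Equiv.refl B)) (fun ω => (∏ k, w (ω k)) *
      Real.exp (t * ∑ i, ∑ j, G (ω (i, ε i)) (ω (j, !ε j))))]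
  refine Finset.sum_congr rfl fun ω _ => ?_
  simp only [Equiv.arrowCongr_apply, Equiv.coe_refl, Function.comp_apply, id_eq]
  congr 1
  · exact Equiv.prod_comp τ.symm (fun k => w (ω k))
  · congr 2
    refine Finset.sum_congr rfl fun i _ => Finset.sum_congr rfl fun j _ => ?_
    have e1 : τ.symm (i, ε i) = (i, false) := by simp [τ, Equiv.symm]
    have e2 : τ.symm (j, !ε j) = (j, true) := by simp [τ, Equiv.symm]
    rw [e1, e2]

/-- One step of the block recursion. -/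
lemma AL_step (hw : ∀ x, 0 ≤ w x) (hG : ∀ x y, 0 ≤ G x y) (hs : ∀ x y, G x y = G y x)
    {W D c0 t0 α : ℝ} (hW : 0 ≤ W)
    (hD : ∀ c, 0 ≤ c → c ≤ c0 → ∑ x, w x * Real.exp (c * G x x) ≤ W * D) (r : ℕ)
    (hL : ∀ (ω : Fin r → B) (t : ℝ), 0 ≤ t → t ≤ t0 →
      ∑ x, w x * Real.exp (t * ∑ i, G x (ω i)) ≤
        W * Real.exp (α * t ^ 2 * ∑ i, ∑ j, G (ω i) (ω j)))
    {u a : ℝ} (hu0 : 0 < u) (hu1 : u < 1) (ha : 0 ≤ a) (hac : a / u ≤ c0)
    (hat : 4 * (a / (1 - u)) ≤ t0) :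
    Psi w G (Fin r × Bool) a ≤ (W * D) ^ (2 * r) +
      W ^ r * Psi w G (Fin r) (r * (α * (4 * (a / (1 - u))) ^ 2)) := by
  classical
  have h1u : 0 < 1 - u := by linarith
  set a1 := a / (1 - u) with ha1
  have ha1' : 0 ≤ a1 := by positivity
  -- convexity
  have hconv : ∀ ω : Fin r × Bool → B, Real.exp (a * ∑ k, ∑ l, G (ω k) (ω l)) ≤
      u * Real.exp ((a / u) * ∑ k, G (ω k) (ω k)) +
      (1 - u) * Real.exp (a1 * (∑ k, ∑ l, G (ω k) (ω l) - ∑ k, G (ω k) (ω k))) := by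
    intro ω
    have hc := convexOn_exp.2 (Set.mem_univ ((a / u) * ∑ k, G (ω k) (ω k)))
      (Set.mem_univ (a1 * (∑ k, ∑ l, G (ω k) (ω l) - ∑ k, G (ω k) (ω k))))
      hu0.le h1u.le (by ring)
    simp only [smul_eq_mul] at hc
    refine le_trans (le_of_eq ?_) hc
    congr 1
    rw [ha1]
    field_simp
    ring
  have hprod : ∀ ω : Fin r × Bool → B, 0 ≤ ∏ k, w (ω k) := fun ω =>
    Finset.prod_nonneg fun k _ => hw _
  -- diagonal part
  have hdiag : ∑ ω : Fin r × Bool → B, (∏ k, w (ω k)) *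
      Real.exp ((a / u) * ∑ k, G (ω k) (ω k)) ≤ (W * D) ^ (2 * r) := by
    have e1 : ∀ ω : Fin r × Bool → B, (∏ k, w (ω k)) *
      Real.exp ((a / u) * ∑ k, G (ω k) (ω k)) =
      ∏ k, (w (ω k) * Real.exp ((a / u) * G (ω k) (ω k))) := by
      intro ω
      rw [Finset.prod_mul_distrib, ← Real.exp_sum, Finset.mul_sum]
    simp only [e1]
    have e2 := Finset.prod_univ_sum (ι := Fin r × Bool) (fun _ => (Finset.univ : Finset B))
      (fun _ x => w x * Real.exp ((a / u) * G x x))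
    rw [Fintype.piFinset_univ] at e2
    rw [← e2, Finset.prod_const, Finset.card_univ]
    have e3 : Fintype.card (Fin r × Bool) = 2 * r := by simp [mul_comm]
    rw [e3]
    exact pow_le_pow_left₀ (Finset.sum_nonneg fun x _ => mul_nonneg (hw x) (Real.exp_pos _).le)
      (hD _ (by positivity) hac) _
  -- off-diagonal part
  have hcard : (0:ℝ) < (Fintype.card (Fin r → Bool) : ℝ) := by
    have : 0 < Fintype.card (Fin r → Bool) := Fintype.card_pos
    exact_mod_cast this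
  have hoff : ∑ ω : Fin r × Bool → B, (∏ k, w (ω k)) *
      Real.exp (a1 * (∑ k, ∑ l, G (ω k) (ω l) - ∑ k, G (ω k) (ω k))) ≤
      ∑ ω : Fin r × Bool → B, (∏ k, w (ω k)) *
      Real.exp (4 * a1 * ∑ i, ∑ j, G (ω (i, false)) (ω (j, true))) := by
    have e1 : ∀ ω : Fin r × Bool → B,
        Real.exp (a1 * (∑ k, ∑ l, G (ω k) (ω l) - ∑ k, G (ω k) (ω k))) ≤
        ∑ ε : Fin r → Bool, (1 / (Fintype.card (Fin r → Bool) : ℝ)) *
          Real.exp (4 * a1 * ∑ i, ∑ j, G (ω (i, ε i)) (ω (j, !ε j))) := by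
      intro ω
      have hJ := convexOn_exp.map_sum_le (t := (Finset.univ : Finset (Fin r → Bool)))
        (w := fun _ => (1 / (Fintype.card (Fin r → Bool) : ℝ)))
        (p := fun ε => 4 * a1 * ∑ i, ∑ j, G (ω (i, ε i)) (ω (j, !ε j)))
        (fun _ _ => by positivity) (by simp) (fun _ _ => Set.mem_univ _)
      simp only [smul_eq_mul] at hJ
      refine le_trans (Real.exp_le_exp.2 ?_) hJ
      have h2 := offdiag_le hG r ω
      rw [← Finset.mul_sum, ← Finset.mul_sum]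
      rw [one_div, ← div_eq_inv_mul, le_div_iff₀ hcard]
      calc a1 * (∑ k, ∑ l, G (ω k) (ω l) - ∑ k, G (ω k) (ω k)) *
            (Fintype.card (Fin r → Bool) : ℝ)
          = a1 * ((Fintype.card (Fin r → Bool) : ℝ) *
            (∑ k, ∑ l, G (ω k) (ω l) - ∑ k, G (ω k) (ω k))) := by ring
        _ ≤ a1 * (4 * ∑ ε : Fin r → Bool, ∑ i, ∑ j, G (ω (i, ε i)) (ω (j, !ε j))) := by gcongr
        _ = _ := by ring
    calc ∑ ω : Fin r × Bool → B, (∏ k, w (ω k)) *
          Real.exp (a1 * (∑ k, ∑ l, G (ω k) (ω l) - ∑ k, G (ω k) (ω k)))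
        ≤ ∑ ω : Fin r × Bool → B, (∏ k, w (ω k)) *
          ∑ ε : Fin r → Bool, (1 / (Fintype.card (Fin r → Bool) : ℝ)) *
          Real.exp (4 * a1 * ∑ i, ∑ j, G (ω (i, ε i)) (ω (j, !ε j))) :=
          Finset.sum_le_sum fun ω _ => mul_le_mul_of_nonneg_left (e1 ω) (hprod ω)
      _ = ∑ ε : Fin r → Bool, (1 / (Fintype.card (Fin r → Bool) : ℝ)) *
          ∑ ω : Fin r × Bool → B, (∏ k, w (ω k)) *
          Real.exp (4 * a1 * ∑ i, ∑ j, G (ω (i, ε i)) (ω (j, !ε j))) := by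
          simp only [Finset.mul_sum]
          rw [Finset.sum_comm]
          refine Finset.sum_congr rfl fun ε _ => Finset.sum_congr rfl fun ω _ => ?_
          ring
      _ = ∑ ε : Fin r → Bool, (1 / (Fintype.card (Fin r → Bool) : ℝ)) *
          ∑ ω : Fin r × Bool → B, (∏ k, w (ω k)) *
          Real.exp (4 * a1 * ∑ i, ∑ j, G (ω (i, false)) (ω (j, true))) := by
          refine Finset.sum_congr rfl fun ε _ => ?_
          rw [twist hw r ε]
      _ = _ := by
          rw [← Finset.sum_mul, Finset.sum_const, Finset.card_univ, nsmul_eq_mul,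
            mul_one_div_cancel hcard.ne', one_mul]
  have hoff2 : ∑ ω : Fin r × Bool → B, (∏ k, w (ω k)) *
      Real.exp (4 * a1 * ∑ i, ∑ j, G (ω (i, false)) (ω (j, true))) ≤
      W ^ r * Psi w G (Fin r) (r * (α * (4 * a1) ^ 2)) := by
    rw [split_sum]
    unfold Psi
    rw [Finset.mul_sum]
    refine Finset.sum_le_sum fun ω0 _ => ?_
    have e1 : ∀ ω1 : Fin r → B, (∏ k : Fin r × Bool, w (if k.2 then ω1 k.1 else ω0 k.1)) *
        Real.exp (4 * a1 * ∑ i, ∑ j, G (if ((i, false) : Fin r × Bool).2 then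
          ω1 ((i, false) : Fin r × Bool).1 else ω0 ((i, false) : Fin r × Bool).1)
          (if ((j, true) : Fin r × Bool).2 then ω1 ((j, true) : Fin r × Bool).1
            else ω0 ((j, true) : Fin r × Bool).1)) =
        (∏ i, w (ω0 i)) * ∏ j, (w (ω1 j) * Real.exp (4 * a1 * ∑ i, G (ω1 j) (ω0 i))) := by
      intro ω1
      rw [Fintype.prod_prod_type, Finset.prod_mul_distrib, ← Real.exp_sum]
      simp only [Fintype.prod_bool, if_true, Bool.false_eq_true, if_false]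
      rw [Finset.prod_mul_distrib, ← Finset.mul_sum, Finset.sum_comm]
      have : ∀ j i : Fin r, G (ω0 i) (ω1 j) = G (ω1 j) (ω0 i) := fun j i => hs _ _
      simp only [this]
      ring
    refine (Finset.sum_congr rfl fun ω1 _ => e1 ω1).trans_le ?_
    rw [← Finset.mul_sum]
    have e2 := Finset.prod_univ_sum (ι := Fin r) (fun _ => (Finset.univ : Finset B))
      (fun _ x => w x * Real.exp (4 * a1 * ∑ i, G x (ω0 i)))
    rw [Fintype.piFinset_univ] at e2
    rw [← e2, Finset.prod_const, Finset.card_univ, Fintype.card_fin]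
    have e3 := hL ω0 (4 * a1) (by positivity) hat
    have e4 : (∑ x, w x * Real.exp (4 * a1 * ∑ i, G x (ω0 i))) ^ r ≤
        (W * Real.exp (α * (4 * a1) ^ 2 * ∑ i, ∑ j, G (ω0 i) (ω0 j))) ^ r :=
      pow_le_pow_left₀ (Finset.sum_nonneg fun x _ => mul_nonneg (hw x) (Real.exp_pos _).le) e3 r
    calc (∏ i, w (ω0 i)) * (∑ x, w x * Real.exp (4 * a1 * ∑ i, G x (ω0 i))) ^ r
        ≤ (∏ i, w (ω0 i)) *
          (W * Real.exp (α * (4 * a1) ^ 2 * ∑ i, ∑ j, G (ω0 i) (ω0 j))) ^ r :=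
          mul_le_mul_of_nonneg_left e4 (Finset.prod_nonneg fun _ _ => hw _)
      _ = _ := by
          rw [mul_pow, ← Real.exp_nat_mul]
          have : (r:ℝ) * (α * (4 * a1) ^ 2 * ∑ i, ∑ j, G (ω0 i) (ω0 j)) =
            r * (α * (4 * a1) ^ 2) * ∑ i, ∑ j, G (ω0 i) (ω0 j) := by ring
          rw [this]
          ring
  have hD0 : 0 ≤ (W * D) ^ (2 * r) := by
    have : 0 ≤ W * D := le_trans (Finset.sum_nonneg fun x _ =>
      mul_nonneg (hw x) (Real.exp_pos _).le) (hD _ (by positivity) hac)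
    positivity
  have hP0 : 0 ≤ W ^ r * Psi w G (Fin r) (r * (α * (4 * a1) ^ 2)) := by
    refine mul_nonneg (by positivity) (Finset.sum_nonneg fun ω _ =>
      mul_nonneg (Finset.prod_nonneg fun _ _ => hw _) (Real.exp_pos _).le)
  calc Psi w G (Fin r × Bool) a
      ≤ ∑ ω : Fin r × Bool → B, (∏ k, w (ω k)) *
        (u * Real.exp ((a / u) * ∑ k, G (ω k) (ω k)) +
        (1 - u) * Real.exp (a1 * (∑ k, ∑ l, G (ω k) (ω l) - ∑ k, G (ω k) (ω k)))) :=
        Finset.sum_le_sum fun ω _ => mul_le_mul_of_nonneg_left (hconv ω) (hprod ω)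
    _ = u * ∑ ω : Fin r × Bool → B, (∏ k, w (ω k)) *
          Real.exp ((a / u) * ∑ k, G (ω k) (ω k)) +
        (1 - u) * ∑ ω : Fin r × Bool → B, (∏ k, w (ω k)) *
          Real.exp (a1 * (∑ k, ∑ l, G (ω k) (ω l) - ∑ k, G (ω k) (ω k))) := by
        rw [Finset.mul_sum, Finset.mul_sum, ← Finset.sum_add_distrib]
        refine Finset.sum_congr rfl fun ω _ => ?_
        ring
    _ ≤ u * (W * D) ^ (2 * r) +
        (1 - u) * (W ^ r * Psi w G (Fin r) (r * (α * (4 * a1) ^ 2))) := by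
        have := hoff.trans hoff2
        gcongr
    _ ≤ (W * D) ^ (2 * r) + W ^ r * Psi w G (Fin r) (r * (α * (4 * a1) ^ 2)) := by
        nlinarith

/-- The block recursion. -/
lemma AL_main (hw : ∀ x, 0 ≤ w x) (hG : ∀ x y, 0 ≤ G x y) (hs : ∀ x y, G x y = G y x)
    {W D c0 t0 α u ab : ℝ} (hW : 1 ≤ W) (hD1 : 1 ≤ D) (hα : 0 < α) (hu0 : 0 < u) (hu1 : u < 1)
    (hab : 0 ≤ ab) (hab1 : ab / u ≤ c0) (hab2 : 4 * (ab / (1 - u)) ≤ t0)
    (hD : ∀ c, 0 ≤ c → c ≤ c0 → ∑ x, w x * Real.exp (c * G x x) ≤ W * D) (R0 : ℕ)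
    (hL : ∀ r ≤ R0, ∀ (ω : Fin r → B) (t : ℝ), 0 ≤ t → t ≤ t0 →
      ∑ x, w x * Real.exp (t * ∑ i, G x (ω i)) ≤
        W * Real.exp (α * t ^ 2 * ∑ i, ∑ j, G (ω i) (ω j))) :
    ∀ (j : ℕ) (a : ℝ), 2 ^ j ≤ R0 → 0 ≤ a →
      (∀ i ≤ j, (2:ℝ) ^ i * (4 * α / (1 - u) ^ 2 * 2 ^ j * a) ^ (2 ^ i) /
        (4 * α / (1 - u) ^ 2 * 2 ^ j) ≤ ab) →
      Psi w G (Fin (2 ^ j)) a ≤ (j + 1) * (W * D) ^ (2 ^ j) := by
  have h1u : 0 < 1 - u := by linarith
  intro j
  induction j with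
  | zero =>
    intro a _ ha hcond
    have h0 := hcond 0 le_rfl
    have h0' : a ≤ ab := by
      have e : (2:ℝ) ^ 0 * (4 * α / (1 - u) ^ 2 * 2 ^ 0 * a) ^ (2 ^ 0) /
        (4 * α / (1 - u) ^ 2 * 2 ^ 0) = a := by
        simp only [pow_zero, pow_one, one_mul, mul_one]
        field_simp
      rwa [e] at h0
    have hac : a ≤ c0 := by
      refine h0'.trans (le_trans ?_ hab1)
      rw [le_div_iff₀ hu0]
      nlinarith
    have e1 : Psi w G (Fin (2 ^ 0)) a = ∑ x, w x * Real.exp (a * G x x) := by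
      unfold Psi
      have : (2:ℕ) ^ 0 = 1 := rfl
      let E : B ≃ (Fin (2 ^ 0) → B) :=
        { toFun := fun x _ => x
          invFun := fun f => f ⟨0, by norm_num⟩
          left_inv := fun x => rfl
          right_inv := fun f => by
            funext i
            refine congrArg f (Fin.ext ?_)
            have := i.2
            simp only [pow_zero] at this
            simp only
            omega }
      rw [← Equiv.sum_comp E]
      refine Finset.sum_congr rfl fun x _ => ?_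
      simp [E]
    rw [e1]
    simp only [Nat.cast_zero, zero_add, one_mul, pow_zero, pow_one]
    exact hD a ha hac
  | succ j ih =>
    intro a hR ha hcond
    have hR' : 2 ^ j ≤ R0 := le_trans (Nat.pow_le_pow_right (by norm_num) (by omega)) hR
    have h0 := hcond 0 (by omega)
    have h0' : a ≤ ab := by
      have e : (2:ℝ) ^ 0 * (4 * α / (1 - u) ^ 2 * 2 ^ (j + 1) * a) ^ (2 ^ 0) /
        (4 * α / (1 - u) ^ 2 * 2 ^ (j + 1)) = a := by
        simp only [pow_zero, pow_one, one_mul]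
        field_simp
      rwa [e] at h0
    have hac : a / u ≤ c0 := le_trans (by gcongr) hab1
    have hat : 4 * (a / (1 - u)) ≤ t0 := le_trans (by gcongr) hab2
    have hcardE : Fintype.card (Fin (2 ^ (j + 1))) = Fintype.card (Fin (2 ^ j) × Bool) := by
      simp [pow_succ]
    rw [Psi_equiv w G (Fintype.equivOfCardEq hcardE) a]
    have hst := AL_step hw hG hs (by linarith) hD (2 ^ j) (hL (2 ^ j) hR') hu0 hu1 ha hac hat
    refine hst.trans ?_
    have hnew := ih (((2 ^ j : ℕ) : ℝ) * (α * (4 * (a / (1 - u))) ^ 2)) hR' (by positivity) (by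
      intro i hi
      have h1 := hcond (i + 1) (by omega)
      refine le_trans (le_of_eq ?_) h1
      have e1 : (4 * α / (1 - u) ^ 2 * 2 ^ j * (((2 ^ j : ℕ) : ℝ) * (α * (4 * (a / (1 - u))) ^ 2)))
          = (4 * α / (1 - u) ^ 2 * 2 ^ (j + 1) * a) ^ 2 := by
        push_cast
        field_simp
        ring
      rw [e1, ← pow_mul, show 2 * 2 ^ i = 2 ^ (i + 1) by ring]
      rw [pow_succ (2:ℝ) i, pow_succ (2:ℝ) j]
      field_simp)
    have hWD : 1 ≤ W * D := by nlinarith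
    have h2 : W ^ (2 ^ j) ≤ (W * D) ^ (2 ^ j) := by
      apply pow_le_pow_left₀ (by linarith)
      nlinarith
    have h3 : W ^ (2 ^ j) * Psi w G (Fin (2 ^ j)) (((2 ^ j : ℕ) : ℝ) * (α * (4 * (a / (1 - u))) ^ 2))
        ≤ (W * D) ^ (2 ^ j) * ((j + 1) * (W * D) ^ (2 ^ j)) := by
      refine mul_le_mul h2 hnew ?_ (by positivity)
      exact Finset.sum_nonneg fun ω _ => mul_nonneg (Finset.prod_nonneg fun _ _ => hw _)
        (Real.exp_pos _).le
    have e2 : (W * D) ^ (2 ^ j) * ((j + 1) * (W * D) ^ (2 ^ j)) = (j + 1) * (W * D) ^ (2 ^ (j + 1)) := by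
      rw [pow_succ 2 j, mul_comm (2 ^ j) 2, two_mul, pow_add]
      ring
    have e3 : (2 * 2 ^ j) = 2 ^ (j + 1) := by ring
    rw [e3]
    rw [e2] at h3
    push_cast
    have e4 : ((j:ℝ) + 1 + 1) * (W * D) ^ (2 ^ (j + 1)) =
      (W * D) ^ (2 ^ (j + 1)) + (j + 1) * (W * D) ^ (2 ^ (j + 1)) := by ring
    rw [e4]
    exact add_le_add le_rfl (by simpa using h3)

end AL

end Pool.Agent.H111R3
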