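import Pool.Agent.H111R3.Tail

set_option autoImplicit false
set_option linter.unusedSectionVars false
open Finset Filter

namespace Pool.Agent.H111R3

variable {d : ℕ} [NeZero d]

lemma pow_bound {h0 y : ℝ} (hh : 0 < h0) (hy0 : 0 ≤ y) (hy : y ≤ 1 / (1 + h0)) (k : ℕ) :
    (k : ℝ) * y ^ k ≤ 1 / h0 := by
  have h1 : y ^ k ≤ (1 / (1 + h0)) ^ k := pow_le_pow_left₀ hy0 hy k
  have h2 : 1 + (k:ℝ) * h0 ≤ (1 + h0) ^ k := one_add_mul_le_pow (by linarith) k
  have h3 : (1 / (1 + h0)) ^ k ≤ 1 / (1 + k * h0) := by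
    rw [one_div, inv_pow, ← one_div]
    exact one_div_le_one_div_of_le (by positivity) h2
  calc (k:ℝ) * y ^ k ≤ k * (1 / (1 + k * h0)) :=
        mul_le_mul_of_nonneg_left (h1.trans h3) (by positivity)
    _ ≤ 1 / h0 := by
        rw [mul_one_div, div_le_div_iff₀ (by positivity) hh]
        nlinarith

/-- Bound on the partition function. -/
lemma psi_bound (hd : 2 ≤ d) {b' : ℝ} (hb : 0 < b')
    (hH : ∀ c : ℝ, 1 < c → ∀ᶠ N : ℕ in atTop,
      EE N (fun e => Real.exp ((b' / N) * Jq (d := d) 0 (N + 1) e)) ≤ c ^ N)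
    {u h0 : ℝ} (hu0 : 0 < u) (hu1 : u < 1) (hh0 : 0 < h0) (J m κ : ℕ) (hm : 1 ≤ m)
    (Λ : Finset (Fin d → ℤ)) (hΛ : 1 ≤ Λ.card) {a : ℝ} (ha : 0 ≤ a)
    (hY : 4 * (m / (2 * b')) / (1 - u) ^ 2 * 2 ^ J * a ≤ 1 / (1 + h0))
    (hN : 6 * K3 d * b' ≤ h0 * u * 2 ^ J) :
    Psi (wt (Λ := Λ) (m := m)) (fun x y => GO κ (toOb x) (toOb y)) (Fin (2 ^ J)) a ≤
      (J + 1) * ((Λ.card * Real.exp (u / (6 * K3 d * (1 - u)) * 2 ^ J)) *
        Real.exp (2 + C1 d / K3 d * Real.log (1 + m / (κ + 1)))) ^ (2 ^ J) := by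
  have hK := K3_ge (d := d)
  have hC := C1_ge (d := d)
  have h1u : 0 < 1 - u := by linarith
  have hm0 : (0:ℝ) < m := by exact_mod_cast hm
  have hΛ' : (1:ℝ) ≤ Λ.card := by exact_mod_cast hΛ
  have hlog : 0 ≤ Real.log (1 + (m:ℝ) / (κ + 1)) := by
    apply Real.log_nonneg
    have : 0 ≤ (m:ℝ) / (κ + 1) := by positivity
    linarith
  refine AL_main (c0 := 1 / (12 * K3 d * m)) (t0 := 4 * (u / (12 * K3 d * m) / (1 - u)))
    (α := m / (2 * b')) (u := u) (ab := u / (12 * K3 d * m)) wt_nonneg (fun _ _ => GO_nonneg _ _ _)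
    (fun _ _ => GO_symm _ _ _) ?_ ?_ (by positivity) hu0 hu1 (by positivity) ?_ le_rfl ?_
    (2 ^ J) ?_ J a le_rfl ha ?_
  · have := Real.one_le_exp (show 0 ≤ u / (6 * K3 d * (1 - u)) * 2 ^ J by positivity)
    nlinarith
  · apply Real.one_le_exp
    positivity
  · apply le_of_eq
    field_simp
  · intro c hc hcc
    have hcm : c * m ≤ 1 / (12 * K3 d) := by
      calc c * m ≤ 1 / (12 * K3 d * m) * m := by gcongr
        _ = _ := by field_simp
    have h1 := blk_D (Λ := Λ) hd κ hc (m := m) (by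
      have e1 : 1 / (6 * K3 d) = 2 * (1 / (12 * K3 d)) := by field_simp; norm_num
      rw [e1]; linarith)
    refine h1.trans ?_
    have h2 : Real.exp (1 + c * m + 4 * C1 d * (c * m) * Real.log (1 + m / (κ + 1))) ≤
        Real.exp (2 + C1 d / K3 d * Real.log (1 + m / (κ + 1))) := by
      refine Real.exp_le_exp.2 ?_
      have h3 : c * m ≤ 1 := by
        refine hcm.trans ?_
        rw [div_le_one (by positivity)]
        linarith
      have h4 : 4 * C1 d * (c * m) ≤ C1 d / K3 d := by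
        calc 4 * C1 d * (c * m) ≤ 4 * C1 d * (1 / (12 * K3 d)) := by gcongr
          _ ≤ C1 d / K3 d := by
              rw [mul_one_div, div_le_div_iff₀ (by positivity) (by positivity)]
              nlinarith [mul_pos (lt_of_lt_of_le one_pos hC) (show (0:ℝ) < K3 d by linarith)]
      have h5 := mul_le_mul_of_nonneg_right h4 hlog
      linarith
    have h6 := Real.one_le_exp (show 0 ≤ u / (6 * K3 d * (1 - u)) * 2 ^ J by positivity)
    calc (Λ.card : ℝ) * Real.exp (1 + c * m + 4 * C1 d * (c * m) * Real.log (1 + m / (κ + 1)))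
        ≤ (Λ.card : ℝ) * Real.exp (2 + C1 d / K3 d * Real.log (1 + m / (κ + 1))) := by gcongr
      _ ≤ (Λ.card * Real.exp (u / (6 * K3 d * (1 - u)) * 2 ^ J)) *
          Real.exp (2 + C1 d / K3 d * Real.log (1 + m / (κ + 1))) := by
          refine mul_le_mul_of_nonneg_right ?_ (Real.exp_pos _).le
          nlinarith
  · intro r hr ω t ht htt
    refine (blk_L (Λ := Λ) hb hH hm κ r ω ht).trans ?_
    refine mul_le_mul_of_nonneg_right ?_ (Real.exp_pos _).le
    refine mul_le_mul_of_nonneg_left (Real.exp_le_exp.2 ?_) (by positivity)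
    have hr' : (r:ℝ) ≤ 2 ^ J := by exact_mod_cast hr
    calc t * (r * m) / 2 ≤ 4 * (u / (12 * K3 d * m) / (1 - u)) * (2 ^ J * m) / 2 := by gcongr
      _ = _ := by field_simp; norm_num
  · intro i hi
    have hY0 : 0 ≤ 4 * (m / (2 * b')) / (1 - u) ^ 2 * 2 ^ J * a := by positivity
    have h1 := pow_bound hh0 hY0 hY (2 ^ i)
    push_cast at h1
    have h2 : (0:ℝ) < 4 * (m / (2 * b')) / (1 - u) ^ 2 * 2 ^ J := by positivity
    rw [div_le_iff₀ h2]
    refine h1.trans ?_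
    have e1 : u / (12 * K3 d * m) * (4 * (m / (2 * b')) / (1 - u) ^ 2 * 2 ^ J) =
      u * 2 ^ J / (6 * K3 d * b' * (1 - u) ^ 2) := by field_simp; norm_num
    rw [e1, div_le_div_iff₀ hh0 (by positivity)]
    have h3 : (1 - u) ^ 2 ≤ 1 := pow_le_one₀ h1u.le (by linarith)
    calc 1 * (6 * K3 d * b' * (1 - u) ^ 2) ≤ 6 * K3 d * b' := by
          rw [one_mul]
          have : 0 ≤ 6 * K3 d * b' := by positivity
          nlinarith
      _ ≤ h0 * u * 2 ^ J := hN
      _ = u * 2 ^ J * h0 := by ring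

lemma poly_le_exp (p : ℕ) {δ : ℝ} (hδ : 0 < δ) :
    ∃ C : ℝ, 0 < C ∧ ∀ T : ℝ, 0 ≤ T → T ^ p ≤ C * Real.exp (δ * T) := by
  refine ⟨p.factorial / δ ^ p, by positivity, fun T hT => ?_⟩
  have h := Real.pow_div_factorial_le_exp (δ * T) (by positivity) p
  rw [div_le_iff₀ (by positivity), mul_pow] at h
  rw [div_mul_eq_mul_div, le_div_iff₀ (by positivity)]
  linarith

lemma pk_g_bound (g : ℕ) {x : ℝ} (hx : 0 < x) (hg : x ≤ ((g / 2 : ℕ) : ℝ) + 1) (y : Fin d → ℤ) :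
    pk g y ≤ (C0 d / Real.sqrt x) ^ d := by
  refine (pk_le g y).trans ((pk_bound _).trans ?_)
  have h0 := C0_ge (d := d)
  have hs : 0 < Real.sqrt x := Real.sqrt_pos.2 hx
  have hs2 : Real.sqrt x ≤ Real.sqrt (((g / 2 : ℕ) : ℝ) + 1) := Real.sqrt_le_sqrt hg
  gcongr

end Pool.Agent.H111R3
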