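import Pool.Agent.H111R3.Growth
import Pool.Agent.H111R3.AL

set_option autoImplicit false
set_option linter.unusedSectionVars false
open Finset Filter

namespace Pool.Agent.H111R3

open Pool.Agent.Helper964.Chg (glue Loc glue_lt glue_add)

variable {d : ℕ} [NeZero d]

/-- Observed block: starting point and steps. -/
abbrev Ob (d m : ℕ) := (Fin d → ℤ) × (Fin m → St d)

/-- Block endpoints are in the box. -/
def good (Λ : Finset (Fin d → ℤ)) {m : ℕ} (o : Ob d m) : Prop :=
  o.1 ∈ Λ ∧ o.1 + pos (ext o.2) m ∈ Λ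

/-- Interaction of blocks. -/
noncomputable def GO (κ : ℕ) {m : ℕ} (o o' : Ob d m) : ℝ :=
  ∑ i ∈ range m, ∑ j ∈ range m, pk (2 * κ) ((o.1 + pos (ext o.2) i) - (o'.1 + pos (ext o'.2) j))

/-- Block type. -/
abbrev Bk (Λ : Finset (Fin d → ℤ)) (m : ℕ) := Λ × (Fin m → St d)

/-- Forget membership. -/
def toOb {Λ : Finset (Fin d → ℤ)} {m : ℕ} (x : Bk Λ m) : Ob d m := (x.1.1, x.2)

open Classical in
/-- Block weight. -/
noncomputable def wt {Λ : Finset (Fin d → ℤ)} {m : ℕ} (x : Bk Λ m) : ℝ :=
  (1 / (2 * (d : ℝ))) ^ m * (if x.1.1 + pos (ext x.2) m ∈ Λ then 1 else 0)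

variable {Λ : Finset (Fin d → ℤ)} {m : ℕ}

lemma wt_nonneg (x : Bk Λ m) : 0 ≤ wt x := by
  unfold wt
  split_ifs <;> positivity

lemma GO_nonneg (κ : ℕ) (o o' : Ob d m) : 0 ≤ GO κ o o' :=
  Finset.sum_nonneg fun _ _ => Finset.sum_nonneg fun _ _ => pk_nonneg _ _

lemma GO_symm (κ : ℕ) (o o' : Ob d m) : GO κ o o' = GO κ o' o := by
  unfold GO
  rw [Finset.sum_comm]
  refine Finset.sum_congr rfl fun i _ => Finset.sum_congr rfl fun j _ => ?_
  rw [← pk_neg]; congr 1; abel

open Classical in
lemma sum_wt (f : Ob d m → ℝ) : ∑ x : Bk Λ m, wt x * f (toOb x) =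
    ∑ z ∈ Λ, EE m (fun e => if z + pos e m ∈ Λ then f (z, fun i => e i) else 0) := by
  rw [Fintype.sum_prod_type, ← Finset.sum_coe_sort Λ]
  refine Finset.sum_congr rfl fun z _ => ?_
  rw [EE_eq_sum]
  refine Finset.sum_congr rfl fun s _ => ?_
  unfold wt toOb
  have h : (fun i : Fin m => ext s (i : ℕ)) = s := by
    funext i; simp [ext]
  simp only [h]
  split_ifs <;> ring

lemma pos_ext (e : ℕ → St d) {i : ℕ} (hi : i ≤ m) : pos (ext (fun k : Fin m => e k)) i = pos e i := by
  refine pos_congr (n := m) (fun k hk => ?_) hi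
  simp [ext, hk]

/-- (D) for blocks. -/
lemma blk_D (hd : 2 ≤ d) (κ : ℕ) {c : ℝ} (hc : 0 ≤ c) (hcm : 2 * c * m ≤ 1 / (6 * K3 d)) :
    ∑ x : Bk Λ m, wt x * Real.exp (c * GO κ (toOb x) (toOb x)) ≤
      Λ.card * Real.exp (1 + c * m + 4 * C1 d * (c * m) * Real.log (1 + m / (κ + 1))) := by
  classical
  rw [sum_wt (fun o => Real.exp (c * GO κ o o))]
  have h1 : ∀ z ∈ Λ, EE m (fun e => if z + pos e m ∈ Λ then
      Real.exp (c * GO (m := m) κ (z, fun i => e i) (z, fun i => e i)) else 0) ≤
      Real.exp (1 + c * m + 4 * C1 d * (c * m) * Real.log (1 + m / (κ + 1))) := by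
    intro z _
    refine le_trans (EE_mono m fun e => ?_) (C6 hd κ m hc hcm)
    have h2 : GO (m := m) κ (z, fun i => e i) (z, fun i => e i) =
        m * pk (2 * κ) (0 : Fin d → ℤ) + 2 * Jq κ m e := by
      rw [← self_sum κ m z e]
      unfold GO
      refine Finset.sum_congr rfl fun i hi => Finset.sum_congr rfl fun j hj => ?_
      rw [Finset.mem_range] at hi hj
      simp only
      rw [pos_ext e hi.le, pos_ext e hj.le]
    rw [h2]
    split_ifs
    · exact le_rfl
    · exact (Real.exp_pos _).le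
  refine (Finset.sum_le_sum h1).trans_eq ?_
  rw [Finset.sum_const, nsmul_eq_mul]

/-- (L) for blocks. -/
lemma blk_L {b' : ℝ} (hb : 0 < b')
    (hH : ∀ c : ℝ, 1 < c → ∀ᶠ N : ℕ in atTop,
      EE N (fun e => Real.exp ((b' / N) * Jq (d := d) 0 (N + 1) e)) ≤ c ^ N)
    (hm : 1 ≤ m) (κ r : ℕ) (ω : Fin r → Bk Λ m) {t : ℝ} (ht : 0 ≤ t) :
    ∑ x : Bk Λ m, wt x * Real.exp (t * ∑ i, GO κ (toOb x) (toOb (ω i))) ≤
      (Λ.card * Real.exp (t * (r * m) / 2)) *
        Real.exp ((m / (2 * b')) * t ^ 2 * ∑ i, ∑ j, GO κ (toOb (ω i)) (toOb (ω j))) := by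
  classical
  rw [sum_wt (fun o => Real.exp (t * ∑ i, GO κ o (toOb (ω i))))]
  set s : Finset (Fin r × ℕ) := (Finset.univ : Finset (Fin r)) ×ˢ range m with hs
  set y : Fin r × ℕ → (Fin d → ℤ) := fun a => (ω a.1).1.1 + pos (ext (ω a.1).2) a.2 with hy
  set V : (Fin d → ℤ) → ℝ := fun x => ∑ a ∈ s, t * pk (2 * κ) (x - y a) with hV
  have hV0 : ∀ x, 0 ≤ V x := fun x => Finset.sum_nonneg fun a _ => mul_nonneg ht (pk_nonneg _ _)
  have hVS : ∀ x, V x ≤ t * (r * m) := by
    intro x
    refine (Finset.sum_le_sum fun a _ => mul_le_mul_of_nonneg_left (pk_le_one _ _) ht).trans_eq ?_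
    rw [Finset.sum_const, hs, Finset.card_product, Finset.card_univ, Fintype.card_fin,
      Finset.card_range, nsmul_eq_mul]
    push_cast; ring
  have h1 : ∀ z ∈ Λ, EE m (fun e => if z + pos e m ∈ Λ then
      Real.exp (t * ∑ i, GO (m := m) κ (z, fun i => e i) (toOb (ω i))) else 0) ≤
      Real.exp (t * (r * m) / 2) * EE m (FF V Λ m z) := by
    intro z _
    rw [← EE_mul_left]
    refine EE_mono m fun e => ?_
    unfold FF
    split_ifs
    · rw [← Real.exp_add]
      refine Real.exp_le_exp.2 ?_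
      have h2 : t * ∑ i, GO (m := m) κ (z, fun i => e i) (toOb (ω i)) =
          ∑ i ∈ range m, V (z + pos e i) := by
        rw [hV]
        simp only [hs, Finset.sum_product]
        unfold GO toOb
        rw [Finset.sum_comm, Finset.mul_sum]
        refine Finset.sum_congr rfl fun i hi => ?_
        rw [Finset.mem_range] at hi
        rw [Finset.mul_sum]
        refine Finset.sum_congr rfl fun k _ => ?_
        rw [Finset.mul_sum]
        refine Finset.sum_congr rfl fun j _ => ?_
        simp only [hy]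
        rw [pos_ext e hi.le]
      rw [h2]
      have := le_sy hV0 hVS m z e
      linarith
    · simp
  refine (Finset.sum_le_sum h1).trans ?_
  rw [← Finset.mul_sum]
  have h3 := L_growth hb hH s κ y (fun _ => t) (fun _ => ht) Λ m hm
  have h4 : ∑ a ∈ s, ∑ a' ∈ s, t * t * pk (2 * κ) (y a - y a') =
      t ^ 2 * ∑ i, ∑ j, GO κ (toOb (ω i)) (toOb (ω j)) := by
    simp only [hs, Finset.sum_product]
    unfold GO toOb
    rw [Finset.mul_sum]
    refine Finset.sum_congr rfl fun i _ => ?_
    rw [Finset.mul_sum, Finset.sum_comm]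
    refine Finset.sum_congr rfl fun j _ => ?_
    rw [Finset.mul_sum]
    refine Finset.sum_congr rfl fun k _ => ?_
    rw [Finset.mul_sum]
    refine Finset.sum_congr rfl fun l _ => ?_
    simp only [hy]
    ring
  rw [h4] at h3
  have h5 : AA V Λ m = ∑ z ∈ Λ, EE m (FF V Λ m z) := rfl
  rw [← h5]
  calc Real.exp (t * (r * m) / 2) * AA V Λ m
      ≤ Real.exp (t * (r * m) / 2) * ((Λ.card : ℝ) * Real.exp ((m / (2 * b')) *
        (t ^ 2 * ∑ i, ∑ j, GO κ (toOb (ω i)) (toOb (ω j))))) := by
        exact mul_le_mul_of_nonneg_left h3 (Real.exp_pos _).le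
    _ = _ := by
        rw [← mul_assoc (m / (2 * b') : ℝ)]
        ring

/-- Observed blocks of a walk. -/
def obs (g m : ℕ) (y : Fin d → ℤ) (e : ℕ → St d) (k : ℕ) : Ob d m :=
  (y + pos e (k * (g + m) + g), fun i => e (k * (g + m) + g + i))

lemma obs_glue_zero (g : ℕ) (y : Fin d → ℤ) (e1 e2 : ℕ → St d) :
    obs g m y (glue (g + m) e1 e2) 0 = (y + pos e1 g, fun i : Fin m => shift g e1 i) := by
  unfold obs
  simp only [zero_mul, zero_add]
  rw [pos_glue_le _ _ (by omega)]
  congr 1
  funext i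
  rw [glue_lt (by omega)]
  rfl

lemma obs_glue_succ (g : ℕ) (y : Fin d → ℤ) (e1 e2 : ℕ → St d) (k : ℕ) :
    obs g m y (glue (g + m) e1 e2) (k + 1) = obs g m (y + pos e1 (g + m)) e2 k := by
  unfold obs
  have h : (k + 1) * (g + m) + g = (g + m) + (k * (g + m) + g) := by ring
  rw [h, pos_glue_add]
  refine Prod.ext ?_ ?_
  · simp only
    abel
  · simp only
    funext i
    rw [add_assoc (g + m) (k * (g + m) + g) (i : ℕ), glue_add]

open Classical in
lemma dom_one (g : ℕ) {s : ℝ} (hs : ∀ x : Fin d → ℤ, pk g x ≤ s) (y : Fin d → ℤ)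
    (h : Ob d m → ℝ) (hh : ∀ o, 0 ≤ h o) :
    EE (g + m) (fun e => if good Λ ((y + pos e g, fun i => shift g e i) : Ob d m) then
      h (y + pos e g, fun i => shift g e i) else 0) ≤ s * ∑ x : Bk Λ m, wt x * h (toOb x) := by
  rw [sum_wt h]
  rw [EE_append]
  set H : (Fin d → ℤ) → ℝ := fun z =>
    EE m (fun e => if z + pos e m ∈ Λ then h (z, fun i => e i) else 0) with hH
  have hH0 : ∀ z, 0 ≤ H z := fun z => EE_nonneg m fun e => by
    split_ifs
    · exact hh _
    · exact le_rfl
  have h1 : ∀ e : ℕ → St d, EE m (fun e' =>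
      if good Λ ((y + pos (glue g e e') g, fun i => shift g (glue g e e') i) : Ob d m) then
      h (y + pos (glue g e e') g, fun i => shift g (glue g e e') i) else 0) =
      ∑ z ∈ Λ, (if pos e g = z - y then (1:ℝ) else 0) * H z := by
    intro e
    have e1 : ∀ e' : ℕ → St d, (if good Λ ((y + pos (glue g e e') g,
        fun i => shift g (glue g e e') i) : Ob d m) then
        h (y + pos (glue g e e') g, fun i => shift g (glue g e e') i) else 0) =
        (if y + pos e g ∈ Λ then (if y + pos e g + pos e' m ∈ Λ then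
          h (y + pos e g, fun i => e' i) else 0) else 0) := by
      intro e'
      rw [pos_glue_le _ _ le_rfl, shift_glue]
      unfold good
      simp only
      rw [pos_ext e' le_rfl]
      by_cases h1 : y + pos e g ∈ Λ
      · by_cases h2 : y + pos e g + pos e' m ∈ Λ
        · simp [h1, h2]
        · simp [h1, h2]
      · simp [h1]
    simp only [e1]
    by_cases h2 : y + pos e g ∈ Λ
    · simp only [if_pos h2]
      rw [Finset.sum_eq_single (y + pos e g)]
      · rw [if_pos (by abel), one_mul]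
      · intro z _ hz
        rw [if_neg, zero_mul]
        intro h3
        apply hz
        rw [h3]; abel
      · intro h3; exact absurd h2 h3
    · simp only [if_neg h2]
      rw [EE_const]
      symm
      refine Finset.sum_eq_zero fun z hz => ?_
      rw [if_neg, zero_mul]
      intro h3
      apply h2
      rw [h3]
      simpa using hz
  simp only [h1]
  rw [EE_sum, Finset.mul_sum]
  refine Finset.sum_le_sum fun z _ => ?_
  rw [EE_mul_right]
  exact mul_le_mul_of_nonneg_right (hs _) (hH0 z)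

open Classical in
/-- Domination of the law of the observed blocks. -/
lemma dom (g : ℕ) {s : ℝ} (hs0 : 0 ≤ s) (hs : ∀ x : Fin d → ℤ, pk g x ≤ s) :
    ∀ (N : ℕ) (y : Fin d → ℤ) (Φ : (Fin N → Ob d m) → ℝ), (∀ o, 0 ≤ Φ o) →
    EE (N * (g + m)) (fun e => if ∀ k : Fin N, good Λ (obs g m y e k) then
      Φ (fun k => obs g m y e k) else 0) ≤
      s ^ N * ∑ ω : Fin N → Bk Λ m, (∏ k, wt (ω k)) * Φ (fun k => toOb (ω k)) := by
  intro N
  induction N with
  | zero =>
    intro y Φ hΦ
    rw [zero_mul, EE_zero]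
    simp
    apply le_of_eq
    congr 1
    funext k; exact k.elim0
  | succ N ih =>
    intro y Φ hΦ
    rw [show (N + 1) * (g + m) = (g + m) + N * (g + m) by ring, EE_append]
    set h : Ob d m → ℝ := fun o => s ^ N * ∑ ω : Fin N → Bk Λ m, (∏ k, wt (ω k)) *
      Φ (Fin.cons o (fun k => toOb (ω k))) with hh
    have hh0 : ∀ o, 0 ≤ h o := fun o => mul_nonneg (by positivity)
      (Finset.sum_nonneg fun ω _ => mul_nonneg (Finset.prod_nonneg fun _ _ => wt_nonneg _) (hΦ _))
    have h1 : ∀ e1 : ℕ → St d, EE (N * (g + m)) (fun e2 =>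
        if ∀ k : Fin (N + 1), good Λ (obs g m y (glue (g + m) e1 e2) k) then
        Φ (fun k => obs g m y (glue (g + m) e1 e2) k) else 0) ≤
        if good Λ ((y + pos e1 g, fun i => shift g e1 i) : Ob d m) then
        h (y + pos e1 g, fun i => shift g e1 i) else 0 := by
      intro e1
      set o : Ob d m := (y + pos e1 g, fun i => shift g e1 i) with ho
      have e3 : ∀ e2 : ℕ → St d, (if ∀ k : Fin (N + 1),
          good Λ (obs g m y (glue (g + m) e1 e2) k) then
          Φ (fun k => obs g m y (glue (g + m) e1 e2) k) else 0) =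
          if good Λ o then (if ∀ k : Fin N, good Λ (obs g m (y + pos e1 (g + m)) e2 k) then
            Φ (Fin.cons o (fun k : Fin N => obs g m (y + pos e1 (g + m)) e2 k)) else 0) else 0 := by
        intro e2
        have e4 : (∀ k : Fin (N + 1), good Λ (obs g m y (glue (g + m) e1 e2) k)) ↔
            (good Λ o ∧ ∀ k : Fin N, good Λ (obs g m (y + pos e1 (g + m)) e2 k)) := by
          rw [Fin.forall_fin_succ]
          simp only [Fin.val_zero, Fin.val_succ]
          rw [obs_glue_zero]
          simp only [obs_glue_succ]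
          rfl
        have e5 : (fun k : Fin (N + 1) => obs g m y (glue (g + m) e1 e2) k) =
            Fin.cons o (fun k : Fin N => obs g m (y + pos e1 (g + m)) e2 k) := by
          funext k
          refine Fin.cases ?_ (fun k => ?_) k
          · simp only [Fin.val_zero, Fin.cons_zero]
            rw [obs_glue_zero]
          · simp only [Fin.val_succ, Fin.cons_succ]
            rw [obs_glue_succ]
        rw [e5]
        by_cases h2 : good Λ o
        · simp only [e4, h2, true_and, if_true]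
        · simp only [e4, h2, false_and, if_false]
      simp only [e3]
      split_ifs with h2
      · exact ih (y + pos e1 (g + m)) (fun ω => Φ (Fin.cons o ω)) (fun _ => hΦ _)
      · rw [EE_const]
    refine (EE_mono _ h1).trans ((dom_one g hs y h hh0).trans_eq ?_)
    have e6 : ∀ (x : Bk Λ m) (ω : Fin N → Bk Λ m),
        (fun k : Fin (N + 1) => toOb ((Fin.consEquiv (fun _ : Fin (N + 1) => Bk Λ m)) (x, ω) k))
        = Fin.cons (toOb x) (fun k => toOb (ω k)) := by
      intro x ω
      funext k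
      refine Fin.cases ?_ (fun k => ?_) k
      · simp [Fin.consEquiv]
      · simp [Fin.consEquiv]
    have e7 : ∀ (x : Bk Λ m) (ω : Fin N → Bk Λ m),
        (∏ k, wt ((Fin.consEquiv (fun _ : Fin (N + 1) => Bk Λ m)) (x, ω) k)) =
        wt x * ∏ k, wt (ω k) := by
      intro x ω
      rw [Fin.prod_univ_succ]
      simp [Fin.consEquiv]
    have e8 : ∑ ω : Fin (N + 1) → Bk Λ m, (∏ k, wt (ω k)) * Φ (fun k => toOb (ω k)) =
        ∑ x : Bk Λ m, ∑ ω : Fin N → Bk Λ m, wt x * ((∏ k, wt (ω k)) *
          Φ (Fin.cons (toOb x) (fun k => toOb (ω k)))) := by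
      rw [← (Fin.consEquiv (fun _ : Fin (N + 1) => Bk Λ m)).sum_comp, Fintype.sum_prod_type]
      refine Finset.sum_congr rfl fun x _ => Finset.sum_congr rfl fun ω _ => ?_
      rw [e6, e7, mul_assoc]
    rw [e8, pow_succ', mul_assoc]
    congr 1
    rw [Finset.mul_sum]
    refine Finset.sum_congr rfl fun x _ => ?_
    rw [hh]
    simp only
    rw [mul_left_comm, Finset.mul_sum]

end Pool.Agent.H111R3
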