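import Pool.Agent.H111R3.Mom3

set_option autoImplicit false
set_option linter.unusedSectionVars false
open Finset

namespace Pool.Agent.H111R3

open Pool.Agent.Helper964.Chg (glue Loc glue_lt glue_add)

variable {d : ℕ} [NeZero d]

lemma EE_loc' {n m : ℕ} {f : (ℕ → St d) → ℝ} (hf : Loc n f) (h : n ≤ m) : EE m f = EE n f := by
  obtain ⟨k, rfl⟩ := Nat.exists_eq_add_of_le h
  exact EE_loc hf k

/-- Shift of a sequence. -/
def shift (n : ℕ) (e : ℕ → St d) : ℕ → St d := fun i => e (n + i)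

lemma shift_glue (n : ℕ) (e e' : ℕ → St d) : shift n (glue n e e') = e' := by
  funext i; simp [shift, glue_add]

lemma pos_shift (n k : ℕ) (e : ℕ → St d) : pos (shift n e) k = pos e (n + k) - pos e n := by
  induction k with
  | zero => simp
  | succ k ih =>
    rw [pos_succ, ih, ← add_assoc, pos_succ]
    unfold shift
    abel

/-- interaction between two time intervals -/
noncomputable def Xc (r : (Fin d → ℤ) → ℝ) (s1 M s2 M' : ℕ) (e : ℕ → St d) : ℝ :=
  ∑ i ∈ range M, ∑ j ∈ range M', r (pos e (s2 + j) - pos e (s1 + i))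

lemma Xr_loc_left (r : (Fin d → ℤ) → ℝ) (M M' : ℕ) (z : Fin d → ℤ) (e' : ℕ → St d) :
    Loc (M - 1) (fun e => Xr r M M' z e e') := by
  intro e1 e2 h
  unfold Xr
  refine Finset.sum_congr rfl fun i hi => Finset.sum_congr rfl fun j _ => ?_
  rw [Finset.mem_range] at hi
  rw [pos_congr h (show i ≤ M - 1 by omega)]

lemma Xr_loc_right (r : (Fin d → ℤ) → ℝ) (M M' : ℕ) (z : Fin d → ℤ) (e : ℕ → St d) :
    Loc (M' - 1) (fun e' => Xr r M M' z e e') := by
  intro e1 e2 h
  unfold Xr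
  refine Finset.sum_congr rfl fun i _ => Finset.sum_congr rfl fun j hj => ?_
  rw [Finset.mem_range] at hj
  rw [pos_congr h (show j ≤ M' - 1 by omega)]

lemma EE2_loc (r : (Fin d → ℤ) → ℝ) (M M' : ℕ) (z : Fin d → ℤ) (H : ℝ → ℝ) (a b L : ℕ)
    (ha : M - 1 ≤ a) (hb : M' - 1 ≤ b) (hL : M ≤ L) (hL' : M' ≤ L) :
    EE a (fun e => EE b (fun e' => H (Xr r M M' z e e'))) =
      EE L (fun e => EE L (fun e' => H (Xr r M M' z e e'))) := by
  have h1 : ∀ (n : ℕ) (hn : M' - 1 ≤ n) (e : ℕ → St d), EE n (fun e' => H (Xr r M M' z e e')) =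
      EE (M' - 1) (fun e' => H (Xr r M M' z e e')) := fun n hn e =>
    EE_loc' (loc_comp (Xr_loc_right r M M' z e) H) hn
  simp only [h1 b hb, h1 L (by omega)]
  have h2 : Loc (M - 1) (fun e => EE (M' - 1) (fun e' => H (Xr r M M' z e e'))) := by
    intro e1 e2 h
    refine EE_congr _ fun e' => ?_
    exact congrArg H (Xr_loc_left r M M' z e' e1 e2 h)
  rw [EE_loc' h2 ha, EE_loc' h2 (show M - 1 ≤ L by omega)]

/-- Interactions of disjoint time intervals. -/
lemma two_int (r : (Fin d → ℤ) → ℝ) (s1 M s2 M' T L : ℕ) (H : ℝ → ℝ) (B : ℝ) (hM : 1 ≤ M)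
    (h12 : s1 + M ≤ s2) (hT : s2 + M' ≤ T) (hL : M ≤ L) (hL' : M' ≤ L)
    (hB : ∀ z, EE L (fun e => EE L (fun e' => H (Xr r M M' z e e'))) ≤ B) :
    EE T (fun e => H (Xc r s1 M s2 M' e)) ≤ B := by
  have hloc : Loc (s2 + M') (fun e => H (Xc r s1 M s2 M' e)) := by
    intro e1 e2 h
    refine congrArg H ?_
    unfold Xc
    refine Finset.sum_congr rfl fun i hi => Finset.sum_congr rfl fun j hj => ?_
    rw [Finset.mem_range] at hi hj
    rw [pos_congr h (show s2 + j ≤ s2 + M' by omega), pos_congr h (show s1 + i ≤ s2 + M' by omega)]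
  rw [EE_loc' hloc hT]
  obtain ⟨g, hg⟩ := Nat.exists_eq_add_of_le (show s1 + (M - 1) ≤ s2 by omega)
  have e1 : s2 + M' = s1 + ((M - 1) + (g + M')) := by omega
  rw [e1, EE_append]
  refine (EE_mono s1 (g := fun _ => B) fun e0 => ?_).trans_eq (EE_const _ _)
  rw [EE_append, EE_rv]
  have h2 : ∀ e1 e2 e3 : ℕ → St d, Xc r s1 M s2 M'
      (glue s1 e0 (glue (M - 1) (rv (M - 1) e1) (glue g e2 e3))) = Xr r M M' (pos e2 g) e1 e3 := by
    intro e1 e2 e3
    unfold Xc Xr
    rw [← Finset.sum_range_reflect (fun i => ∑ j ∈ range M', r (pos e2 g + pos e3 j - pos e1 i))]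
    refine Finset.sum_congr rfl fun i hi => Finset.sum_congr rfl fun j _ => ?_
    rw [Finset.mem_range] at hi
    rw [pos_glue_add, show s2 + j = s1 + ((M - 1) + (g + j)) by omega, pos_glue_add, pos_glue_add,
      pos_glue_add, pos_glue_le _ _ (show i ≤ M - 1 by omega), pos_rv le_rfl,
      pos_rv (show i ≤ M - 1 by omega)]
    congr 1
    simp only [Nat.sub_self, pos_zero]
    abel
  have h3 : ∀ e1 : ℕ → St d, EE (g + M') (fun e' => H (Xc r s1 M s2 M'
      (glue s1 e0 (glue (M - 1) (rv (M - 1) e1) e')))) =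
      EE g (fun e2 => EE M' (fun e3 => H (Xr r M M' (pos e2 g) e1 e3))) := by
    intro e1
    rw [EE_append]
    refine EE_congr g fun e2 => EE_congr M' fun e3 => ?_
    rw [h2]
  simp only [h3]
  rw [EE_comm]
  refine (EE_mono g (g := fun _ => B) fun e2 => ?_).trans_eq (EE_const _ _)
  rw [EE2_loc r M M' (pos e2 g) H (M - 1) M' L le_rfl (by omega) hL hL']
  exact hB _

lemma EE_pow_le (n k : ℕ) (f : (ℕ → St d) → ℝ) (hf : ∀ e, 0 ≤ f e) :
    (EE n f) ^ k ≤ EE n (fun e => f e ^ k) := by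
  rw [EE_eq_sum, EE_eq_sum]
  refine Real.pow_arith_mean_le_arith_mean_pow _ _ _ (fun _ _ => by positivity) ?_
    (fun e _ => hf _) k
  have := EE_const (d := d) n 1
  rw [EE_eq_sum] at this
  simpa using this

lemma C3q (hd : 2 ≤ d) (κ k M M' L : ℕ) (hL : M ≤ L) (hL' : M' ≤ L) (z : Fin d → ℤ) :
    EE L (fun e => EE L (fun e' => Xr (d := d) (pk (2 * κ)) M M' z e e' ^ k)) ≤
      (k.factorial : ℝ) * (K3 d * Real.sqrt (M * M')) ^ k := by
  have h1 : ∀ e e' : ℕ → St d, Xr (d := d) (pk (2 * κ)) M M' z e e' =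
      EE (2 * κ) (fun w => Xr dl M M' (z + pos w (2 * κ)) e e') := by
    intro e e'
    unfold Xr
    simp only [EE_sum]
    refine Finset.sum_congr rfl fun i _ => Finset.sum_congr rfl fun j _ => ?_
    rw [← EE_dl]
    refine EE_congr _ fun w => ?_
    congr 1; abel
  simp only [h1]
  have h2 : EE L (fun e => EE L (fun e' => (EE (d := d) (2 * κ)
      (fun w => Xr dl M M' (z + pos w (2 * κ)) e e')) ^ k)) ≤
      EE L (fun e => EE L (fun e' => EE (d := d) (2 * κ)
      (fun w => Xr dl M M' (z + pos w (2 * κ)) e e' ^ k))) :=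
    EE_mono L fun e => EE_mono L fun e' => EE_pow_le _ _ _ fun w => Xr_dl_nonneg _ _ _ _ _
  refine h2.trans ?_
  have h3 : ∀ e : ℕ → St d, EE L (fun e' => EE (d := d) (2 * κ)
      (fun w => Xr dl M M' (z + pos w (2 * κ)) e e' ^ k)) = EE (d := d) (2 * κ)
      (fun w => EE L (fun e' => Xr dl M M' (z + pos w (2 * κ)) e e' ^ k)) := fun e =>
    EE_comm _ _ _
  simp only [h3]
  rw [EE_comm]
  exact (EE_mono _ fun w => C3 hd k M M' L hL hL' _).trans_eq (EE_const _ _)

lemma Xc_mom (hd : 2 ≤ d) (κ k s1 M s2 M' T : ℕ) (h12 : s1 + M ≤ s2) (hT : s2 + M' ≤ T) :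
    EE T (fun e => Xc (d := d) (pk (2 * κ)) s1 M s2 M' e ^ k) ≤
      (k.factorial : ℝ) * (K3 d * Real.sqrt (M * M')) ^ k := by
  rcases Nat.eq_zero_or_pos M with rfl | hM
  · have : ∀ e : ℕ → St d, Xc (d := d) (pk (2 * κ)) s1 0 s2 M' e = 0 := by intro e; simp [Xc]
    simp only [this]
    rw [EE_const]
    rcases Nat.eq_zero_or_pos k with rfl | hk
    · simp
    · simp [hk.ne']
  · exact two_int (pk (2 * κ)) s1 M s2 M' T (max M M') (fun x => x ^ k) _ hM h12 hT
      (le_max_left _ _) (le_max_right _ _)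
      (fun z => C3q hd κ k M M' _ (le_max_left _ _) (le_max_right _ _) z)

lemma Xc_mom_r (hd : 2 ≤ d) (κ h s1 M s2 T : ℕ) (h12 : s1 + M ≤ s2) (hT : s2 + M ≤ T) :
    EE T (fun e => Xc (d := d) (rr κ) s1 M s2 M e ^ (2 * h)) ≤
      ((2 * h).factorial : ℝ) ^ 2 * (144 * C1 d ^ 2 * (M * Real.sqrt (κ * M))) ^ h := by
  rcases Nat.eq_zero_or_pos M with rfl | hM
  · have : ∀ e : ℕ → St d, Xc (d := d) (rr κ) s1 0 s2 0 e = 0 := by intro e; simp [Xc]
    simp only [this]
    rw [EE_const]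
    rcases Nat.eq_zero_or_pos h with rfl | hk
    · simp
    · have : (2 * h) ≠ 0 := by omega
      simp [this, hk.ne']
  · exact two_int (rr κ) s1 M s2 M T M (fun x => x ^ (2 * h)) _ hM h12 hT le_rfl le_rfl
      (fun z => C4 hd κ h M M le_rfl z)

/-- Exponential series under the expectation. -/
lemma EE_exp_tendsto (n : ℕ) (A : (ℕ → St d) → ℝ) :
    Filter.Tendsto (fun N => ∑ k ∈ range N, EE n (fun e => A e ^ k) / (k.factorial : ℝ))
      Filter.atTop (nhds (EE n (fun e => Real.exp (A e)))) := by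
  have h1 : ∀ e : Fin n → St d, HasSum (fun k : ℕ => (1 / (2 * (d : ℝ))) ^ n *
      (A (ext e) ^ k / (k.factorial : ℝ))) ((1 / (2 * (d : ℝ))) ^ n * Real.exp (A (ext e))) := by
    intro e
    refine HasSum.mul_left _ ?_
    have := NormedSpace.expSeries_div_hasSum_exp (𝔸 := ℝ) (A (ext e))
    rwa [← Real.exp_eq_exp_ℝ] at this
  have h2 := hasSum_sum (s := (Finset.univ : Finset (Fin n → St d))) (fun e _ => h1 e)
  have h3 := h2.tendsto_sum_nat
  rw [EE_eq_sum]
  refine h3.congr fun N => ?_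
  refine Finset.sum_congr rfl fun k _ => ?_
  rw [EE_eq_sum, Finset.sum_div]
  exact Finset.sum_congr rfl fun e _ => by ring

lemma exp_mom (n : ℕ) (A : (ℕ → St d) → ℝ) {B : ℝ} (hB0 : 0 ≤ B) (hB : B ≤ 1 / 2)
    (hm : ∀ k : ℕ, EE n (fun e => A e ^ k) ≤ (k.factorial : ℝ) * B ^ k) :
    EE n (fun e => Real.exp (A e)) ≤ 1 + EE n A + 2 * B ^ 2 := by
  have h := (Filter.tendsto_add_atTop_iff_nat 2).2 (EE_exp_tendsto n A)
  refine le_of_tendsto' h fun N => ?_
  rw [Finset.sum_range_succ', Finset.sum_range_succ']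
  have h1 : ∑ k ∈ range N, EE n (fun e => A e ^ (k + 1 + 1)) / (((k + 1 + 1).factorial : ℕ) : ℝ) ≤
      ∑ k ∈ range N, B ^ 2 * B ^ k := by
    refine Finset.sum_le_sum fun k _ => ?_
    rw [div_le_iff₀ (by positivity)]
    refine (hm _).trans_eq ?_
    ring
  have h2 : ∑ k ∈ range N, B ^ 2 * B ^ k ≤ 2 * B ^ 2 := by
    rw [← Finset.mul_sum]
    have h3 := geom_bound hB0 (by linarith) N
    have h4 : 1 / (1 - B) ≤ 2 := by
      rw [div_le_iff₀ (by linarith)]; linarith
    nlinarith [sq_nonneg B]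
  have h5 : EE n (fun e => A e ^ (0 + 1)) / (((0 + 1).factorial : ℕ) : ℝ) = EE n A := by simp
  have h6 : EE n (fun e : ℕ → St d => A e ^ 0) / (((0).factorial : ℕ) : ℝ) = 1 := by
    simp only [pow_zero, Nat.factorial_zero, Nat.cast_one, div_one]
    exact EE_const _ _
  rw [h5, h6]
  linarith

lemma exp_mom_centered (n : ℕ) (A : (ℕ → St d) → ℝ) {B : ℝ} (hB0 : 0 ≤ B) (hB : B ≤ 1 / 2)
    (hm : ∀ k : ℕ, EE n (fun e => A e ^ k) ≤ (k.factorial : ℝ) * B ^ k) :
    EE n (fun e => Real.exp (A e - EE n A)) ≤ Real.exp (2 * B ^ 2) := by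
  have h := exp_mom n A hB0 hB hm
  have h1 : ∀ e : ℕ → St d, Real.exp (A e - EE n A) = Real.exp (A e) * Real.exp (- EE n A) := by
    intro e; rw [← Real.exp_add]; congr 1
  simp only [h1]
  rw [EE_mul_right]
  have h2 : EE n (fun e => Real.exp (A e)) ≤ Real.exp (EE n A + 2 * B ^ 2) := by
    refine h.trans ?_
    have := Real.add_one_le_exp (EE n A + 2 * B ^ 2)
    linarith
  calc EE n (fun e => Real.exp (A e)) * Real.exp (- EE n A)
      ≤ Real.exp (EE n A + 2 * B ^ 2) * Real.exp (- EE n A) := by gcongr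
    _ = Real.exp (2 * B ^ 2) := by rw [← Real.exp_add]; congr 1; ring

lemma exp_mom_two (n : ℕ) (A : (ℕ → St d) → ℝ) {B : ℝ} (hB0 : 0 ≤ B) (hB : B ≤ 1 / 2)
    (hm : ∀ k : ℕ, EE n (fun e => A e ^ k) ≤ (k.factorial : ℝ) * B ^ k) :
    EE n (fun e => Real.exp (A e)) ≤ 2 := by
  have h := exp_mom n A hB0 hB hm
  have h1 := hm 1
  simp only [pow_one, Nat.factorial_one, Nat.cast_one, one_mul] at h1
  have h2 : EE n A ≤ B := h1
  nlinarith

/-- Hölder through Young. -/
lemma holder_exp (n : ℕ) (U V : (ℕ → St d) → ℝ) {p q α β : ℝ} (hp : 0 < p) (hq : 0 < q)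
    (hpq : 1 / p + 1 / q = 1)
    (hU : EE n (fun e => Real.exp (p * U e)) ≤ Real.exp (p * α))
    (hV : EE n (fun e => Real.exp (q * V e)) ≤ Real.exp (q * β)) :
    EE n (fun e => Real.exp (U e + V e)) ≤ Real.exp (α + β) := by
  have h1 : ∀ e : ℕ → St d, Real.exp (U e + V e) ≤ Real.exp (α + β) *
      ((1 / p) * (Real.exp (p * U e) * Real.exp (-(p * α))) +
        (1 / q) * (Real.exp (q * V e) * Real.exp (-(q * β)))) := by
    intro e
    have hc := convexOn_exp.2 (Set.mem_univ (p * (U e - α))) (Set.mem_univ (q * (V e - β)))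
      (show 0 ≤ 1 / p by positivity) (show 0 ≤ 1 / q by positivity) hpq
    simp only [smul_eq_mul] at hc
    have e1 : 1 / p * (p * (U e - α)) + 1 / q * (q * (V e - β)) = (U e + V e) - (α + β) := by
      field_simp; ring
    rw [e1] at hc
    rw [← Real.exp_add, ← Real.exp_add]
    have e2 : p * U e + -(p * α) = p * (U e - α) := by ring
    have e3 : q * V e + -(q * β) = q * (V e - β) := by ring
    rw [e2, e3]
    calc Real.exp (U e + V e) = Real.exp (α + β) * Real.exp ((U e + V e) - (α + β)) := by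
          rw [← Real.exp_add]; congr 1; ring
      _ ≤ _ := mul_le_mul_of_nonneg_left hc (Real.exp_pos _).le
  refine (EE_mono n h1).trans ?_
  rw [EE_mul_left, EE_add, EE_mul_left, EE_mul_left, EE_mul_right, EE_mul_right]
  have h2 : EE n (fun e => Real.exp (p * U e)) * Real.exp (-(p * α)) ≤ 1 := by
    calc _ ≤ Real.exp (p * α) * Real.exp (-(p * α)) := by gcongr
      _ = 1 := by rw [← Real.exp_add]; simp
  have h3 : EE n (fun e => Real.exp (q * V e)) * Real.exp (-(q * β)) ≤ 1 := by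
    calc _ ≤ Real.exp (q * β) * Real.exp (-(q * β)) := by gcongr
      _ = 1 := by rw [← Real.exp_add]; simp
  calc Real.exp (α + β) * (1 / p * (EE n (fun e => Real.exp (p * U e)) * Real.exp (-(p * α))) +
        1 / q * (EE n (fun e => Real.exp (q * V e)) * Real.exp (-(q * β))))
      ≤ Real.exp (α + β) * (1 / p * 1 + 1 / q * 1) := by gcongr
    _ = Real.exp (α + β) := by rw [mul_one, mul_one, hpq, mul_one]

end Pool.Agent.H111R3
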