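import Pool.Agent.H111R3.QB2

set_option autoImplicit false
set_option linter.unusedSectionVars false
open Finset Filter

namespace Pool.Agent.H111R3

open Pool.Agent.Helper964.Chg (glue Loc glue_lt glue_add)

variable {d : ℕ} [NeZero d]

lemma pk_two_zero' : pk (d := d) (2 * 0) = dl := funext pk_two_zero

lemma Xc_add_left (r : (Fin d → ℤ) → ℝ) (s1 a b s2 M' : ℕ) (e : ℕ → St d) :
    Xc r s1 (a + b) s2 M' e = Xc r s1 a s2 M' e + Xc r (s1 + a) b s2 M' e := by
  unfold Xc
  rw [sum_range_add']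
  congr 1
  simp only [add_assoc]

lemma Xc_add_right (r : (Fin d → ℤ) → ℝ) (s1 M s2 a b : ℕ) (e : ℕ → St d) :
    Xc r s1 M s2 (a + b) e = Xc r s1 M s2 a e + Xc r s1 M (s2 + a) b e := by
  unfold Xc
  rw [← Finset.sum_add_distrib]
  refine Finset.sum_congr rfl fun i _ => ?_
  rw [sum_range_add']
  congr 1
  simp only [add_assoc]

lemma Xc_mul_left (r : (Fin d → ℤ) → ℝ) (L N s2 M' : ℕ) (e : ℕ → St d) :
    Xc r 0 (N * L) s2 M' e = ∑ k ∈ range N, Xc r (k * L) L s2 M' e := by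
  induction N with
  | zero => simp [Xc]
  | succ N ih =>
    rw [show (N + 1) * L = N * L + L by ring, Xc_add_left, ih, Finset.sum_range_succ, zero_add]

/-- Diagonal part. -/
noncomputable def Dg (N L : ℕ) (e : ℕ → St d) : ℝ := ∑ k ∈ range N, Jq 0 L (shift (k * L) e)

/-- Gap part. -/
noncomputable def Gp (N g m : ℕ) (e : ℕ → St d) : ℝ :=
  ∑ l ∈ range N, ∑ k ∈ range l, (Xc dl (k * (g + m)) g (l * (g + m)) (g + m) e +
    Xc dl (k * (g + m) + g) m (l * (g + m)) g e)

lemma J_dec (N L : ℕ) (e : ℕ → St d) :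
    Jq 0 (N * L) e = Dg N L e + ∑ l ∈ range N, ∑ k ∈ range l, Xc dl (k * L) L (l * L) L e := by
  induction N with
  | zero => simp [Jq, Dg]
  | succ N ih =>
    unfold Dg at ih ⊢
    rw [show (N + 1) * L = N * L + L by ring, Jq_split, ih, pk_two_zero', Xc_mul_left,
      Finset.sum_range_succ, Finset.sum_range_succ]
    ring

lemma J_dec2 (N g m : ℕ) (e : ℕ → St d) :
    Jq 0 (N * (g + m)) e = Dg N (g + m) e + Gp N g m e + Qk dl N g m e := by
  rw [J_dec, add_assoc]
  congr 1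
  unfold Gp Qk
  rw [← Finset.sum_add_distrib]
  refine Finset.sum_congr rfl fun l _ => ?_
  rw [← Finset.sum_add_distrib]
  refine Finset.sum_congr rfl fun k _ => ?_
  rw [Xc_add_left, Xc_add_right dl (k * (g + m) + g) m (l * (g + m)) g m]
  ring

lemma shift_shift (a b : ℕ) (e : ℕ → St d) : shift a (shift b e) = shift (b + a) e := by
  funext i; simp [shift, add_assoc]

lemma shift_loc {n : ℕ} {F : (ℕ → St d) → ℝ} (hF : Loc n F) (a : ℕ) :
    Loc (a + n) (fun e => F (shift a e)) := by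
  intro e1 e2 h
  refine hF _ _ fun i hi => ?_
  exact h _ (by omega)

lemma Dg_loc (N L : ℕ) : Loc (N * L) (Dg (d := d) N L) := by
  intro e1 e2 h
  unfold Dg
  refine Finset.sum_congr rfl fun k hk => ?_
  rw [Finset.mem_range] at hk
  have h1 : k * L + L ≤ N * L := by
    calc k * L + L = (k + 1) * L := by ring
      _ ≤ N * L := Nat.mul_le_mul_right _ hk
  refine Jq_loc 0 L _ _ fun i hi => ?_
  exact h _ (by omega)

lemma Dg_exp (N L : ℕ) (l c : ℝ) :
    EE (N * L) (fun e => Real.exp (l * (Dg (d := d) N L e - N * c))) =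
      (EE L (fun e => Real.exp (l * (Jq (d := d) 0 L e - c)))) ^ N := by
  induction N with
  | zero => simp [EE_zero, Dg]
  | succ N ih =>
    have h1 : ∀ e : ℕ → St d, Real.exp (l * (Dg (d := d) (N + 1) L e - ((N + 1 : ℕ) : ℝ) * c)) =
        Real.exp (l * (Dg N L e - N * c)) * Real.exp (l * (Jq 0 L (shift (N * L) e) - c)) := by
      intro e
      rw [← Real.exp_add]
      congr 1
      unfold Dg
      rw [Finset.sum_range_succ]
      push_cast; ring
    simp only [h1]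
    rw [show (N + 1) * L = N * L + L by ring,
      EE_indep (N * L) L (fun e => Real.exp (l * (Dg N L e - N * c)))
        (fun e => Real.exp (l * (Jq 0 L e - c)))
        (loc_comp (Dg_loc N L) (fun x => Real.exp (l * (x - N * c)))), ih, pow_succ]

lemma Dg_mean (N L : ℕ) : EE (N * L) (Dg (d := d) N L) = N * EE L (Jq (d := d) 0 L) := by
  induction N with
  | zero =>
    rw [zero_mul, EE_zero]; simp [Dg]
  | succ N ih =>
    have h1 : Dg (d := d) (N + 1) L = fun e => Dg N L e + Jq 0 L (shift (N * L) e) := by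
      funext e; unfold Dg; rw [Finset.sum_range_succ]
    rw [h1, show (N + 1) * L = N * L + L by ring, EE_add, EE_shift, EE_loc (Dg_loc N L), ih]
    push_cast; ring

lemma Gp_nonneg (N g m : ℕ) (e : ℕ → St d) : 0 ≤ Gp N g m e :=
  Finset.sum_nonneg fun _ _ => Finset.sum_nonneg fun _ _ =>
    add_nonneg (Xc_dl_nonneg _ _ _ _ _) (Xc_dl_nonneg _ _ _ _ _)

lemma mean_ge (N g m : ℕ) : N * EE (g + m) (Jq (d := d) 0 (g + m)) ≤
    EE (N * (g + m)) (Jq (d := d) 0 (N * (g + m))) := by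
  rw [← Dg_mean]
  refine EE_mono _ fun e => ?_
  rw [J_dec2]
  have := Gp_nonneg (d := d) N g m e
  have := Qk_dl_nonneg (d := d) N g m e
  linarith

lemma Xc_exp_two (hd : 2 ≤ d) (s1 M s2 M' T : ℕ) (h12 : s1 + M ≤ s2) (hT : s2 + M' ≤ T) {c : ℝ}
    (hc : 0 ≤ c) (hB : c * (K3 d * Real.sqrt (M * M')) ≤ 1 / 2) :
    EE T (fun e => Real.exp (c * Xc (d := d) dl s1 M s2 M' e)) ≤ 2 := by
  have hK := K3_ge (d := d)
  refine exp_mom_two T _ (B := c * (K3 d * Real.sqrt (M * M'))) (by positivity) hB fun k => ?_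
  have h := Xc_mom (d := d) hd 0 k s1 M s2 M' T h12 hT
  rw [pk_two_zero'] at h
  have e1 : ∀ e : ℕ → St d, (c * Xc dl s1 M s2 M' e) ^ k = c ^ k * Xc dl s1 M s2 M' e ^ k :=
    fun e => mul_pow _ _ _
  simp only [e1]
  rw [EE_mul_left, mul_pow c]
  calc c ^ k * EE T (fun e => Xc dl s1 M s2 M' e ^ k)
      ≤ c ^ k * ((k.factorial : ℝ) * (K3 d * Real.sqrt (M * M')) ^ k) := by gcongr
    _ = _ := by ring

lemma Gp_exp (hd : 2 ≤ d) (N g m : ℕ) (hN : 1 ≤ N) {l : ℝ} (hl : 0 ≤ l)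
    (hB : 2 * l * N ^ 2 * (K3 d * Real.sqrt (g * (g + m))) ≤ 1 / 2) :
    EE (N * (g + m)) (fun e => Real.exp (l * Gp (d := d) N g m e)) ≤ 2 := by
  classical
  have hK := K3_ge (d := d)
  have hNr : (0:ℝ) < N := by exact_mod_cast hN
  set S : Finset (ℕ × ℕ) := range N ×ˢ range N with hS
  have hcardS : (S.card : ℝ) = N ^ 2 := by
    rw [hS, Finset.card_product, Finset.card_range]; push_cast; ring
  set X1 : ℕ × ℕ → (ℕ → St d) → ℝ := fun p e =>
    Xc dl (p.2 * (g + m)) g (p.1 * (g + m)) (g + m) e with hX1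
  set X2 : ℕ × ℕ → (ℕ → St d) → ℝ := fun p e =>
    Xc dl (p.2 * (g + m) + g) m (p.1 * (g + m)) g e with hX2
  have hGp : ∀ e : ℕ → St d, Gp N g m e = ∑ p ∈ S, if p.2 < p.1 then X1 p e + X2 p e else 0 := by
    intro e
    rw [hS, Finset.sum_product]
    unfold Gp
    refine Finset.sum_congr rfl fun a ha => ?_
    rw [Finset.mem_range] at ha
    rw [← Finset.sum_filter]
    have : (range N).filter (fun x => x < a) = range a := by
      ext x; simp only [Finset.mem_filter, Finset.mem_range]; omega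
    rw [this]
  have h1 : ∀ e : ℕ → St d, Real.exp (l * Gp N g m e) ≤
      ∑ p ∈ S, (1 / (N:ℝ) ^ 2) * (if p.2 < p.1 then (Real.exp (2 * l * N ^ 2 * X1 p e) +
        Real.exp (2 * l * N ^ 2 * X2 p e)) / 2 else 1) := by
    intro e
    have hJ := convexOn_exp.map_sum_le (t := S) (w := fun _ => (1 / (N:ℝ) ^ 2))
      (p := fun p => l * N ^ 2 * (if p.2 < p.1 then X1 p e + X2 p e else 0))
      (fun _ _ => by positivity) (by
        rw [Finset.sum_const, nsmul_eq_mul, hcardS]; field_simp) (fun _ _ => Set.mem_univ _)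
    simp only [smul_eq_mul] at hJ
    have e1 : ∑ p ∈ S, 1 / (N:ℝ) ^ 2 * (l * N ^ 2 * (if p.2 < p.1 then X1 p e + X2 p e else 0)) =
        l * Gp N g m e := by
      rw [hGp, Finset.mul_sum]
      refine Finset.sum_congr rfl fun p _ => ?_
      field_simp
    rw [e1] at hJ
    refine hJ.trans (Finset.sum_le_sum fun p _ => mul_le_mul_of_nonneg_left ?_ (by positivity))
    split_ifs with hp
    · have hc := convexOn_exp.2 (Set.mem_univ (2 * l * N ^ 2 * X1 p e))
        (Set.mem_univ (2 * l * N ^ 2 * X2 p e)) (show (0:ℝ) ≤ 1 / 2 by norm_num)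
        (show (0:ℝ) ≤ 1 / 2 by norm_num) (by norm_num)
      simp only [smul_eq_mul] at hc
      have e2 : 1 / 2 * (2 * l * N ^ 2 * X1 p e) + 1 / 2 * (2 * l * N ^ 2 * X2 p e) =
        l * N ^ 2 * (X1 p e + X2 p e) := by ring
      rw [e2] at hc
      linarith
    · simp
  refine (EE_mono _ h1).trans ?_
  rw [EE_sum]
  have h2 : ∀ p ∈ S, EE (N * (g + m)) (fun e => (1 / (N:ℝ) ^ 2) * (if p.2 < p.1 then
      (Real.exp (2 * l * N ^ 2 * X1 p e) + Real.exp (2 * l * N ^ 2 * X2 p e)) / 2 else 1)) ≤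
      (1 / (N:ℝ) ^ 2) * 2 := by
    intro p hp
    rw [hS, Finset.mem_product, Finset.mem_range, Finset.mem_range] at hp
    rw [EE_mul_left]
    refine mul_le_mul_of_nonneg_left ?_ (by positivity)
    split_ifs with hlt
    · have h3 : (p.2 + 1) * (g + m) ≤ p.1 * (g + m) := Nat.mul_le_mul_right _ hlt
      have h4 : (p.1 + 1) * (g + m) ≤ N * (g + m) := Nat.mul_le_mul_right _ hp.1
      have e3 : (p.2 + 1) * (g + m) = p.2 * (g + m) + g + m := by ring
      have e4 : (p.1 + 1) * (g + m) = p.1 * (g + m) + g + m := by ring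
      have h5 := Xc_exp_two (d := d) hd (p.2 * (g + m)) g (p.1 * (g + m)) (g + m) (N * (g + m))
        (by omega) (by omega) (c := 2 * l * N ^ 2) (by positivity) (by push_cast; exact hB)
      have h6 := Xc_exp_two (d := d) hd (p.2 * (g + m) + g) m (p.1 * (g + m)) g (N * (g + m))
        (by omega) (by omega) (c := 2 * l * N ^ 2) (by positivity) (by
          refine le_trans ?_ hB
          have h7 : Real.sqrt ((m:ℝ) * g) ≤ Real.sqrt (g * (g + m)) := by
            apply Real.sqrt_le_sqrt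
            nlinarith [Nat.cast_nonneg (α := ℝ) g, Nat.cast_nonneg (α := ℝ) m]
          gcongr)
      have e5 : ∀ e : ℕ → St d, (Real.exp (2 * l * N ^ 2 * X1 p e) +
          Real.exp (2 * l * N ^ 2 * X2 p e)) / 2 = (1 / 2) * Real.exp (2 * l * N ^ 2 * X1 p e) +
          (1 / 2) * Real.exp (2 * l * N ^ 2 * X2 p e) := fun e => by ring
      simp only [e5]
      rw [EE_add, EE_mul_left, EE_mul_left]
      linarith
    · rw [EE_const]; norm_num
  refine (Finset.sum_le_sum h2).trans_eq ?_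
  rw [Finset.sum_const, nsmul_eq_mul, hcardS]
  field_simp

lemma Jq_loc' (κ n : ℕ) : Loc n (Jq (d := d) κ (n + 1)) := by
  intro e1 e2 h
  unfold Jq
  refine Finset.sum_congr rfl fun j hj => Finset.sum_congr rfl fun i hi => ?_
  rw [Finset.mem_range] at hi hj
  rw [pos_congr h (show j ≤ n by omega), pos_congr h (show i ≤ n by omega)]

lemma Jq_mono (n m : ℕ) (h : n ≤ m) (e : ℕ → St d) : Jq 0 n e ≤ Jq 0 m e :=
  Finset.sum_le_sum_of_subset_of_nonneg (Finset.range_subset_range.2 h)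
    fun _ _ _ => Finset.sum_nonneg fun _ _ => pk_nonneg _ _

lemma Jq_incr (n k : ℕ) (e : ℕ → St d) : Jq 0 (n + k) e ≤ Jq 0 n e + k * (n + k) := by
  unfold Jq
  rw [sum_range_add']
  refine add_le_add le_rfl ?_
  have h1 : ∀ j ∈ range k, ∑ i ∈ range (n + j), pk (2 * 0) (pos e (n + j) - pos e i) ≤
      ((n + k : ℕ) : ℝ) := by
    intro j hj
    rw [Finset.mem_range] at hj
    refine (Finset.sum_le_sum fun i _ => pk_le_one _ _).trans ?_
    simp only [Finset.sum_const, Finset.card_range, nsmul_eq_mul, mul_one]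
    have : n + j ≤ n + k := by omega
    exact_mod_cast this
  refine (Finset.sum_le_sum h1).trans_eq ?_
  rw [Finset.sum_const, Finset.card_range, nsmul_eq_mul]
  push_cast; ring

/-- Boundedness of the centered exponential moment. -/
theorem main_upper (hd : 2 ≤ d) {b b' : ℝ} (hb : 0 < b) (hbb : b < b')
    (hH : ∀ c : ℝ, 1 < c → ∀ᶠ N : ℕ in atTop,
      EE N (fun e => Real.exp ((b' / N) * Jq (d := d) 0 (N + 1) e)) ≤ c ^ N) :
    ∃ M : ℝ, ∀ n : ℕ, 1 ≤ n → EE n (fun e => Real.exp ((b / n) * (Jq (d := d) 0 (n + 1) e -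
      EE n (Jq (d := d) 0 (n + 1))))) ≤ M := by
  have hK := K3_ge (d := d)
  set b1 : ℝ := (b + b') / 2 with hb1
  have hbb1 : b < b1 := by rw [hb1]; linarith
  have hb1b : b1 < b' := by rw [hb1]; linarith
  have hb1p : 0 < b1 := hb.trans hbb1
  set u : ℝ := (1 - b / b1) / 2 with hu
  have hr1 : b / b1 < 1 := by rw [div_lt_one hb1p]; exact hbb1
  have hr0 : 0 < b / b1 := by positivity
  have hu0 : 0 < u := by rw [hu]; linarith
  have h12u : 1 - 2 * u = b / b1 := by rw [hu]; ring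
  obtain ⟨J0, hJ0⟩ := Q_bound hd hb1p hb1b hH
  obtain ⟨J1, hJ1⟩ := pow_unbounded_of_one_lt (12 * b * K3 d / u) (by norm_num : (1:ℝ) < 2)
  set J : ℕ := max J0 J1 with hJ
  set N : ℕ := 2 ^ J with hNdef
  have hN1 : 1 ≤ N := Nat.one_le_two_pow
  have hNr : (N:ℝ) = 2 ^ J := by rw [hNdef]; push_cast; rfl
  have hNp : (0:ℝ) < N := by exact_mod_cast hN1
  have hNbig : 12 * b * K3 d ≤ u * N := by
    rw [div_lt_iff₀ hu0] at hJ1
    have : (2:ℝ) ^ J1 ≤ 2 ^ J := pow_le_pow_right₀ (by norm_num) (le_max_right _ _)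
    rw [hNr]
    nlinarith
  set ρ : ℝ := min (1 / 2) ((u / (8 * b * N * K3 d)) ^ 2) with hρ
  have hρ0 : 0 < ρ := lt_min (by norm_num) (by positivity)
  have hρ1 : ρ ≤ 1 / 2 := min_le_left _ _
  have hρ2 : Real.sqrt ρ ≤ u / (8 * b * N * K3 d) := by
    rw [Real.sqrt_le_left (by positivity)]; exact min_le_right _ _
  obtain ⟨MQ, n0, hMQ⟩ := hJ0 J (le_max_left _ _) ρ hρ0
  set n1 : ℕ := max n0 N with hn1
  set v : ℕ → ℝ := fun n => EE n (fun e => Real.exp ((b / n) * (Jq (d := d) 0 (n + 1) e -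
      EE n (Jq (d := d) 0 (n + 1))))) with hv
  have hv0 : ∀ n, 0 ≤ v n := fun n => EE_nonneg n fun e => (Real.exp_pos _).le
  set Mb : ℝ := Real.exp (2 * b * N) * (Real.exp N + 2 + |MQ|) with hMb
  refine ⟨∑ n ∈ range n1, v n + Mb, fun n hn => ?_⟩
  have hMb0 : 0 ≤ Mb := by positivity
  rcases Nat.lt_or_ge n n1 with hlt | hge
  · have h1 := Finset.single_le_sum (f := v) (fun n _ => hv0 n) (Finset.mem_range.2 hlt)
    have : v n = EE n (fun e => Real.exp ((b / n) * (Jq (d := d) 0 (n + 1) e -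
      EE n (Jq (d := d) 0 (n + 1))))) := rfl
    linarith
  have hsum0 : 0 ≤ ∑ n ∈ range n1, v n := Finset.sum_nonneg fun n _ => hv0 n
  have hnn0 : n0 ≤ n := le_trans (le_max_left _ _) hge
  have hnN : N ≤ n := le_trans (le_max_right _ _) hge
  have hnr : (0:ℝ) < n := by exact_mod_cast hn
  have hnNr : (N:ℝ) ≤ n := by exact_mod_cast hnN
  -- block sizes
  set L : ℕ := n / N + 1 with hL
  set g : ℕ := ⌊ρ * L⌋₊ with hg
  have hLr : (0:ℝ) < L := by rw [hL]; positivity
  have hgr : (g:ℝ) ≤ ρ * L := Nat.floor_le (by positivity)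
  have hgL : g < L := by
    have : (g:ℝ) < L := by nlinarith
    exact_mod_cast this
  obtain ⟨m, hm⟩ : ∃ m, L = g + m := ⟨L - g, by omega⟩
  have hm1 : 1 ≤ m := by omega
  have hNL1 : N * L ≤ n + N := by
    rw [hL, mul_add, mul_one]
    have := Nat.mul_div_le n N
    omega
  have hNL2 : n + 1 ≤ N * L := by
    rw [hL]
    have := Nat.lt_mul_div_succ n (show 0 < N by omega)
    omega
  have hLn : (n:ℝ) / N ≤ L := by
    rw [div_le_iff₀ hNp]
    have : n ≤ L * N := by rw [mul_comm]; omega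
    exact_mod_cast this
  have hLn2 : (L:ℝ) ≤ 2 * n / N := by
    rw [le_div_iff₀ hNp]
    have : L * N ≤ 2 * n := by rw [mul_comm]; omega
    exact_mod_cast this
  have hghalf : ρ * n / (2 * 2 ^ J) ≤ ((g / 2 : ℕ) : ℝ) + 1 := by
    have h1 : ρ * L < (g:ℝ) + 1 := Nat.lt_floor_add_one _
    have h2 : ((g:ℝ) + 1) / 2 ≤ ((g / 2 : ℕ) : ℝ) + 1 := by
      have : g + 1 ≤ 2 * (g / 2 + 1) := by omega
      have : ((g:ℝ) + 1) ≤ 2 * (((g / 2 : ℕ) : ℝ) + 1) := by exact_mod_cast this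
      linarith
    have h3 : ρ * n / (2 * 2 ^ J) = ρ * (n / N) / 2 := by rw [hNr]; field_simp
    rw [h3]
    have h4 : ρ * (n / N) ≤ ρ * L := by gcongr
    linarith
  have hQ := hMQ n g m hnn0 hm1 (by rw [← hm]; exact hNL1) hghalf
  set T0 : ℕ := N * (g + m) with hT0
  have hT0L : T0 = N * L := by rw [hT0, hm]
  have hT0n : T0 ≤ n + N := by rw [hT0L]; exact hNL1
  have hT0n2 : n + 1 ≤ T0 := by rw [hT0L]; exact hNL2
  -- comparison of means
  obtain ⟨k, hk⟩ := Nat.exists_eq_add_of_le hT0n2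
  have hkN : k ≤ N := by omega
  have hmean : EE T0 (Jq (d := d) 0 T0) ≤ EE n (Jq (d := d) 0 (n + 1)) + 2 * N * n := by
    have h1 : EE T0 (Jq (d := d) 0 (n + 1)) = EE n (Jq (d := d) 0 (n + 1)) :=
      EE_loc' (Jq_loc' 0 n) (by omega)
    rw [← h1]
    have h2 : EE T0 (Jq (d := d) 0 T0) ≤ EE T0 (fun e => Jq (d := d) 0 (n + 1) e + 2 * N * n) := by
      refine EE_mono T0 fun e => ?_
      rw [hk]
      refine (Jq_incr (n + 1) k e).trans ?_
      have h3 : (k:ℝ) ≤ N := by exact_mod_cast hkN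
      have h4 : ((n + 1 : ℕ) : ℝ) + k ≤ 2 * n := by
        have : n + 1 + k ≤ 2 * n := by omega
        exact_mod_cast this
      have h5 : (k:ℝ) * (((n + 1 : ℕ) : ℝ) + k) ≤ N * (2 * n) := by gcongr
      linarith
    rw [EE_add, EE_const] at h2
    exact h2
  have hmean2 := mean_ge (d := d) N g m
  -- pointwise bound
  set cL : ℝ := EE (g + m) (Jq (d := d) 0 (g + m)) with hcL
  have hpt : ∀ e : ℕ → St d, (b / n) * (Jq (d := d) 0 (n + 1) e - EE n (Jq (d := d) 0 (n + 1))) ≤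
      2 * b * N + (b / n) * ((Dg N (g + m) e - N * cL) + Gp N g m e + Qk dl N g m e) := by
    intro e
    have h1 : Jq (d := d) 0 (n + 1) e ≤ Jq 0 T0 e := Jq_mono _ _ hT0n2 e
    have h2 := J_dec2 (d := d) N g m e
    have h3 : Jq (d := d) 0 (n + 1) e - EE n (Jq (d := d) 0 (n + 1)) ≤ 2 * N * n +
        ((Dg N (g + m) e - N * cL) + Gp N g m e + Qk dl N g m e) := by
      rw [← hT0] at h2 hmean2
      linarith
    have h4 := mul_le_mul_of_nonneg_left h3 (show 0 ≤ b / n by positivity)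
    refine h4.trans_eq ?_
    field_simp
  have hloc : Loc n (fun e : ℕ → St d => Real.exp ((b / n) * (Jq (d := d) 0 (n + 1) e -
      EE n (Jq (d := d) 0 (n + 1))))) :=
    loc_comp (Jq_loc' 0 n) (fun x => Real.exp ((b / n) * (x - EE n (Jq (d := d) 0 (n + 1)))))
  rw [← EE_loc' hloc (show n ≤ T0 by omega)]
  set l : ℝ := b / n / u with hl
  have hl0 : 0 < l := by positivity
  have hconv : ∀ e : ℕ → St d, Real.exp ((b / n) * ((Dg N (g + m) e - N * cL) + Gp N g m e +
      Qk dl N g m e)) ≤ Real.exp (l * (Dg N (g + m) e - N * cL)) + Real.exp (l * Gp N g m e) +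
      Real.exp (b1 * ((1 / (n:ℝ)) * Qk (d := d) dl N g m e)) := by
    intro e
    have hJ := convexOn_exp.map_sum_le (t := (Finset.univ : Finset (Fin 3)))
      (w := ![u, u, 1 - 2 * u])
      (p := ![l * (Dg N (g + m) e - N * cL), l * Gp N g m e,
        b1 * ((1 / (n:ℝ)) * Qk (d := d) dl N g m e)])
      (fun i _ => by
        fin_cases i
        · exact hu0.le
        · exact hu0.le
        · simp only [Fin.reduceFinMk, Matrix.cons_val]
          rw [h12u]; exact hr0.le) (by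
        simp [Fin.sum_univ_three]; ring) (fun _ _ => Set.mem_univ _)
    simp only [Fin.sum_univ_three, smul_eq_mul, Matrix.cons_val_zero, Matrix.cons_val_one,
      Matrix.cons_val_two, Matrix.head_cons, Matrix.tail_cons, Matrix.cons_val] at hJ
    have e1 : u * (l * (Dg N (g + m) e - N * cL)) + u * (l * Gp N g m e) +
        (1 - 2 * u) * (b1 * ((1 / (n:ℝ)) * Qk (d := d) dl N g m e)) =
        (b / n) * ((Dg N (g + m) e - N * cL) + Gp N g m e + Qk dl N g m e) := by
      rw [h12u, hl]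
      field_simp
    rw [e1] at hJ
    have p1 := (Real.exp_pos (l * (Dg N (g + m) e - N * cL))).le
    have p2 := (Real.exp_pos (l * Gp N g m e)).le
    have p3 := (Real.exp_pos (b1 * ((1 / (n:ℝ)) * Qk (d := d) dl N g m e))).le
    have q1 : u ≤ 1 := by rw [hu]; linarith
    have q3 : 1 - 2 * u ≤ 1 := by linarith
    have r1 := mul_le_mul_of_nonneg_right q1 p1
    have r2 := mul_le_mul_of_nonneg_right q1 p2
    have r3 := mul_le_mul_of_nonneg_right q3 p3
    rw [one_mul] at r1 r2 r3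
    exact hJ.trans (add_le_add (add_le_add r1 r2) r3)
  have hall : ∀ e : ℕ → St d, Real.exp ((b / n) * (Jq (d := d) 0 (n + 1) e -
      EE n (Jq (d := d) 0 (n + 1)))) ≤ Real.exp (2 * b * N) *
      (Real.exp (l * (Dg N (g + m) e - N * cL)) + Real.exp (l * Gp N g m e) +
      Real.exp (b1 * ((1 / (n:ℝ)) * Qk (d := d) dl N g m e))) := by
    intro e
    refine (Real.exp_le_exp.2 (hpt e)).trans ?_
    rw [Real.exp_add]
    exact mul_le_mul_of_nonneg_left (hconv e) (Real.exp_pos _).le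
  refine (EE_mono T0 hall).trans ?_
  rw [EE_mul_left, EE_add, EE_add]
  -- diagonal
  have hlL : l * ((g + m : ℕ) : ℝ) ≤ 1 / (6 * K3 d) := by
    rw [← hm]
    have h1 : l * L ≤ l * (2 * n / N) := by gcongr
    refine h1.trans ?_
    rw [hl]
    have h2 : b / n / u * (2 * n / N) = 2 * b / (u * N) := by field_simp
    rw [h2, div_le_div_iff₀ (by positivity) (by positivity)]
    linarith
  have hDg : EE T0 (fun e => Real.exp (l * (Dg (d := d) N (g + m) e - N * cL))) ≤ Real.exp N := by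
    rw [hT0, Dg_exp]
    have h1 := C5 (d := d) hd 0 (g + m) l hl0.le hlL
    have h2 : 36 * K3 d ^ 2 * (l * ((g + m : ℕ) : ℝ)) ^ 2 ≤ 1 := by
      have h3 : l * ((g + m : ℕ) : ℝ) * (6 * K3 d) ≤ 1 := by rwa [le_div_iff₀ (by positivity)] at hlL
      have h4 : 0 ≤ l * ((g + m : ℕ) : ℝ) * (6 * K3 d) := by positivity
      calc 36 * K3 d ^ 2 * (l * ((g + m : ℕ) : ℝ)) ^ 2 = (l * ((g + m : ℕ) : ℝ) * (6 * K3 d)) ^ 2 := by
            ring
        _ ≤ 1 := pow_le_one₀ h4 h3
    have h5 : EE (g + m) (fun e => Real.exp (l * (Jq (d := d) 0 (g + m) e - cL))) ≤ Real.exp 1 :=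
      h1.trans (Real.exp_le_exp.2 h2)
    calc _ ≤ Real.exp 1 ^ N := pow_le_pow_left₀ (EE_nonneg _ fun e => (Real.exp_pos _).le) h5 N
      _ = Real.exp N := by rw [← Real.exp_nat_mul, mul_one]
  have hGp : EE T0 (fun e => Real.exp (l * Gp (d := d) N g m e)) ≤ 2 := by
    refine Gp_exp hd N g m hN1 hl0.le ?_
    have h1 : Real.sqrt ((g:ℝ) * (g + m)) ≤ Real.sqrt ρ * L := by
      rw [Real.sqrt_le_left (by positivity), mul_pow, Real.sq_sqrt hρ0.le]
      have h2 : ((g:ℝ) + m) = L := by rw [hm]; push_cast; rfl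
      rw [h2, sq]
      calc (g:ℝ) * L ≤ ρ * L * L := by gcongr
        _ = _ := by ring
    calc 2 * l * N ^ 2 * (K3 d * Real.sqrt (g * (g + m)))
        ≤ 2 * l * N ^ 2 * (K3 d * (Real.sqrt ρ * L)) := by gcongr
      _ ≤ 2 * l * N ^ 2 * (K3 d * ((u / (8 * b * N * K3 d)) * (2 * n / N))) := by gcongr
      _ = 1 / 2 := by
          rw [hl]
          have : K3 d ≠ 0 := by positivity
          field_simp
          norm_num
  have hfin : Real.exp (2 * b * N) * (EE T0 (fun e => Real.exp (l * (Dg (d := d) N (g + m) e -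
      N * cL))) + EE T0 (fun e => Real.exp (l * Gp (d := d) N g m e)) +
      EE T0 (fun e => Real.exp (b1 * ((1 / (n:ℝ)) * Qk (d := d) dl N g m e)))) ≤ Mb := by
    rw [hMb]
    refine mul_le_mul_of_nonneg_left ?_ (Real.exp_pos _).le
    have := le_abs_self MQ
    linarith
  linarith

end Pool.Agent.H111R3
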