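import Pool.Agent.H111R3.Dec

set_option autoImplicit false
set_option linter.unusedSectionVars false
open Finset Filter

namespace Pool.Agent.H111R3

open Pool.Agent.Helper964.Chg (glue Loc glue_lt glue_add)

variable {d : ℕ} [NeZero d]

/-- Partition function. -/
noncomputable def ZZ (d : ℕ) [NeZero d] (β : ℝ) (n : ℕ) : ℝ :=
  EE n (fun e => Real.exp (-(β / n) * Jq (d := d) 0 (n + 1) e))

/-- Centered partition function. -/
noncomputable def ZC (d : ℕ) [NeZero d] (β : ℝ) (n : ℕ) : ℝ :=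
  EE n (fun e => Real.exp (-(β / n) * (Jq (d := d) 0 (n + 1) e - EE n (Jq (d := d) 0 (n + 1)))))

lemma ZZ_nonneg (β : ℝ) (n : ℕ) : 0 ≤ ZZ d β n := EE_nonneg n fun _ => (Real.exp_pos _).le

lemma lt_root_iff {c Z : ℝ} {n : ℕ} (hn : 1 ≤ n) (hc : 0 ≤ c) (hZ : 0 ≤ Z) :
    c < Z ^ ((1:ℝ) / (n:ℝ)) ↔ c ^ n < Z := by
  have hn' : (0:ℝ) < n := by exact_mod_cast hn
  rw [one_div, Real.lt_rpow_inv_iff_of_pos hc hZ hn', Real.rpow_natCast]

/-- First set. -/
def SA (d : ℕ) [NeZero d] : Set ℝ := {β : ℝ | ∃ c : ℝ, 1 < c ∧ ∃ᶠ n : ℕ in atTop,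
      c < (ZZ d β n) ^ ((1:ℝ) / (n:ℝ))}

/-- Second set. -/
def SB (d : ℕ) [NeZero d] : Set ℝ := {β : ℝ | ∃ M : ℝ, ∀ n : ℕ, 1 ≤ n → ZC d β n ≤ M}

lemma SA_neg {β : ℝ} (h : β ∈ SA d) : β < 0 := by
  by_contra hβ
  push Not at hβ
  obtain ⟨c, hc, hf⟩ := h
  obtain ⟨n, hn⟩ := hf.exists
  have h1 : ZZ d β n ≤ 1 := by
    refine (EE_mono n (g := fun _ => 1) fun e => ?_).trans_eq (EE_const n 1)
    rw [Real.exp_le_one_iff]
    have h2 := Jq_nonneg (d := d) 0 (n + 1) e
    have h3 : 0 ≤ β / n := by positivity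
    nlinarith
  have h2 : (ZZ d β n) ^ ((1:ℝ) / (n:ℝ)) ≤ 1 := Real.rpow_le_one (ZZ_nonneg β n) h1 (by positivity)
  linarith

lemma zero_mem_SB : (0:ℝ) ∈ SB d := by
  refine ⟨1, fun n _ => ?_⟩
  unfold ZC
  simp only [zero_div, neg_zero, zero_mul, Real.exp_zero]
  exact (EE_const n 1).le

/-- Alternating path. -/
def altp (d : ℕ) [NeZero d] : ℕ → St d := fun i => (0, decide (i % 2 = 0))

lemma pos_altp (i : ℕ) : pos (altp d) i = if i % 2 = 0 then 0 else stp ((0, true) : St d) := by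
  induction i with
  | zero => simp
  | succ i ih =>
    rw [pos_succ, ih]
    rcases Nat.mod_two_eq_zero_or_one i with h | h
    · have h1 : (i + 1) % 2 ≠ 0 := by omega
      rw [if_pos h, if_neg h1, zero_add]
      simp [altp, h]
    · have h1 : (i + 1) % 2 = 0 := by omega
      have h2 : i % 2 ≠ 0 := by omega
      rw [if_neg h2, if_pos h1]
      have h3 : altp d i = flip ((0, true) : St d) := by simp [altp, flip, h]
      rw [h3, stp_flip]
      simp

lemma stp_ne_zero (s : St d) : stp s ≠ 0 := by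
  intro h
  have h2 : par (stp s) = 1 := by
    have := par_pos (d := d) (fun _ => s) 1
    simpa [pos] using this
  rw [h, par_zero] at h2
  exact absurd h2 (by decide)

lemma dl_altp (i j : ℕ) : dl ((0 + pos (altp d) i) - (0 + pos (altp d) j)) =
    (1 + (-1) ^ i * (-1) ^ j) / 2 := by
  rw [pos_altp, pos_altp]
  unfold dl
  have hs := stp_ne_zero ((0, true) : St d)
  rcases Nat.mod_two_eq_zero_or_one i with h | h <;>
    rcases Nat.mod_two_eq_zero_or_one j with h' | h'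
  · have e1 : (-1:ℝ) ^ i = 1 := Even.neg_one_pow (Nat.even_iff.2 h)
    have e2 : (-1:ℝ) ^ j = 1 := Even.neg_one_pow (Nat.even_iff.2 h')
    simp [h, h', e1, e2]
  · have e1 : (-1:ℝ) ^ i = 1 := Even.neg_one_pow (Nat.even_iff.2 h)
    have e2 : (-1:ℝ) ^ j = -1 := Odd.neg_one_pow (Nat.odd_iff.2 h')
    simp [h, h', e1, e2, hs]
  · have e1 : (-1:ℝ) ^ i = -1 := Odd.neg_one_pow (Nat.odd_iff.2 h)
    have e2 : (-1:ℝ) ^ j = 1 := Even.neg_one_pow (Nat.even_iff.2 h')
    simp [h, h', e1, e2, hs]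
  · have e1 : (-1:ℝ) ^ i = -1 := Odd.neg_one_pow (Nat.odd_iff.2 h)
    have e2 : (-1:ℝ) ^ j = -1 := Odd.neg_one_pow (Nat.odd_iff.2 h')
    simp [h, h', e1, e2]

lemma J_altp (n : ℕ) (hn : 2 ≤ n) : (n:ℝ) ^ 2 / 8 ≤ Jq 0 (n + 1) (altp d) := by
  have h := self_sum (d := d) 0 (n + 1) 0 (altp d)
  simp only [pk_two_zero, dl_altp] at h
  have h5 : dl (0 : Fin d → ℤ) = 1 := by simp [dl]
  rw [h5, mul_one] at h
  have h1 : ∑ i ∈ range (n + 1), ∑ j ∈ range (n + 1), (1 + (-1:ℝ) ^ i * (-1) ^ j) / 2 =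
      (((n + 1 : ℕ) : ℝ) ^ 2 + (∑ i ∈ range (n + 1), (-1:ℝ) ^ i) ^ 2) / 2 := by
    rw [sq (∑ i ∈ range (n + 1), (-1:ℝ) ^ i), Finset.sum_mul_sum]
    simp only [← Finset.sum_div, Finset.sum_add_distrib, Finset.sum_const, Finset.card_range,
      nsmul_eq_mul]
    push_cast
    ring
  rw [h1] at h
  have h2 := sq_nonneg (∑ i ∈ range (n + 1), (-1:ℝ) ^ i)
  have h3 : (2:ℝ) ≤ n := by exact_mod_cast hn
  push_cast at h
  nlinarith

lemma SA_nonempty : (SA d).Nonempty := by
  have hd := d_pos (d := d)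
  set β0 : ℝ := 8 * Real.log (6 * d) with hβ0
  refine ⟨-β0, 2, by norm_num, ?_⟩
  have hd1 : (1:ℝ) ≤ d := by
    have := NeZero.one_le (n := d)
    exact_mod_cast this
  have hlog : 0 ≤ Real.log (6 * d) := Real.log_nonneg (by linarith)
  have hβ0' : 0 ≤ β0 := by positivity
  refine Eventually.frequently ?_
  filter_upwards [eventually_ge_atTop 2] with n hn
  have hn0 : (0:ℝ) < n := by
    have : 0 < n := by omega
    exact_mod_cast this
  rw [lt_root_iff (by omega) (by norm_num) (ZZ_nonneg _ _)]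
  unfold ZZ
  rw [EE_eq_sum]
  set s0 : Fin n → St d := fun i => altp d i with hs0
  have h1 := Finset.single_le_sum (s := (Finset.univ : Finset (Fin n → St d)))
    (f := fun e => (1 / (2 * (d : ℝ))) ^ n * Real.exp (-(-β0 / n) * Jq (d := d) 0 (n + 1) (ext e)))
    (fun e _ => by positivity) (Finset.mem_univ s0)
  refine lt_of_lt_of_le ?_ h1
  have h2 : Jq (d := d) 0 (n + 1) (ext s0) = Jq 0 (n + 1) (altp d) := by
    refine Jq_loc' 0 n _ _ fun i hi => ?_
    simp [ext, hi, hs0]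
  simp only [h2]
  have h3 := J_altp (d := d) n hn
  have h4 : Real.log (6 * d) * n ≤ -(-β0 / n) * Jq 0 (n + 1) (altp d) := by
    have : -(-β0 / (n:ℝ)) = β0 / n := by ring
    rw [this]
    calc Real.log (6 * d) * n = β0 / n * ((n:ℝ) ^ 2 / 8) := by rw [hβ0]; field_simp
      _ ≤ _ := by gcongr
  have h5 : (6 * (d:ℝ)) ^ n ≤ Real.exp (-(-β0 / n) * Jq 0 (n + 1) (altp d)) := by
    refine le_trans (le_of_eq ?_) (Real.exp_le_exp.2 h4)
    rw [mul_comm (Real.log (6 * (d:ℝ))) (n:ℝ), Real.exp_nat_mul, Real.exp_log (by positivity)]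
  calc (2:ℝ) ^ n < 3 ^ n := pow_lt_pow_left₀ (by norm_num) (by norm_num) (by omega)
    _ = (1 / (2 * (d : ℝ))) ^ n * (6 * (d:ℝ)) ^ n := by
        rw [← mul_pow]; congr 1; field_simp; norm_num
    _ ≤ _ := by gcongr

lemma SA_le_SB (hd : 2 ≤ d) {a β : ℝ} (ha : a ∈ SA d) (hβ : β ∈ SB d) : a ≤ β := by
  by_contra hcon
  push Not at hcon
  have ha0 := SA_neg ha
  have hβ0 : β < 0 := hcon.trans ha0
  obtain ⟨c, hc, hf⟩ := ha
  obtain ⟨M, hM⟩ := hβ
  have hC := C1_ge (d := d)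
  have hlc : 0 < Real.log c := Real.log_pos hc
  set K : ℝ := 4 * C1 d * (-β) with hK
  have hK0 : 0 < K := by
    have : 0 < -β := by linarith
    positivity
  set M1 : ℝ := |M| + 1 with hM1
  have hM1p : 0 < M1 := by positivity
  obtain ⟨n1, hn1⟩ := exists_nat_gt ((2 / Real.log c) * (Real.log c + 2 * K ^ 2 / Real.log c +
    |Real.log M1|))
  obtain ⟨n, hn, hge⟩ := (hf.and_eventually (eventually_ge_atTop (max n1 1))).exists
  have hn1' : n1 ≤ n := le_trans (le_max_left _ _) hge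
  have hn1'' : 1 ≤ n := le_trans (le_max_right _ _) hge
  have hnr : (1:ℝ) ≤ n := by exact_mod_cast hn1''
  have hn0 : (0:ℝ) < n := by linarith
  rw [lt_root_iff hn1'' (by linarith) (ZZ_nonneg _ _)] at hn
  have h1 : ZZ d a n ≤ ZZ d β n := by
    refine EE_mono n fun e => Real.exp_le_exp.2 ?_
    refine mul_le_mul_of_nonneg_right ?_ (Jq_nonneg _ _ _)
    have : β / n ≤ a / n := by gcongr
    linarith
  have h2 : ZZ d β n = ZC d β n * Real.exp (-(β / n) * EE n (Jq (d := d) 0 (n + 1))) := by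
    unfold ZZ ZC
    rw [← EE_mul_right]
    refine EE_congr n fun e => ?_
    rw [← Real.exp_add]
    congr 1; ring
  have hEJ : EE n (Jq (d := d) 0 (n + 1)) ≤ (n + 1) * (2 * C1 d * Real.log (n + 2)) := by
    have h3 := EE_Jq_le (d := d) hd 0 (n + 1)
    rw [EE_loc' (Jq_loc' (d := d) 0 n) (by omega)] at h3
    refine h3.trans (le_of_eq ?_)
    push_cast
    congr 3
    ring
  have hlog0 : 0 ≤ Real.log ((n:ℝ) + 2) := Real.log_nonneg (by linarith)
  have h4 : -(β / n) * EE n (Jq (d := d) 0 (n + 1)) ≤ K * Real.log (n + 2) := by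
    have e1 : -(β / (n:ℝ)) = -β / n := by ring
    rw [e1]
    calc -β / n * EE n (Jq (d := d) 0 (n + 1)) ≤ -β / n * ((n + 1) * (2 * C1 d * Real.log (n + 2))) := by
          refine mul_le_mul_of_nonneg_left hEJ ?_
          have : 0 < -β := by linarith
          positivity
      _ ≤ -β / n * ((2 * n) * (2 * C1 d * Real.log (n + 2))) := by
          refine mul_le_mul_of_nonneg_left ?_ ?_
          · refine mul_le_mul_of_nonneg_right ?_ (by positivity)
            linarith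
          · have : 0 < -β := by linarith
            positivity
      _ = K * Real.log (n + 2) := by rw [hK]; field_simp; ring
  have h5 : ZZ d β n ≤ M1 * Real.exp (K * Real.log (n + 2)) := by
    rw [h2]
    have h6 : ZC d β n ≤ M1 := (hM n hn1'').trans (by
      have := le_abs_self M
      rw [hM1]; linarith)
    exact mul_le_mul h6 (Real.exp_le_exp.2 h4) (Real.exp_pos _).le hM1p.le
  have h7 : c ^ n < M1 * Real.exp (K * Real.log (n + 2)) := hn.trans_le (h1.trans h5)
  have h8 : n * Real.log c < Real.log M1 + K * Real.log (n + 2) := by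
    have h9 := Real.log_lt_log (by positivity) h7
    rw [Real.log_pow, Real.log_mul hM1p.ne' (Real.exp_pos _).ne', Real.log_exp] at h9
    exact h9
  have h10 : Real.log ((n:ℝ) + 2) ≤ 2 * Real.sqrt (n + 2) := by
    have h11 : Real.log (Real.sqrt ((n:ℝ) + 2)) ≤ Real.sqrt (n + 2) := by
      have h12 := Real.log_le_sub_one_of_pos (Real.sqrt_pos.2 (show (0:ℝ) < n + 2 by linarith))
      linarith
    rw [Real.log_sqrt (by linarith)] at h11
    linarith
  have h13 : K * (2 * Real.sqrt (n + 2)) ≤ Real.log c / 2 * (n + 2) + 2 * K ^ 2 / Real.log c := by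
    have h14 := Real.sq_sqrt (show (0:ℝ) ≤ n + 2 by linarith)
    have h15 := sq_nonneg (Real.log c * Real.sqrt (n + 2) - 2 * K)
    have h16 : Real.log c / 2 * (n + 2) + 2 * K ^ 2 / Real.log c - K * (2 * Real.sqrt (n + 2)) =
        (Real.log c * Real.sqrt (n + 2) - 2 * K) ^ 2 / (2 * Real.log c) := by
      have : (Real.log c * Real.sqrt (n + 2) - 2 * K) ^ 2 = Real.log c ^ 2 * (n + 2) -
        4 * K * Real.log c * Real.sqrt (n + 2) + 4 * K ^ 2 := by
        nlinarith
      rw [this]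
      field_simp
      ring
    have h17 : 0 ≤ (Real.log c * Real.sqrt (n + 2) - 2 * K) ^ 2 / (2 * Real.log c) := by positivity
    linarith
  have h18 : (2 / Real.log c) * (Real.log c + 2 * K ^ 2 / Real.log c + |Real.log M1|) < n :=
    lt_of_lt_of_le hn1 (by exact_mod_cast hn1')
  have h19 : Real.log c + 2 * K ^ 2 / Real.log c + |Real.log M1| < n * (Real.log c / 2) := by
    have h20 := mul_lt_mul_of_pos_right h18 (show 0 < Real.log c / 2 by positivity)
    have e2 : (2 / Real.log c) * (Real.log c + 2 * K ^ 2 / Real.log c + |Real.log M1|) *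
      (Real.log c / 2) = Real.log c + 2 * K ^ 2 / Real.log c + |Real.log M1| := by field_simp
    rwa [e2] at h20
  have h21 := le_abs_self (Real.log M1)
  have h22 : K * Real.log (n + 2) ≤ K * (2 * Real.sqrt (n + 2)) :=
    mul_le_mul_of_nonneg_left h10 hK0.le
  linarith

lemma SB_of_gap (hd : 2 ≤ d) {b b' : ℝ} (hb : 0 < b) (hbb : b < b') (h : -b' ∉ SA d) :
    -b ∈ SB d := by
  have hH : ∀ c : ℝ, 1 < c → ∀ᶠ N : ℕ in atTop,
      EE N (fun e => Real.exp ((b' / N) * Jq (d := d) 0 (N + 1) e)) ≤ c ^ N := by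
    intro c hc
    have h1 : ¬ ∃ᶠ n : ℕ in atTop, c < (ZZ d (-b') n) ^ ((1:ℝ) / (n:ℝ)) := fun h2 => h ⟨c, hc, h2⟩
    rw [not_frequently] at h1
    filter_upwards [h1, eventually_ge_atTop 1] with n hn hn1
    rw [lt_root_iff hn1 (by linarith) (ZZ_nonneg _ _)] at hn
    push Not at hn
    have : ZZ d (-b') n = EE n (fun e => Real.exp ((b' / n) * Jq (d := d) 0 (n + 1) e)) := by
      unfold ZZ
      refine EE_congr n fun e => ?_
      congr 2; ring
    rw [← this]
    exact hn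
  obtain ⟨M, hM⟩ := main_upper hd hb hbb hH
  refine ⟨M, fun n hn => ?_⟩
  refine le_trans (le_of_eq ?_) (hM n hn)
  unfold ZC
  refine EE_congr n fun e => ?_
  congr 2; ring

theorem core (hd : 2 ≤ d) : sSup (SA d) = sInf (SB d) := by
  have hA : BddAbove (SA d) := ⟨0, fun a ha => (SA_neg ha).le⟩
  obtain ⟨a0, ha0⟩ := SA_nonempty (d := d)
  have hB : BddBelow (SB d) := ⟨a0, fun β hβ => SA_le_SB hd ha0 hβ⟩
  have hBn : (SB d).Nonempty := ⟨0, zero_mem_SB⟩
  apply le_antisymm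
  · exact csSup_le ⟨a0, ha0⟩ fun a ha => le_csInf hBn fun β hβ => SA_le_SB hd ha hβ
  · by_contra hcon
    push Not at hcon
    have h0 : sInf (SB d) ≤ 0 := csInf_le hB zero_mem_SB
    set s := sSup (SA d) with hs
    set t := sInf (SB d) with ht
    have h1 : -(-((s + (s + t) / 2) / 2)) ∉ SA d := by
      rw [neg_neg]
      intro h2
      have := le_csSup hA h2
      rw [← hs] at this
      linarith
    have h3 := SB_of_gap hd (b := -((s + t) / 2)) (b' := -((s + (s + t) / 2) / 2)) (by linarith)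
      (by linarith) h1
    have h4 := csInf_le hB h3
    rw [← ht] at h4
    linarith

end Pool.Agent.H111R3
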