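import Pool.Agent.H111R3.Heat

set_option autoImplicit false
set_option linter.unusedSectionVars false
open Finset MeasureTheory

namespace Pool.Agent.H111R3

open Pool.Agent.Helper964.Chg (Ex glue cons Ex_succ)

variable {d : ℕ} [NeZero d]

/-- Characteristic function. -/
noncomputable def phi (t : Fin d → ℝ) : ℝ := (1 / (d : ℝ)) * ∑ i, Real.cos (2 * Real.pi * t i)

lemma EE_one (H : (Fin d → ℤ) → ℝ) :
    EE 1 (fun e => H (pos e 1)) = ∑ s : St d, 1 / (2 * (d : ℝ)) * H (stp s) := by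
  unfold EE
  rw [Ex_succ]
  refine Finset.sum_congr rfl fun s _ => ?_
  simp [sw, pos, Ex]

lemma d_pos : (0 : ℝ) < d := by
  have := NeZero.pos d
  exact_mod_cast this

lemma sum_stp (b : ℝ) (t : Fin d → ℝ) :
    ∑ s : St d, 1 / (2 * (d : ℝ)) * Real.cos (b + 2 * Real.pi * ∑ i, ((stp s i : ℤ) : ℝ) * t i)
      = Real.cos b * phi t := by
  have h1 : ∀ s : St d, ∑ i, ((stp s i : ℤ) : ℝ) * t i = (if s.2 then 1 else -1) * t s.1 := by
    intro s
    unfold stp
    rw [Finset.sum_eq_single s.1]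
    · simp
    · intro i _ hi
      simp [Pi.single_eq_of_ne hi]
    · simp
  simp only [h1]
  rw [Fintype.sum_prod_type]
  simp only [Fintype.sum_bool, if_true, Bool.false_eq_true, if_false]
  unfold phi
  rw [Finset.mul_sum, Finset.mul_sum]
  refine Finset.sum_congr rfl fun i _ => ?_
  have h2 : b + 2 * Real.pi * (1 * t i) = b + 2 * Real.pi * t i := by ring
  have h3 : b + 2 * Real.pi * (-1 * t i) = b - 2 * Real.pi * t i := by ring
  rw [h2, h3, Real.cos_add, Real.cos_sub]
  have := d_pos (d := d)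
  field_simp
  ring

lemma EE_cos (n : ℕ) (a : ℝ) (t : Fin d → ℝ) :
    EE n (fun e => Real.cos (a + 2 * Real.pi * ∑ i, ((pos e n i : ℤ) : ℝ) * t i))
      = Real.cos a * phi t ^ n := by
  induction n with
  | zero => simp [EE_zero]
  | succ n ih =>
    have h := EE_pos_add (d := d) n 1
      (fun x => Real.cos (a + 2 * Real.pi * ∑ i, ((x i : ℤ) : ℝ) * t i))
    rw [← h]
    have h2 : ∀ e : ℕ → St d, EE 1 (fun e' => Real.cos (a + 2 * Real.pi *
        ∑ i, (((pos e n + pos e' 1 : Fin d → ℤ) i : ℤ) : ℝ) * t i))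
        = Real.cos (a + 2 * Real.pi * ∑ i, ((pos e n i : ℤ) : ℝ) * t i) * phi t := by
      intro e
      rw [← sum_stp, ← EE_one (fun x => Real.cos (a + 2 * Real.pi *
        ∑ i, ((pos e n i : ℤ) : ℝ) * t i + 2 * Real.pi * ∑ i, ((x i : ℤ) : ℝ) * t i))]
      refine EE_congr 1 fun e' => ?_
      congr 1
      simp only [Pi.add_apply, Int.cast_add, add_mul, Finset.sum_add_distrib]
      ring
    simp only [h2]
    rw [EE_mul_right, ih]
    ring

/-- Base measure. -/
noncomputable def mu1 : Measure ℝ := volume.restrict (Set.Ioc 0 1)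

instance : IsProbabilityMeasure mu1 := ⟨by simp [mu1]⟩

/-- Product measure. -/
noncomputable def mud (d : ℕ) : Measure (Fin d → ℝ) := Measure.pi (fun _ => mu1)

instance : IsProbabilityMeasure (mud d) := by unfold mud; infer_instance

lemma int_exp (n : ℤ) : ∫ x, Complex.exp (2 * Real.pi * n * x * Complex.I) ∂mu1
    = if n = 0 then 1 else 0 := by
  by_cases hn : n = 0
  · simp [hn, mu1]
  · rw [if_neg hn]
    unfold mu1
    rw [← intervalIntegral.integral_of_le zero_le_one]
    have hc : (2 * Real.pi * n * Complex.I : ℂ) ≠ 0 := by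
      simp [Real.pi_ne_zero, hn]
    have h1 : ∀ x : ℝ, Complex.exp (2 * Real.pi * n * x * Complex.I)
        = Complex.exp ((2 * Real.pi * n * Complex.I) * x) := by
      intro x; congr 1; ring
    simp only [h1]
    rw [integral_exp_mul_complex hc]
    have h2 : Complex.exp (2 * Real.pi * n * Complex.I * ((1:ℝ) : ℂ)) = 1 := by
      rw [show (2 * Real.pi * n * Complex.I * ((1:ℝ):ℂ) : ℂ) = n * (2 * Real.pi * Complex.I) by
        push_cast; ring]
      exact Complex.exp_int_mul_two_pi_mul_I n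
    rw [h2]
    simp

lemma int_cos (x : Fin d → ℤ) :
    ∫ t, Real.cos (2 * Real.pi * ∑ i, ((x i : ℤ) : ℝ) * t i) ∂(mud d) = if x = 0 then 1 else 0 := by
  have h := integral_fintype_prod_eq_prod (ι := Fin d) (𝕜 := ℂ)
    (f := fun i (t : ℝ) => Complex.exp (2 * Real.pi * (x i) * t * Complex.I))
    (μ := fun _ => mu1)
  have h0 : ∀ t : Fin d → ℝ, (∏ i, Complex.exp (2 * Real.pi * (x i) * (t i) * Complex.I))
      = Complex.exp (((2 * Real.pi * ∑ i, ((x i : ℤ) : ℝ) * t i : ℝ) : ℂ) * Complex.I) := by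
    intro t
    rw [← Complex.exp_sum]
    congr 1
    push_cast
    rw [Finset.mul_sum, Finset.sum_mul]
    refine Finset.sum_congr rfl fun i _ => ?_
    ring
  have h1 : ∀ t : Fin d → ℝ, Real.cos (2 * Real.pi * ∑ i, ((x i : ℤ) : ℝ) * t i)
      = RCLike.re (∏ i, Complex.exp (2 * Real.pi * (x i) * (t i) * Complex.I)) := by
    intro t
    rw [h0]
    exact (Complex.exp_ofReal_mul_I_re _).symm
  have hint : Integrable (fun t : Fin d → ℝ =>
      ∏ i, Complex.exp (2 * Real.pi * (x i) * (t i) * Complex.I)) (mud d) := by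
    refine Integrable.of_bound (C := 1) ?_ ?_
    · refine Continuous.aestronglyMeasurable ?_
      fun_prop
    · refine Filter.Eventually.of_forall fun t => ?_
      rw [h0, Complex.norm_exp_ofReal_mul_I]
  simp only [h1]
  rw [integral_re hint]
  unfold mud
  rw [h]
  simp only [int_exp]
  by_cases hx : x = 0
  · simp [hx]
  · rw [if_neg hx]
    obtain ⟨i, hi⟩ := Function.ne_iff.1 hx
    rw [Finset.prod_eq_zero (Finset.mem_univ i) (by simpa using hi)]
    simp

lemma phi_abs_le (t : Fin d → ℝ) : |phi t| ≤ 1 := by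
  unfold phi
  have hd := d_pos (d := d)
  rw [abs_mul, abs_of_pos (by positivity)]
  have : |∑ i, Real.cos (2 * Real.pi * t i)| ≤ d := by
    refine (Finset.abs_sum_le_sum_abs _ _).trans ?_
    refine (Finset.sum_le_sum fun i _ => Real.abs_cos_le_one _).trans ?_
    simp
  calc 1 / (d : ℝ) * |∑ i, Real.cos (2 * Real.pi * t i)| ≤ 1 / (d : ℝ) * d := by gcongr
    _ = 1 := by field_simp

lemma phi_cont : Continuous (phi (d := d)) := by
  unfold phi
  fun_prop

lemma phi_int (f : ℝ → ℝ) (hf : Continuous f) : Integrable (fun t => f (phi t)) (mud d) := by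
  obtain ⟨C, hC⟩ := (isCompact_Icc (a := (-1:ℝ)) (b := 1)).exists_bound_of_continuousOn
    hf.continuousOn
  refine Integrable.of_bound (C := C) (hf.comp phi_cont).aestronglyMeasurable ?_
  refine Filter.Eventually.of_forall fun t => hC _ ?_
  exact abs_le.1 (phi_abs_le t)

lemma pk_fourier (n : ℕ) : pk n (0 : Fin d → ℤ) = ∫ t, phi t ^ n ∂(mud d) := by
  have h1 : ∀ t : Fin d → ℝ, phi t ^ n =
      EE n (fun e => Real.cos (2 * Real.pi * ∑ i, ((pos e n i : ℤ) : ℝ) * t i)) := by
    intro t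
    have := EE_cos n 0 t
    simpa using this.symm
  simp only [h1, EE_eq_sum]
  rw [integral_finset_sum]
  · unfold pk
    rw [EE_eq_sum]
    refine Finset.sum_congr rfl fun e _ => ?_
    rw [integral_const_mul, int_cos]
  · intro e _
    refine Integrable.const_mul ?_ _
    refine Integrable.of_bound (C := 1) ?_ ?_
    · refine Continuous.aestronglyMeasurable ?_
      fun_prop
    · exact Filter.Eventually.of_forall fun t => Real.abs_cos_le_one _

lemma phi_sq_le (t : Fin d → ℝ) :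
    phi t ^ 2 ≤ Real.exp (-(1 / (d : ℝ)) * ∑ i, Real.sin (2 * Real.pi * t i) ^ 2) := by
  have hd := d_pos (d := d)
  have h1 : phi t ^ 2 ≤ (1 / (d : ℝ)) * ∑ i, Real.cos (2 * Real.pi * t i) ^ 2 := by
    have := sq_sum_le_card_mul_sum_sq (s := (Finset.univ : Finset (Fin d)))
      (f := fun i => Real.cos (2 * Real.pi * t i))
    simp only [Finset.card_univ, Fintype.card_fin] at this
    unfold phi
    rw [mul_pow]
    calc (1 / (d : ℝ)) ^ 2 * (∑ i, Real.cos (2 * Real.pi * t i)) ^ 2
        ≤ (1 / (d : ℝ)) ^ 2 * (d * ∑ i, Real.cos (2 * Real.pi * t i) ^ 2) := by gcongr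
      _ = _ := by field_simp
  have h2 : (1 / (d : ℝ)) * ∑ i, Real.cos (2 * Real.pi * t i) ^ 2
      = -(1 / (d : ℝ)) * ∑ i, Real.sin (2 * Real.pi * t i) ^ 2 + 1 := by
    simp only [Real.cos_sq', Finset.sum_sub_distrib]
    simp
    field_simp
    ring
  rw [h2] at h1
  exact h1.trans (Real.add_one_le_exp _)

lemma one_dim {s : ℝ} (hs : 0 < s) :
    ∫ x, Real.exp (-s * Real.sin (2 * Real.pi * x) ^ 2) ∂mu1 ≤ 3 * Real.sqrt (Real.pi / (16 * s)) := by
  have key : ∀ x c : ℝ, (∃ k : ℤ, c = k / 2) → |x - c| ≤ 1 / 4 →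
      Real.exp (-s * Real.sin (2 * Real.pi * x) ^ 2) ≤ Real.exp (-(16 * s) * (x - c) ^ 2) := by
    rintro x c ⟨k, rfl⟩ hx
    refine Real.exp_le_exp.2 ?_
    have h1 : Real.sin (2 * Real.pi * x) ^ 2 = Real.sin (2 * Real.pi * (x - k / 2)) ^ 2 := by
      have : 2 * Real.pi * (x - k / 2) = 2 * Real.pi * x - k * Real.pi := by ring
      rw [this, Real.sin_sub_int_mul_pi]
      rw [mul_pow]
      have : (((-1:ℝ) ^ k) ^ 2) = 1 := by
        rw [← zpow_natCast, ← zpow_mul, mul_comm, zpow_mul]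
        norm_num
      rw [this, one_mul]
    rw [h1]
    have hp := Real.pi_pos
    have h2 : |2 * Real.pi * (x - k / 2)| ≤ Real.pi / 2 := by
      rw [abs_mul, abs_of_pos (by positivity)]
      nlinarith
    have h3 := Real.mul_abs_le_abs_sin h2
    rw [abs_mul, abs_of_pos (show (0:ℝ) < 2 * Real.pi by positivity)] at h3
    have h4 : 2 / Real.pi * (2 * Real.pi * |x - k / 2|) = 4 * |x - k / 2| := by
      field_simp; ring
    rw [h4] at h3
    have h5 : (4 * |x - k / 2|) ^ 2 ≤ |Real.sin (2 * Real.pi * (x - k / 2))| ^ 2 := by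
      gcongr
    rw [sq_abs, mul_pow, sq_abs] at h5
    nlinarith
  have hb : 0 < 16 * s := by positivity
  have hI : ∀ c : ℝ, Integrable (fun x : ℝ => Real.exp (-(16 * s) * (x - c) ^ 2)) := fun c =>
    (integrable_exp_neg_mul_sq hb).comp_sub_right c
  have hI1 : ∀ c : ℝ, ∫ x, Real.exp (-(16 * s) * (x - c) ^ 2) ∂mu1 ≤ Real.sqrt (Real.pi / (16 * s)) := by
    intro c
    have h1 : ∫ x, Real.exp (-(16 * s) * (x - c) ^ 2) ∂mu1
        ≤ ∫ x, Real.exp (-(16 * s) * (x - c) ^ 2) := by
      unfold mu1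
      exact integral_mono_measure Measure.restrict_le_self
        (Filter.Eventually.of_forall fun x => (Real.exp_pos _).le) (hI c)
    refine h1.trans_eq ?_
    rw [integral_sub_right_eq_self (fun x : ℝ => Real.exp (-(16 * s) * x ^ 2)) c]
    exact integral_gaussian _
  have hI2 : ∀ c : ℝ, Integrable (fun x : ℝ => Real.exp (-(16 * s) * (x - c) ^ 2)) mu1 := fun c =>
    (hI c).restrict
  have h2 : ∫ x, Real.exp (-s * Real.sin (2 * Real.pi * x) ^ 2) ∂mu1 ≤
      ∫ x, (Real.exp (-(16 * s) * (x - 0) ^ 2) + Real.exp (-(16 * s) * (x - 1 / 2) ^ 2)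
        + Real.exp (-(16 * s) * (x - 1) ^ 2)) ∂mu1 := by
    refine integral_mono_ae ?_ (((hI2 0).add (hI2 (1/2))).add (hI2 1)) ?_
    · refine Integrable.of_bound (C := 1) (by
        refine Continuous.aestronglyMeasurable ?_
        fun_prop) ?_
      refine Filter.Eventually.of_forall fun x => ?_
      rw [Real.norm_eq_abs, abs_of_pos (Real.exp_pos _), Real.exp_le_one_iff]
      have : 0 ≤ Real.sin (2 * Real.pi * x) ^ 2 := by positivity
      nlinarith
    · unfold mu1
      rw [Filter.EventuallyLE, ae_restrict_iff' measurableSet_Ioc]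
      refine Filter.Eventually.of_forall fun x hx => ?_
      have e1 := (Real.exp_pos (-(16 * s) * (x - 0) ^ 2)).le
      have e2 := (Real.exp_pos (-(16 * s) * (x - 1/2) ^ 2)).le
      have e3 := (Real.exp_pos (-(16 * s) * (x - 1) ^ 2)).le
      rcases hx with ⟨hx0, hx1⟩
      rcases le_total x (1/4) with h | h
      · have := key x 0 ⟨0, by simp⟩ (by rw [abs_le]; constructor <;> linarith)
        linarith
      · rcases le_total x (3/4) with h' | h'
        · have := key x (1/2) ⟨1, by simp⟩ (by rw [abs_le]; constructor <;> linarith)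
          linarith
        · have := key x 1 ⟨2, by norm_num⟩ (by rw [abs_le]; constructor <;> linarith)
          linarith
  refine h2.trans ?_
  have hs1 : Integrable (fun x : ℝ => Real.exp (-(16 * s) * (x - 0) ^ 2)
      + Real.exp (-(16 * s) * (x - 1 / 2) ^ 2)) mu1 := (hI2 0).add (hI2 (1/2))
  rw [integral_add hs1 (hI2 1), integral_add (hI2 0) (hI2 (1/2))]
  have := hI1 0
  have := hI1 (1/2)
  have := hI1 1
  linarith

lemma pk_upper {j : ℕ} (hj : 0 < j) :
    pk (2 * j) (0 : Fin d → ℤ) ≤ (3 * Real.sqrt (Real.pi / (16 * (j / d)))) ^ d := by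
  have hd := d_pos (d := d)
  have hj' : (0:ℝ) < j := by exact_mod_cast hj
  rw [pk_fourier]
  have h1 : ∀ t : Fin d → ℝ, phi t ^ (2 * j) ≤
      ∏ i, Real.exp (-(j / d : ℝ) * Real.sin (2 * Real.pi * t i) ^ 2) := by
    intro t
    rw [pow_mul]
    refine (pow_le_pow_left₀ (by positivity) (phi_sq_le t) j).trans_eq ?_
    rw [← Real.exp_nat_mul, ← Real.exp_sum]
    congr 1
    rw [← Finset.mul_sum]
    ring
  have h2 : ∫ t, phi t ^ (2 * j) ∂(mud d) ≤
      ∫ t, ∏ i, Real.exp (-(j / d : ℝ) * Real.sin (2 * Real.pi * t i) ^ 2) ∂(mud d) := by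
    refine integral_mono (phi_int (fun x => x ^ (2 * j)) (by fun_prop)) ?_ h1
    refine Integrable.of_bound (C := 1) (by
      refine Continuous.aestronglyMeasurable ?_
      fun_prop) ?_
    refine Filter.Eventually.of_forall fun t => ?_
    rw [Real.norm_eq_abs, abs_of_nonneg (Finset.prod_nonneg fun i _ => (Real.exp_pos _).le)]
    refine Finset.prod_le_one (fun i _ => (Real.exp_pos _).le) fun i _ => ?_
    rw [Real.exp_le_one_iff]
    have : 0 ≤ Real.sin (2 * Real.pi * t i) ^ 2 := by positivity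
    have : 0 < (j / d : ℝ) := by positivity
    nlinarith
  refine h2.trans ?_
  have h := integral_fintype_prod_eq_prod (ι := Fin d) (𝕜 := ℝ)
    (f := fun _ (t : ℝ) => Real.exp (-(j / d : ℝ) * Real.sin (2 * Real.pi * t) ^ 2))
    (μ := fun _ => mu1)
  unfold mud
  rw [h, Finset.prod_const, Finset.card_univ, Fintype.card_fin]
  refine pow_le_pow_left₀ (integral_nonneg fun t => (Real.exp_pos _).le) ?_ d
  exact one_dim (by positivity)

/-- Constant in the heat kernel bound. -/
noncomputable def C0 (d : ℕ) : ℝ := 3 * Real.sqrt (d : ℝ)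

lemma C0_ge : 1 ≤ C0 d := by
  unfold C0
  have hd : (1:ℝ) ≤ d := by
    have := NeZero.one_le (n := d)
    exact_mod_cast this
  have := Real.one_le_sqrt.2 hd
  linarith

lemma pk_bound (j : ℕ) : pk (2 * j) (0 : Fin d → ℤ) ≤ (C0 d / Real.sqrt (j + 1)) ^ d := by
  have hd := d_pos (d := d)
  rcases Nat.eq_zero_or_pos j with rfl | hj
  · refine (pk_le_one _ _).trans ?_
    simp only [Nat.cast_zero, zero_add, Real.sqrt_one, div_one]
    exact one_le_pow₀ C0_ge
  · refine (pk_upper hj).trans ?_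
    have hj' : (1:ℝ) ≤ j := by exact_mod_cast hj
    refine pow_le_pow_left₀ (by positivity) ?_ d
    unfold C0
    rw [mul_div_assoc, ← Real.sqrt_div hd.le]
    refine mul_le_mul_of_nonneg_left (Real.sqrt_le_sqrt ?_) (by norm_num)
    rw [div_le_div_iff₀ (by positivity) (by positivity)]
    have hp := Real.pi_lt_four
    have e : (d:ℝ) * (16 * (j / d)) = 16 * j := by field_simp
    rw [e]
    nlinarith [Real.pi_pos]

lemma pk_diff_nonneg (j : ℕ) : 0 ≤ pk (2 * j) (0 : Fin d → ℤ) - pk (2 * (j + 1)) (0 : Fin d → ℤ) :=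
  sub_nonneg.2 (pk_even_anti j 1)

lemma pk_convex (j : ℕ) : pk (2 * (j + 1)) (0 : Fin d → ℤ) - pk (2 * (j + 2)) (0 : Fin d → ℤ) ≤
    pk (2 * j) (0 : Fin d → ℤ) - pk (2 * (j + 1)) (0 : Fin d → ℤ) := by
  simp only [pk_fourier]
  have hi : ∀ n : ℕ, Integrable (fun t => phi t ^ n) (mud d) := fun n =>
    phi_int (fun x => x ^ n) (by fun_prop)
  rw [← integral_sub (hi _) (hi _), ← integral_sub (hi _) (hi _)]
  refine integral_mono ((hi _).sub (hi _)) ((hi _).sub (hi _)) fun t => ?_
  have h1 := phi_abs_le t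
  have h2 : 0 ≤ (phi t ^ j * (1 - phi t ^ 2)) ^ 2 := by positivity
  have e1 : phi t ^ (2 * j) = (phi t ^ j) ^ 2 := by ring
  have e2 : phi t ^ (2 * (j + 1)) = (phi t ^ j) ^ 2 * phi t ^ 2 := by ring
  have e3 : phi t ^ (2 * (j + 2)) = (phi t ^ j) ^ 2 * phi t ^ 4 := by ring
  simp only [e1, e2, e3]
  nlinarith

end Pool.Agent.H111R3
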