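import Pool.Agent.H111R3.SelfI

set_option autoImplicit false
set_option linter.unusedSectionVars false
open Finset Filter

namespace Pool.Agent.H111R3

open Pool.Agent.Helper964.Chg (glue Loc glue_lt glue_add)

variable {d : ℕ} [NeZero d]

lemma pk_two_zero (x : Fin d → ℤ) : pk (2 * 0) x = dl x := by
  rw [mul_zero, pk_zero_time]; rfl

lemma double_sum (n : ℕ) (f : ℕ → ℕ → ℝ) (hf : ∀ i j, f i j = f j i) :
    ∑ i ∈ range n, ∑ j ∈ range n, f i j = ∑ i ∈ range n, f i i +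
      2 * ∑ j ∈ range n, ∑ i ∈ range j, f i j := by
  induction n with
  | zero => simp
  | succ n ih =>
    simp only [Finset.sum_range_succ, Finset.sum_add_distrib]
    rw [ih]
    have : ∑ j ∈ range n, f n j = ∑ i ∈ range n, f i n := Finset.sum_congr rfl fun i _ => hf _ _
    rw [this]
    ring

lemma self_sum (κ n : ℕ) (z : Fin d → ℤ) (e : ℕ → St d) :
    ∑ i ∈ range n, ∑ j ∈ range n, pk (2 * κ) ((z + pos e i) - (z + pos e j)) =
      n * pk (2 * κ) (0 : Fin d → ℤ) + 2 * Jq κ n e := by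
  rw [double_sum]
  · congr 1
    · simp
    · unfold Jq
      congr 1
      refine Finset.sum_congr rfl fun j _ => Finset.sum_congr rfl fun i _ => ?_
      rw [← pk_neg]
      congr 1; abel
  · intro i j
    rw [← pk_neg]
    congr 1; abel

/-- Symmetrized potential along a path. -/
noncomputable def sy (V : (Fin d → ℤ) → ℝ) (n : ℕ) (z : Fin d → ℤ) (e : ℕ → St d) : ℝ :=
  ∑ i ∈ range n, (V (z + pos e i) + V (z + pos e (i + 1))) / 2

open Classical in
/-- Restricted path weight. -/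
noncomputable def FF (V : (Fin d → ℤ) → ℝ) (Λ : Finset (Fin d → ℤ)) (n : ℕ) (z : Fin d → ℤ)
    (e : ℕ → St d) : ℝ := if z + pos e n ∈ Λ then Real.exp (sy V n z e) else 0

/-- Total weight. -/
noncomputable def AA (V : (Fin d → ℤ) → ℝ) (Λ : Finset (Fin d → ℤ)) (n : ℕ) : ℝ :=
  ∑ z ∈ Λ, EE n (FF V Λ n z)

variable (V : (Fin d → ℤ) → ℝ) (Λ : Finset (Fin d → ℤ))

lemma FF_nonneg (n : ℕ) (z : Fin d → ℤ) (e : ℕ → St d) : 0 ≤ FF V Λ n z e := by
  unfold FF; split_ifs
  · exact (Real.exp_pos _).le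
  · exact le_rfl

lemma AA_nonneg (n : ℕ) : 0 ≤ AA V Λ n :=
  Finset.sum_nonneg fun z _ => EE_nonneg n fun e => FF_nonneg V Λ n z e

lemma sy_rv (n : ℕ) (w : Fin d → ℤ) (e : ℕ → St d) :
    sy V n (w + pos e n) (rv n e) = sy V n w e := by
  unfold sy
  rw [← Finset.sum_range_reflect]
  refine Finset.sum_congr rfl fun i hi => ?_
  rw [Finset.mem_range] at hi
  rw [pos_rv (show n - 1 - i ≤ n by omega), pos_rv (show n - 1 - i + 1 ≤ n by omega)]
  rw [show n - (n - 1 - i) = i + 1 by omega, show n - (n - 1 - i + 1) = i by omega]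
  rw [show w + pos e n + (pos e (i + 1) - pos e n) = w + pos e (i + 1) by abel,
    show w + pos e n + (pos e i - pos e n) = w + pos e i by abel]
  ring

lemma sy_glue (n m : ℕ) (w : Fin d → ℤ) (e e' : ℕ → St d) :
    sy V (n + m) w (glue n e e') = sy V n w e + sy V m (w + pos e n) e' := by
  unfold sy
  rw [sum_range_add']
  congr 1
  · refine Finset.sum_congr rfl fun i hi => ?_
    rw [Finset.mem_range] at hi
    rw [pos_glue_le _ _ (show i ≤ n by omega), pos_glue_le _ _ (show i + 1 ≤ n by omega)]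
  · refine Finset.sum_congr rfl fun i hi => ?_
    rw [add_assoc n i 1, pos_glue_add, pos_glue_add, add_assoc w, add_assoc w]

open Classical in
lemma shift_sum (x : Fin d → ℤ) (h : (Fin d → ℤ) → ℝ) :
    ∑ z ∈ Λ, (if z - x ∈ Λ then h z else 0) = ∑ w ∈ Λ, (if w + x ∈ Λ then h (w + x) else 0) := by
  rw [← Finset.sum_filter, ← Finset.sum_filter]
  refine Finset.sum_bij' (fun z _ => z - x) (fun w _ => w + x) ?_ ?_ ?_ ?_ ?_
  · intro z hz
    rw [Finset.mem_filter] at hz ⊢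
    exact ⟨hz.2, by simpa using hz.1⟩
  · intro w hw
    rw [Finset.mem_filter] at hw ⊢
    exact ⟨hw.2, by simpa using hw.1⟩
  · intro z _; simp
  · intro w _; simp
  · intro z _; simp

lemma AA_sq (n : ℕ) : AA V Λ n ^ 2 ≤ (Λ.card : ℝ) * AA V Λ (n + n) := by
  classical
  have h1 : AA V Λ n ^ 2 ≤ (Λ.card : ℝ) * ∑ z ∈ Λ, (EE n (FF V Λ n z)) ^ 2 :=
    sq_sum_le_card_mul_sum_sq
  refine h1.trans (mul_le_mul_of_nonneg_left ?_ (by positivity))
  have h2 : ∑ z ∈ Λ, (EE n (FF V Λ n z)) ^ 2 =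
      EE n (fun e => ∑ w ∈ Λ, if w + pos e n ∈ Λ then
        Real.exp (sy V n w e) * EE n (FF V Λ n (w + pos e n)) else 0) := by
    have e1 : ∀ z, (EE n (FF V Λ n z)) ^ 2 = EE n (fun e => FF V Λ n z e * EE n (FF V Λ n z)) := by
      intro z; rw [EE_mul_right, sq]
    simp only [e1]
    rw [← EE_sum, EE_rv]
    refine EE_congr n fun e => ?_
    have e2 : ∀ z, FF V Λ n z (rv n e) * EE n (FF V Λ n z) = if z - pos e n ∈ Λ then
        Real.exp (sy V n z (rv n e)) * EE n (FF V Λ n z) else 0 := by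
      intro z
      unfold FF
      rw [pos_rv le_rfl]
      simp only [Nat.sub_self, pos_zero, zero_sub, ← sub_eq_add_neg]
      split_ifs
      · rfl
      · rw [zero_mul]
    simp only [e2]
    rw [shift_sum Λ (pos e n) (fun z => Real.exp (sy V n z (rv n e)) * EE n (FF V Λ n z))]
    refine Finset.sum_congr rfl fun w _ => ?_
    simp only [sy_rv]
  rw [h2]
  have h3 : AA V Λ (n + n) = EE n (fun e => ∑ w ∈ Λ,
      Real.exp (sy V n w e) * EE n (FF V Λ n (w + pos e n))) := by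
    unfold AA
    rw [EE_sum]
    refine Finset.sum_congr rfl fun w _ => ?_
    rw [EE_append]
    refine EE_congr n fun e => ?_
    rw [← EE_mul_left]
    refine EE_congr n fun e' => ?_
    unfold FF
    rw [pos_glue_add, sy_glue, ← add_assoc]
    split_ifs
    · rw [Real.exp_add]
    · rw [mul_zero]
  rw [h3]
  refine EE_mono n fun e => Finset.sum_le_sum fun w _ => ?_
  split_ifs
  · exact le_rfl
  · exact mul_nonneg (Real.exp_pos _).le (EE_nonneg n fun e' => FF_nonneg V Λ n _ e')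

lemma AA_iter (n j : ℕ) :
    (Λ.card : ℝ) * AA V Λ n ^ (2 ^ j) ≤ (Λ.card : ℝ) ^ (2 ^ j) * AA V Λ (2 ^ j * n) := by
  induction j with
  | zero => simp
  | succ j ih =>
    rcases Nat.eq_zero_or_pos Λ.card with h0 | h0
    · rw [h0]; simp
    have hc : (0:ℝ) < Λ.card := by exact_mod_cast h0
    have hA := AA_nonneg V Λ n
    have h1 : ((Λ.card : ℝ) * AA V Λ n ^ (2 ^ j)) ^ 2 ≤
        ((Λ.card : ℝ) ^ (2 ^ j) * AA V Λ (2 ^ j * n)) ^ 2 :=
      pow_le_pow_left₀ (by positivity) ih 2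
    have h2 := AA_sq V Λ (2 ^ j * n)
    have h3 : 2 ^ j * n + 2 ^ j * n = 2 ^ (j + 1) * n := by ring
    rw [h3] at h2
    have h4 : (Λ.card : ℝ) * ((Λ.card : ℝ) * AA V Λ n ^ (2 ^ (j + 1))) ≤
        (Λ.card : ℝ) * ((Λ.card : ℝ) ^ (2 ^ (j + 1)) * AA V Λ (2 ^ (j + 1) * n)) := by
      calc (Λ.card : ℝ) * ((Λ.card : ℝ) * AA V Λ n ^ (2 ^ (j + 1)))
          = ((Λ.card : ℝ) * AA V Λ n ^ (2 ^ j)) ^ 2 := by
            rw [pow_succ 2 j, pow_mul (AA V Λ n)]; ring
        _ ≤ ((Λ.card : ℝ) ^ (2 ^ j) * AA V Λ (2 ^ j * n)) ^ 2 := h1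
        _ = ((Λ.card : ℝ) ^ (2 ^ j)) ^ 2 * AA V Λ (2 ^ j * n) ^ 2 := by ring
        _ ≤ ((Λ.card : ℝ) ^ (2 ^ j)) ^ 2 * ((Λ.card : ℝ) * AA V Λ (2 ^ (j + 1) * n)) := by gcongr
        _ = _ := by rw [pow_succ 2 j, pow_mul (Λ.card : ℝ)]; ring
    exact le_of_mul_le_mul_left h4 hc

/-- Quadratic bound for the interaction of a path with a potential. -/
lemma quad {ι : Type*} (s : Finset ι) (κ n : ℕ) (y : ι → (Fin d → ℤ)) (c : ι → ℝ) {β : ℝ}
    (hβ : 0 < β) (z : Fin d → ℤ) (e : ℕ → St d) :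
    ∑ i ∈ range n, ∑ a ∈ s, c a * pk (2 * κ) (z + pos e i - y a) ≤
      (β / 2) * (n + 2 * Jq 0 n e) +
      (1 / (2 * β)) * ∑ a ∈ s, ∑ a' ∈ s, c a * c a' * pk (2 * κ) (y a - y a') := by
  have h1 := (PD_pk (d := d) κ).fam ((range n).disjSum s)
    (Sum.elim (fun i => z + pos e i) y) (Sum.elim (fun _ => β) (fun a => - c a))
  simp only [Finset.sum_disjSum, Sum.elim_inl, Sum.elim_inr] at h1
  have h2 : ∑ i ∈ range n, ∑ j ∈ range n, pk (2 * κ) ((z + pos e i) - (z + pos e j)) ≤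
      n + 2 * Jq 0 n e := by
    have h3 := (PD_dl_sub (d := d) κ).fam (range n) (fun i => z + pos e i) (fun _ => (1:ℝ))
    have h4 := self_sum (d := d) 0 n z e
    simp only [pk_two_zero] at h4
    have h5 : dl (0 : Fin d → ℤ) = 1 := by simp [dl]
    rw [h5, mul_one] at h4
    rw [← h4]
    simp only [one_mul, Finset.sum_sub_distrib] at h3
    linarith
  set X := ∑ i ∈ range n, ∑ j ∈ range n, pk (2 * κ) ((z + pos e i) - (z + pos e j)) with hX
  set Y := ∑ i ∈ range n, ∑ a ∈ s, c a * pk (2 * κ) (z + pos e i - y a) with hY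
  set Z := ∑ a ∈ s, ∑ a' ∈ s, c a * c a' * pk (2 * κ) (y a - y a') with hZ
  have h6 : ∑ i ∈ range n, (∑ j ∈ range n, β * β * pk (2 * κ) (z + pos e i - (z + pos e j)) +
      ∑ a ∈ s, β * -c a * pk (2 * κ) (z + pos e i - y a)) +
      ∑ a ∈ s, (∑ i ∈ range n, -c a * β * pk (2 * κ) (y a - (z + pos e i)) +
      ∑ a' ∈ s, -c a * -c a' * pk (2 * κ) (y a - y a')) = β ^ 2 * X - 2 * β * Y + Z := by
    rw [Finset.sum_add_distrib, Finset.sum_add_distrib]
    have e1 : ∑ i ∈ range n, ∑ j ∈ range n, β * β * pk (2 * κ) (z + pos e i - (z + pos e j)) =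
        β ^ 2 * X := by
      rw [hX, Finset.mul_sum]
      refine Finset.sum_congr rfl fun i _ => ?_
      rw [Finset.mul_sum]
      exact Finset.sum_congr rfl fun j _ => by ring
    have e2 : ∑ i ∈ range n, ∑ a ∈ s, β * -c a * pk (2 * κ) (z + pos e i - y a) = - β * Y := by
      rw [hY, Finset.mul_sum]
      refine Finset.sum_congr rfl fun i _ => ?_
      rw [Finset.mul_sum]
      exact Finset.sum_congr rfl fun j _ => by ring
    have e3 : ∑ a ∈ s, ∑ i ∈ range n, -c a * β * pk (2 * κ) (y a - (z + pos e i)) = - β * Y := by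
      rw [Finset.sum_comm, hY, Finset.mul_sum]
      refine Finset.sum_congr rfl fun i _ => ?_
      rw [Finset.mul_sum]
      refine Finset.sum_congr rfl fun a _ => ?_
      rw [← pk_neg (2 * κ) (y a - (z + pos e i)), neg_sub]
      ring
    have e4 : ∑ a ∈ s, ∑ a' ∈ s, -c a * -c a' * pk (2 * κ) (y a - y a') = Z := by
      rw [hZ]
      exact Finset.sum_congr rfl fun i _ => Finset.sum_congr rfl fun j _ => by ring
    rw [e1, e2, e3, e4]; ring
  rw [h6] at h1
  have h7 : Y ≤ (β / 2) * X + (1 / (2 * β)) * Z := by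
    have : (β / 2) * X + (1 / (2 * β)) * Z - Y = (1 / (2 * β)) * (β ^ 2 * X - 2 * β * Y + Z) := by
      field_simp; ring
    have h8 : 0 ≤ (1 / (2 * β)) * (β ^ 2 * X - 2 * β * Y + Z) := by positivity
    linarith
  refine h7.trans ?_
  gcongr

variable {V Λ}

lemma sy_le (hV : ∀ x, 0 ≤ V x) (n : ℕ) (z : Fin d → ℤ) (e : ℕ → St d) :
    sy V n z e ≤ ∑ i ∈ range (n + 1), V (z + pos e i) := by
  have h : sy V n z e = (∑ i ∈ range n, V (z + pos e i) + ∑ i ∈ range n, V (z + pos e (i + 1))) / 2 := by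
    unfold sy
    rw [← Finset.sum_add_distrib, Finset.sum_div]
  have h1 : ∑ i ∈ range (n + 1), V (z + pos e i) = ∑ i ∈ range n, V (z + pos e i) + V (z + pos e n) :=
    Finset.sum_range_succ _ _
  have h2 : ∑ i ∈ range (n + 1), V (z + pos e i) = ∑ i ∈ range n, V (z + pos e (i + 1)) +
    V (z + pos e 0) := Finset.sum_range_succ' _ _
  have h3 := hV (z + pos e n)
  have h4 := hV (z + pos e 0)
  rw [h]
  linarith

lemma le_sy {S : ℝ} (hV : ∀ x, 0 ≤ V x) (hS : ∀ x, V x ≤ S) (n : ℕ) (z : Fin d → ℤ)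
    (e : ℕ → St d) : ∑ i ∈ range n, V (z + pos e i) ≤ sy V n z e + S / 2 := by
  have h : sy V n z e = (∑ i ∈ range n, V (z + pos e i) + ∑ i ∈ range n, V (z + pos e (i + 1))) / 2 := by
    unfold sy
    rw [← Finset.sum_add_distrib, Finset.sum_div]
  have h1 : ∑ i ∈ range (n + 1), V (z + pos e i) = ∑ i ∈ range n, V (z + pos e i) + V (z + pos e n) :=
    Finset.sum_range_succ _ _
  have h2 : ∑ i ∈ range (n + 1), V (z + pos e i) = ∑ i ∈ range n, V (z + pos e (i + 1)) +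
    V (z + pos e 0) := Finset.sum_range_succ' _ _
  have h3 := hV (z + pos e n)
  have h4 := hS (z + pos e 0)
  rw [h]
  linarith

/-- The growth bound. -/
lemma L_growth {b' : ℝ} (hb : 0 < b')
    (hH : ∀ c : ℝ, 1 < c → ∀ᶠ N : ℕ in atTop,
      EE N (fun e => Real.exp ((b' / N) * Jq (d := d) 0 (N + 1) e)) ≤ c ^ N)
    {ι : Type*} (s : Finset ι) (κ : ℕ) (y : ι → (Fin d → ℤ)) (c : ι → ℝ) (hc : ∀ a, 0 ≤ c a)
    (Λ : Finset (Fin d → ℤ)) (n : ℕ) (hn : 1 ≤ n) :
    AA (fun x => ∑ a ∈ s, c a * pk (2 * κ) (x - y a)) Λ n ≤ (Λ.card : ℝ) *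
      Real.exp ((n / (2 * b')) * ∑ a ∈ s, ∑ a' ∈ s, c a * c a' * pk (2 * κ) (y a - y a')) := by
  set V : (Fin d → ℤ) → ℝ := fun x => ∑ a ∈ s, c a * pk (2 * κ) (x - y a) with hVdef
  set Q := ∑ a ∈ s, ∑ a' ∈ s, c a * c a' * pk (2 * κ) (y a - y a') with hQ
  have hV : ∀ x, 0 ≤ V x := fun x => Finset.sum_nonneg fun a _ => mul_nonneg (hc a) (pk_nonneg _ _)
  rcases Nat.eq_zero_or_pos Λ.card with h0 | h0
  · have : Λ = ∅ := Finset.card_eq_zero.1 h0
    rw [h0, this]
    simp [AA]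
  have hcard : (0:ℝ) < Λ.card := by exact_mod_cast h0
  -- bound at large times
  have hbig : ∀ c1 : ℝ, 1 < c1 → ∀ᶠ N : ℕ in atTop, AA V Λ N ≤
      (Λ.card : ℝ) * (Real.exp b' * c1 ^ N * Real.exp ((N / (2 * b')) * Q)) := by
    intro c1 hc1
    filter_upwards [hH c1 hc1, eventually_ge_atTop 1] with N hN hN1
    have hN0 : (0:ℝ) < N := by exact_mod_cast hN1
    have hN1' : (1:ℝ) ≤ N := by exact_mod_cast hN1
    have h1 : ∀ z : Fin d → ℤ, EE N (FF V Λ N z) ≤ Real.exp b' * c1 ^ N *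
        Real.exp ((N / (2 * b')) * Q) := by
      intro z
      have h2 : ∀ e : ℕ → St d, FF V Λ N z e ≤ Real.exp b' * Real.exp ((N / (2 * b')) * Q) *
          Real.exp ((b' / N) * Jq 0 (N + 1) e) := by
        intro e
        have h3 : FF V Λ N z e ≤ Real.exp (sy V N z e) := by
          unfold FF; split_ifs
          · exact le_rfl
          · exact (Real.exp_pos _).le
        refine h3.trans ?_
        rw [← Real.exp_add, ← Real.exp_add]
        refine Real.exp_le_exp.2 ?_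
        have h4 := (sy_le hV N z e).trans (quad s κ (N + 1) y c (β := b' / N) (by positivity) z e)
        refine h4.trans ?_
        push_cast
        have e1 : 1 / (2 * (b' / N)) = N / (2 * b') := by field_simp
        rw [e1]
        have e2 : b' / N / 2 * ((N:ℝ) + 1 + 2 * Jq 0 (N + 1) e) =
          b' * (((N:ℝ) + 1) / (2 * N)) + b' / N * Jq 0 (N + 1) e := by field_simp
        rw [e2]
        have e3 : ((N:ℝ) + 1) / (2 * N) ≤ 1 := by
          rw [div_le_one (by positivity)]; linarith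
        have e4 : b' * (((N:ℝ) + 1) / (2 * N)) ≤ b' := by nlinarith
        linarith
      refine (EE_mono N h2).trans ?_
      rw [EE_mul_left]
      calc Real.exp b' * Real.exp ((N / (2 * b')) * Q) *
            EE N (fun e => Real.exp ((b' / N) * Jq 0 (N + 1) e))
          ≤ Real.exp b' * Real.exp ((N / (2 * b')) * Q) * c1 ^ N := by gcongr
        _ = _ := by ring
    unfold AA
    refine (Finset.sum_le_sum fun z _ => h1 z).trans_eq ?_
    rw [Finset.sum_const, nsmul_eq_mul]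
  -- conclusion for every c1
  have hall : ∀ c1 : ℝ, 1 < c1 → AA V Λ n ≤ (Λ.card : ℝ) *
      (c1 ^ n * Real.exp ((n / (2 * b')) * Q)) := by
    intro c1 hc1
    set R := (Λ.card : ℝ) * (c1 ^ n * Real.exp ((n / (2 * b')) * Q)) with hR
    have hR0 : 0 < R := by positivity
    by_contra hcon
    push Not at hcon
    set x := AA V Λ n / R with hx
    have hx1 : 1 < x := by rw [hx, one_lt_div hR0]; exact hcon
    have hj : Tendsto (fun j : ℕ => 2 ^ j * n) atTop atTop := by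
      have h1 : Tendsto (fun j : ℕ => 2 ^ j) atTop atTop :=
        tendsto_pow_atTop_atTop_of_one_lt (by norm_num)
      exact h1.atTop_mul_const' (by omega)
    have hev := hj.eventually (hbig c1 hc1)
    have hle : ∀ᶠ j : ℕ in atTop, x ^ (2 ^ j) ≤ Real.exp b' := by
      filter_upwards [hev] with j hj
      have h1 := AA_iter V Λ n j
      have h2 : (Λ.card : ℝ) * AA V Λ n ^ (2 ^ j) ≤ (Λ.card : ℝ) ^ (2 ^ j) * ((Λ.card : ℝ) *
          (Real.exp b' * c1 ^ (2 ^ j * n) *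
            Real.exp ((((2 ^ j * n : ℕ) : ℝ) / (2 * b')) * Q))) := by
        refine h1.trans ?_
        gcongr
      have h3 : R ^ (2 ^ j) = (Λ.card : ℝ) ^ (2 ^ j) * (c1 ^ (2 ^ j * n) *
          Real.exp ((((2 ^ j * n : ℕ) : ℝ) / (2 * b')) * Q)) := by
        rw [hR, mul_pow, mul_pow, ← pow_mul, ← Real.exp_nat_mul, mul_comm n (2 ^ j)]
        congr 3
        push_cast
        ring
      rw [hx, div_pow, div_le_iff₀ (by positivity), h3]
      have h4 : (Λ.card : ℝ) * AA V Λ n ^ (2 ^ j) ≤ (Λ.card : ℝ) * (Real.exp b' *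
          ((Λ.card : ℝ) ^ (2 ^ j) * (c1 ^ (2 ^ j * n) *
          Real.exp ((((2 ^ j * n : ℕ) : ℝ) / (2 * b')) * Q)))) := by
        refine h2.trans_eq ?_
        ring
      exact le_of_mul_le_mul_left h4 hcard
    have htop : Tendsto (fun j : ℕ => x ^ (2 ^ j)) atTop atTop :=
      (tendsto_pow_atTop_atTop_of_one_lt hx1).comp
        (tendsto_pow_atTop_atTop_of_one_lt (by norm_num : 1 < 2))
    have h5 := htop.eventually_gt_atTop (Real.exp b')
    obtain ⟨j, hj1, hj2⟩ := (hle.and h5).exists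
    linarith
  -- let c1 → 1
  have hlim : Tendsto (fun c1 : ℝ => (Λ.card : ℝ) * (c1 ^ n * Real.exp ((n / (2 * b')) * Q)))
      (nhdsWithin 1 (Set.Ioi 1)) (nhds ((Λ.card : ℝ) * (1 ^ n * Real.exp ((n / (2 * b')) * Q)))) := by
    refine Tendsto.mono_left ?_ nhdsWithin_le_nhds
    exact Continuous.tendsto (by fun_prop) 1
  rw [one_pow, one_mul] at hlim
  refine ge_of_tendsto hlim ?_
  filter_upwards [self_mem_nhdsWithin] with c1 hc1
  exact hall c1 hc1

end Pool.Agent.H111R3
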