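import Pool.Agent.H111R3.PD

set_option autoImplicit false
set_option linter.unusedSectionVars false
open Finset

namespace Pool.Agent.H111R3

variable {d : ℕ} [NeZero d]

/-- Heat kernel. -/
noncomputable def pk (n : ℕ) (x : Fin d → ℤ) : ℝ := EE n (fun e => if pos e n = x then (1:ℝ) else 0)

lemma pk_nonneg (n : ℕ) (x : Fin d → ℤ) : 0 ≤ pk n x :=
  EE_nonneg n fun e => by split_ifs <;> norm_num

lemma pk_le_one (n : ℕ) (x : Fin d → ℤ) : pk n x ≤ 1 := by
  refine (EE_mono n (g := fun _ => 1) fun e => ?_).trans_eq (EE_const n 1)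
  split_ifs <;> norm_num

lemma EE_pos_add (m n : ℕ) (H : (Fin d → ℤ) → ℝ) :
    EE m (fun e => EE n (fun e' => H (pos e m + pos e' n))) =
      EE (m + n) (fun e => H (pos e (m + n))) := by
  rw [EE_append]
  refine EE_congr m fun e => EE_congr n fun e' => ?_
  rw [pos_glue_add]

lemma EE_pos_neg (n : ℕ) (H : (Fin d → ℤ) → ℝ) :
    EE n (fun e => H (- pos e n)) = EE n (fun e => H (pos e n)) := by
  rw [EE_rv n (fun e => H (pos e n))]
  refine EE_congr n fun e => ?_
  rw [pos_rv le_rfl]
  simp

lemma pk_neg (n : ℕ) (x : Fin d → ℤ) : pk n (-x) = pk n x := by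
  unfold pk
  rw [← EE_pos_neg n (fun y => if y = -x then (1:ℝ) else 0)]
  exact EE_congr n fun e => by simp

lemma pk_zero_time (x : Fin d → ℤ) : pk 0 x = if x = 0 then 1 else 0 := by
  unfold pk
  rw [EE_zero]
  simp [eq_comm]

/-- Chapman–Kolmogorov. -/
lemma pk_CK (m n : ℕ) (x : Fin d → ℤ) : EE m (fun e => pk n (x + pos e m)) = pk (m + n) x := by
  have h := EE_pos_add m n (fun y => if y = x then (1:ℝ) else 0)
  unfold pk
  rw [← h, ← EE_pos_neg m (fun y => EE n (fun e' => if y + pos e' n = x then (1:ℝ) else 0))]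
  refine EE_congr m fun e => EE_congr n fun e' => ?_
  congr 1
  rw [eq_iff_iff]
  constructor
  · intro h; rw [h]; abel
  · intro h; rw [← h]; abel

/-- Indicator that x is zero, viewed as kernel. -/
noncomputable def dl (x : Fin d → ℤ) : ℝ := if x = 0 then 1 else 0

lemma PD_dl : PD (fun x y : Fin d → ℤ => dl (x - y)) := by
  have := PD.eqk (Ω := Fin d → ℤ)
  unfold dl
  simpa [sub_eq_zero] using this

/-- even-time kernel is PD. -/
lemma PD_pk (k : ℕ) : PD (fun x y : Fin d → ℤ => pk (2 * k) (x - y)) := by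
  refine PD.mk' (fun x y => by rw [← pk_neg]; simp) fun s c => ?_
  have h := (PD_dl (d := d)).avg s c k (fun e x => x + pos e k)
  refine h.trans_eq ?_
  refine Finset.sum_congr rfl fun x _ => Finset.sum_congr rfl fun y _ => ?_
  congr 1
  have h2 := EE_diff k k (dl (d := d)) (y - x)
  have h3 : pk (2 * k) (x - y) = EE (k + k) (fun e => dl ((y - x) + pos e (k + k))) := by
    unfold pk dl
    rw [two_mul]
    refine EE_congr _ fun e => ?_
    congr 1
    rw [eq_iff_iff]
    constructor
    · intro h; rw [h]; abel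
    · intro h
      have : pos e (k + k) = - (y - x) := by
        rw [eq_neg_iff_add_eq_zero, add_comm]; exact h
      rw [this]; abel
  rw [h3, ← h2]
  rw [EE_comm]
  rw [EE_comm]
  refine EE_congr k fun e => EE_congr k fun e' => ?_
  unfold dl
  congr 1
  rw [eq_iff_iff]
  constructor
  · intro h
    have : x + pos e k = y + pos e' k := sub_eq_zero.1 h
    have h5 : y - x + pos e' k - pos e k = (y + pos e' k) - (x + pos e k) := by abel
    rw [h5, this]; abel
  · intro h
    have h5 : x + pos e k - (y + pos e' k) = - (y - x + pos e' k - pos e k) := by abel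
    rw [h5, h]; simp

/-- delta minus even-time kernel is PD. -/
lemma PD_dl_sub (k : ℕ) : PD (fun x y : Fin d → ℤ => dl (x - y) - pk (2 * k) (x - y)) := by
  have hsy : ∀ x y : Fin d → ℤ, dl (x - y) = dl (y - x) := fun x y => (PD_dl (d := d)).symm x y
  refine PD.mk' (fun x y => ?_) fun s c => ?_
  · rw [hsy, ← pk_neg]; simp
  · have h1 : ∀ a : Fin d → ℤ, 0 ≤ ∑ x ∈ s, ∑ y ∈ s, c x * c y *
        (dl (x - y) - (dl (x + a - y) + dl (y + a - x)) / 2) := by
      intro a
      have h := (PD_dl (d := d)).fam ((Finset.univ : Finset Bool) ×ˢ s)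
        (fun p => if p.1 then p.2 + a else p.2) (fun p => if p.1 then - c p.2 else c p.2)
      rw [Finset.sum_product_right] at h
      simp only [Finset.sum_product_right, Fintype.sum_bool, if_true, Bool.false_eq_true,
        if_false] at h
      have h2 : ∑ y ∈ s, (∑ x ∈ s, (-c y * -c x * dl (y + a - (x + a)) + -c y * c x * dl (y + a - x))
          + ∑ x ∈ s, (c y * -c x * dl (y - (x + a)) + c y * c x * dl (y - x)))
          = 2 * ∑ x ∈ s, ∑ y ∈ s, c x * c y *
            (dl (x - y) - (dl (x + a - y) + dl (y + a - x)) / 2) := by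
        rw [Finset.mul_sum]
        refine Finset.sum_congr rfl fun x _ => ?_
        rw [Finset.mul_sum, ← Finset.sum_add_distrib]
        refine Finset.sum_congr rfl fun y _ => ?_
        rw [show x + a - (y + a) = x - y by abel, hsy x (y + a)]
        ring
      have h' := h.trans_eq h2
      linarith
    have h3 := EE_nonneg (2 * k) (f := fun e => ∑ x ∈ s, ∑ y ∈ s, c x * c y *
        (dl (x - y) - (dl (x + pos e (2 * k) - y) + dl (y + pos e (2 * k) - x)) / 2))
        (fun e => h1 _)
    refine h3.trans_eq ?_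
    rw [EE_sum]
    refine Finset.sum_congr rfl fun x _ => ?_
    rw [EE_sum]
    refine Finset.sum_congr rfl fun y _ => ?_
    rw [EE_mul_left]
    congr 1
    have h4 : ∀ x y : Fin d → ℤ, EE (2 * k) (fun e => dl (x + pos e (2 * k) - y)) =
        pk (2 * k) (x - y) := by
      intro x y
      rw [← pk_neg]
      unfold pk dl
      refine EE_congr _ fun e => ?_
      congr 1
      rw [eq_iff_iff]
      constructor
      · intro h
        have : pos e (2 * k) = y - x := by
          have h9 : x + pos e (2 * k) - y = pos e (2 * k) - (y - x) := by abel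
          rw [h9] at h
          exact sub_eq_zero.1 h
        rw [this]; abel
      · intro h; rw [h]; abel
    rw [EE_sub, EE_const]
    have h5 : EE (2 * k) (fun e => (dl (x + pos e (2 * k) - y) + dl (y + pos e (2 * k) - x)) / 2)
        = pk (2 * k) (x - y) := by
      simp only [div_eq_mul_inv]
      rw [EE_mul_right, EE_add, h4, h4, ← pk_neg (2 * k) (y - x)]
      rw [show -(y - x) = x - y by abel]
      ring
    rw [h5]

lemma pk_even_le (k : ℕ) (x : Fin d → ℤ) : pk (2 * k) x ≤ pk (2 * k) (0 : Fin d → ℤ) := by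
  have h := (PD_pk (d := d) k).fam (Finset.univ : Finset Bool) (fun b => if b then x else 0)
    (fun b => if b then 1 else -1)
  simp only [Fintype.sum_bool, if_true, Bool.false_eq_true, if_false] at h
  simp only [sub_self, sub_zero, zero_sub, pk_neg] at h
  linarith

lemma pk_le (n : ℕ) (x : Fin d → ℤ) : pk n x ≤ pk (2 * (n / 2)) (0 : Fin d → ℤ) := by
  rcases Nat.even_or_odd' n with ⟨k, hk | hk⟩
  · have : n / 2 = k := by omega
    rw [this, hk]; exact pk_even_le k x
  · have : n / 2 = k := by omega
    rw [this, hk, show 2 * k + 1 = 1 + 2 * k by ring, ← pk_CK]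
    exact (EE_mono 1 fun e => pk_even_le k _).trans_eq (EE_const 1 _)

lemma pk_even_anti (k j : ℕ) : pk (2 * (k + j)) (0 : Fin d → ℤ) ≤ pk (2 * k) (0 : Fin d → ℤ) := by
  rw [show 2 * (k + j) = 2 * j + 2 * k by ring, ← pk_CK]
  exact (EE_mono _ fun e => pk_even_le k _).trans_eq (EE_const _ _)

/-- Parity of a point. -/
def par (x : Fin d → ℤ) : ZMod 2 := ((∑ i, x i : ℤ) : ZMod 2)

lemma par_pos (e : ℕ → St d) (n : ℕ) : par (pos e n) = (n : ZMod 2) := by
  induction n with
  | zero => simp [par]
  | succ n ih =>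
    have h1 : par (pos e (n + 1)) = par (pos e n) + par (stp (e n)) := by
      rw [pos_succ]; unfold par; simp [Finset.sum_add_distrib]
    have h2 : par (stp (e n)) = 1 := by
      unfold par stp
      simp only [Finset.sum_pi_single', Finset.mem_univ, if_true]
      split_ifs
      · simp
      · decide
    rw [h1, ih, h2]; push_cast; ring

lemma pk_par {n : ℕ} {x : Fin d → ℤ} (h : par x ≠ (n : ZMod 2)) : pk n x = 0 := by
  unfold pk
  have : (fun e : ℕ → St d => if pos e n = x then (1:ℝ) else 0) = fun _ => 0 := by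
    funext e
    rw [if_neg]
    intro h'
    exact h (h' ▸ par_pos e n)
  rw [this]
  exact EE_const n 0

lemma pk_odd (k : ℕ) : pk (2 * k + 1) (0 : Fin d → ℤ) = 0 := by
  refine pk_par ?_
  have : par (0 : Fin d → ℤ) = 0 := by simp [par]
  rw [this]
  push_cast
  rw [show (2 : ZMod 2) = 0 by decide]
  simp

end Pool.Agent.H111R3
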