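import Pool.Agent.H111R3.Num

set_option autoImplicit false
set_option linter.unusedSectionVars false
open Finset

namespace Pool.Agent.H111R3

open Pool.Agent.Helper964.Chg (glue Loc glue_lt glue_add)

lemma PD.prod {Ω ι : Type*} (s : Finset ι) (K : ι → Ω → Ω → ℝ) (h : ∀ a, PD (K a)) :
    PD (fun x y => ∏ a ∈ s, K a x y) := by
  classical
  induction s using Finset.induction_on with
  | empty => simpa using PD.one
  | insert a s ha ih =>
    simp only [Finset.prod_insert ha]
    exact (h a).mul ih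

lemma PD.zero {Ω : Type*} : PD (fun _ _ : Ω => (0 : ℝ)) :=
  PD.mk' (fun _ _ => rfl) fun s c => by simp

lemma PD.prod_sub {Ω ι : Type*} (s : Finset ι) (A B : ι → Ω → Ω → ℝ) (hA : ∀ a, PD (A a))
    (hB : ∀ a, PD (B a)) (h : ∀ a, PD (fun x y => B a x y - A a x y)) :
    PD (fun x y => ∏ a ∈ s, B a x y - ∏ a ∈ s, A a x y) := by
  classical
  induction s using Finset.induction_on with
  | empty => simpa using PD.zero
  | insert a s ha ih =>
    have h1 := ((h a).mul (PD.prod s B hB)).add ((hA a).mul ih)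
    convert h1 using 3
    simp only [Finset.prod_insert ha]
    ring

variable {d : ℕ} [NeZero d]

/-- interaction of two walks -/
noncomputable def Xr (r : (Fin d → ℤ) → ℝ) (M M' : ℕ) (z : Fin d → ℤ) (e e' : ℕ → St d) : ℝ :=
  ∑ i ∈ range M, ∑ j ∈ range M', r (z + pos e' j - pos e i)

lemma PD.even {r : (Fin d → ℤ) → ℝ} (hr : PD (fun x y => r (x - y))) (x : Fin d → ℤ) :
    r (-x) = r x := by
  have := hr.symm 0 x
  simpa using this

lemma disp (r : (Fin d → ℤ) → ℝ) (hr : PD (fun x y => r (x - y))) (k L M M' : ℕ)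
    (z : Fin d → ℤ) {t : ℝ} (ht : 0 < t) :
    EE L (fun e => EE L (fun e' => Xr r M M' z e e' ^ k)) ≤
      (t * EE L (fun e => EE L (fun e' => Xr r M M 0 e e' ^ k)) +
        t⁻¹ * EE L (fun e => EE L (fun e' => Xr r M' M' 0 e e' ^ k))) / 2 := by
  have hev := PD.even hr
  have hK := (hr.push (fun c : ℕ × (Fin d → ℤ) × (ℕ → St d) => range c.1)
    (fun c i => c.2.1 + pos c.2.2 i)).pow k
  have h := hK.avg (Finset.univ : Finset Bool)
    (fun b => if b then Real.sqrt t else - (Real.sqrt t)⁻¹) L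
    (fun e b => if b then (M, 0, e) else (M', z, e))
  simp only [Fintype.sum_bool, if_true, Bool.false_eq_true, if_false] at h
  have h1 : EE L (fun e => EE L (fun e' => (∑ i ∈ range M, ∑ j ∈ range M,
      r (0 + pos e i - (0 + pos e' j))) ^ k)) =
      EE L (fun e => EE L (fun e' => Xr r M M 0 e e' ^ k)) := by
    refine EE_congr L fun e => EE_congr L fun e' => ?_
    unfold Xr
    congr 1
    refine Finset.sum_congr rfl fun i _ => Finset.sum_congr rfl fun j _ => ?_
    rw [← hev]; congr 1; abel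
  have h2 : EE L (fun e => EE L (fun e' => (∑ i ∈ range M', ∑ j ∈ range M',
      r (z + pos e i - (z + pos e' j))) ^ k)) =
      EE L (fun e => EE L (fun e' => Xr r M' M' 0 e e' ^ k)) := by
    refine EE_congr L fun e => EE_congr L fun e' => ?_
    unfold Xr
    congr 1
    refine Finset.sum_congr rfl fun i _ => Finset.sum_congr rfl fun j _ => ?_
    rw [← hev]; congr 1; abel
  have h3 : EE L (fun e => EE L (fun e' => (∑ i ∈ range M, ∑ j ∈ range M',
      r (0 + pos e i - (z + pos e' j))) ^ k)) =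
      EE L (fun e => EE L (fun e' => Xr r M M' z e e' ^ k)) := by
    refine EE_congr L fun e => EE_congr L fun e' => ?_
    unfold Xr
    congr 1
    refine Finset.sum_congr rfl fun i _ => Finset.sum_congr rfl fun j _ => ?_
    rw [← hev]; congr 1; abel
  have h4 : EE L (fun e => EE L (fun e' => (∑ i ∈ range M', ∑ j ∈ range M,
      r (z + pos e i - (0 + pos e' j))) ^ k)) =
      EE L (fun e => EE L (fun e' => Xr r M M' z e e' ^ k)) := by
    rw [EE_comm]
    refine EE_congr L fun e => EE_congr L fun e' => ?_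
    unfold Xr
    congr 1
    rw [Finset.sum_comm]
    refine Finset.sum_congr rfl fun i _ => Finset.sum_congr rfl fun j _ => ?_
    congr 1; abel
  rw [h1, h2, h3, h4] at h
  have hs : Real.sqrt t * Real.sqrt t = t := Real.mul_self_sqrt ht.le
  have hs0 : Real.sqrt t ≠ 0 := (Real.sqrt_pos.2 ht).ne'
  have hs2 : -(Real.sqrt t)⁻¹ * -(Real.sqrt t)⁻¹ = t⁻¹ := by
    rw [neg_mul_neg, ← mul_inv, hs]
  have hs3 : Real.sqrt t * -(Real.sqrt t)⁻¹ = -1 := by
    rw [mul_neg, mul_inv_cancel₀ hs0]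
  have hs4 : -(Real.sqrt t)⁻¹ * Real.sqrt t = -1 := by
    rw [neg_mul, inv_mul_cancel₀ hs0]
  rw [hs, hs2, hs3, hs4] at h
  linarith

/-- Cube of index tuples. -/
def cube (k M : ℕ) : Finset (Fin k → ℕ) := Fintype.piFinset (fun _ => range M)

open Classical in
/-- Monotone index tuples. -/
noncomputable def mono (k M : ℕ) : Finset (Fin k → ℕ) := (cube k M).filter Monotone

lemma mem_cube {k M : ℕ} {I : Fin k → ℕ} : I ∈ cube k M ↔ ∀ a, I a < M := by
  simp [cube]

lemma mem_mono {k M : ℕ} {I : Fin k → ℕ} : I ∈ mono k M ↔ (∀ a, I a < M) ∧ Monotone I := by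
  simp [mono, mem_cube]

/-- Multi-point function. -/
noncomputable def Fr (ψ : ℕ → (Fin d → ℤ) → ℝ) (k L1 L2 : ℕ) (z : Fin d → ℤ) (I J : Fin k → ℕ) :
    ℝ :=
  EE L1 (fun e => EE L2 (fun e' => ∏ a : Fin k, ψ a (z + pos e' (J a) - pos e (I a))))

lemma Xr_pow (r : (Fin d → ℤ) → ℝ) (M k : ℕ) (z : Fin d → ℤ) (e e' : ℕ → St d) :
    Xr r M M z e e' ^ k = ∑ I ∈ cube k M, ∑ J ∈ cube k M,
      ∏ a : Fin k, r (z + pos e' (J a) - pos e (I a)) := by
  have h1 : Xr r M M z e e' ^ k = ∏ _a : Fin k, ∑ i ∈ range M, ∑ j ∈ range M,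
      r (z + pos e' j - pos e i) := by
    simp [Xr]
  rw [h1, Finset.prod_univ_sum]
  unfold cube
  refine Finset.sum_congr rfl fun I _ => ?_
  rw [Finset.prod_univ_sum]

lemma sortsum (k M : ℕ) (φ : (Fin k → ℕ) → ℝ) (hφ : ∀ I ∈ mono k M, 0 ≤ φ I) :
    ∑ I ∈ cube k M, φ (I ∘ Tuple.sort I) ≤ (k.factorial : ℝ) * ∑ I ∈ mono k M, φ I := by
  classical
  have hin : ∀ (I : Fin k → ℕ) (σ : Equiv.Perm (Fin k)), I ∈ cube k M → I ∘ σ ∈ cube k M := by
    intro I σ hI
    rw [mem_cube] at hI ⊢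
    intro a; exact hI _
  calc ∑ I ∈ cube k M, φ (I ∘ Tuple.sort I)
      ≤ ∑ I ∈ cube k M, ∑ σ : Equiv.Perm (Fin k), if Monotone (I ∘ σ) then φ (I ∘ σ) else 0 := by
        refine Finset.sum_le_sum fun I hI => ?_
        have h := Finset.single_le_sum (s := (Finset.univ : Finset (Equiv.Perm (Fin k))))
          (f := fun σ : Equiv.Perm (Fin k) => if Monotone (I ∘ σ) then φ (I ∘ σ) else 0) (fun σ _ => by
            split_ifs with hm
            · exact hφ _ (mem_mono.2 ⟨mem_cube.1 (hin I σ hI), hm⟩)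
            · exact le_rfl) (Finset.mem_univ (Tuple.sort I))
        simp only [Tuple.monotone_sort, if_true] at h
        exact h
    _ = ∑ σ : Equiv.Perm (Fin k), ∑ I ∈ cube k M, if Monotone (I ∘ σ) then φ (I ∘ σ) else 0 :=
        Finset.sum_comm
    _ = ∑ σ : Equiv.Perm (Fin k), ∑ I ∈ mono k M, φ I := by
        refine Finset.sum_congr rfl fun σ _ => ?_
        unfold mono
        rw [Finset.sum_filter]
        refine Finset.sum_bij' (fun I _ => I ∘ σ) (fun I _ => I ∘ σ.symm) ?_ ?_ ?_ ?_ ?_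
        · intro I hI; exact hin I σ hI
        · intro I hI; exact hin I σ.symm hI
        · intro I _; funext a; simp
        · intro I _; funext a; simp
        · intro I _; rfl
    _ = _ := by
        rw [Finset.sum_const, Finset.card_univ, Fintype.card_perm, Fintype.card_fin, nsmul_eq_mul]

lemma Fr_perm (r : (Fin d → ℤ) → ℝ) (k L1 L2 : ℕ) (z : Fin d → ℤ) (I J : Fin k → ℕ)
    (σ : Equiv.Perm (Fin k)) : Fr (fun _ => r) k L1 L2 z (I ∘ σ) (J ∘ σ) =
      Fr (fun _ => r) k L1 L2 z I J := by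
  unfold Fr
  refine EE_congr L1 fun e => EE_congr L2 fun e' => ?_
  exact Equiv.prod_comp σ (fun a => r (z + pos e' (J a) - pos e (I a)))

lemma cube_perm_sum (k M : ℕ) (φ : (Fin k → ℕ) → ℝ) (σ : Equiv.Perm (Fin k)) :
    ∑ J ∈ cube k M, φ (J ∘ σ) = ∑ J ∈ cube k M, φ J := by
  have hin : ∀ (I : Fin k → ℕ) (σ : Equiv.Perm (Fin k)), I ∈ cube k M → I ∘ σ ∈ cube k M := by
    intro I σ hI
    rw [mem_cube] at hI ⊢
    intro a; exact hI _
  refine Finset.sum_bij' (fun I _ => I ∘ σ) (fun I _ => I ∘ σ.symm) ?_ ?_ ?_ ?_ ?_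
  · intro I hI; exact hin I σ hI
  · intro I hI; exact hin I σ.symm hI
  · intro I _; funext a; simp
  · intro I _; funext a; simp
  · intro I _; rfl

/-- Main symmetrization lemma. -/
lemma T_lemma (r : (Fin d → ℤ) → ℝ) (hr : PD (fun x y => r (x - y)))
    (ψ : ℕ → (Fin d → ℤ) → ℝ) (hψ : ∀ a, PD (fun x y => ψ a (x - y)))
    (hsub : ∀ a, PD (fun x y => ψ a (x - y) - r (x - y))) (k M L : ℕ)
    (hpos : ∀ I ∈ mono k M, ∀ J ∈ mono k M, 0 ≤ Fr ψ k L L 0 I J) :
    EE L (fun e => EE L (fun e' => Xr r M M 0 e e' ^ k)) ≤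
      (k.factorial : ℝ) ^ 2 * ∑ I ∈ mono k M, ∑ J ∈ mono k M, Fr ψ k L L 0 I J := by
  classical
  have hev := PD.even hr
  have hevψ := fun a => PD.even (hψ a)
  have hA : EE L (fun e => EE L (fun e' => Xr r M M 0 e e' ^ k)) =
      ∑ I ∈ cube k M, ∑ J ∈ cube k M, Fr (fun _ => r) k L L 0 I J := by
    unfold Fr
    simp only [Xr_pow, EE_sum]
  rw [hA]
  set G := Fr (fun _ => r) k L L 0 with hG
  -- step B
  have hB : ∑ I ∈ cube k M, ∑ J ∈ cube k M, G I J ≤
      ∑ I ∈ cube k M, ∑ J ∈ cube k M, G (I ∘ Tuple.sort I) (J ∘ Tuple.sort J) := by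
    have hK : PD (fun x y : Fin k → (Fin d → ℤ) => ∏ a, r (x a - y a)) :=
      PD.prod Finset.univ (fun a (x y : Fin k → (Fin d → ℤ)) => r (x a - y a))
        (fun a => hr.comp (fun x : Fin k → (Fin d → ℤ) => x a))
    have h := hK.avg ((Finset.univ : Finset Bool) ×ˢ cube k M)
      (fun p => if p.1 then (1:ℝ) else -1) L
      (fun e p a => pos e (if p.1 then p.2 (Tuple.sort p.2 a) else p.2 a))
    rw [Finset.sum_product_right] at h
    simp only [Finset.sum_product_right, Fintype.sum_bool, if_true, Bool.false_eq_true,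
      if_false] at h
    have hg : ∀ I J : Fin k → ℕ, EE L (fun e => EE L (fun e' =>
        ∏ a, r (pos e (I a) - pos e' (J a)))) = G I J := by
      intro I J
      rw [hG]
      unfold Fr
      refine EE_congr L fun e => EE_congr L fun e' => Finset.prod_congr rfl fun a _ => ?_
      rw [← hev]; congr 1; abel
    have hg1 := fun I J : Fin k → ℕ => hg (I ∘ Tuple.sort I) (J ∘ Tuple.sort J)
    have hg2 := fun I J : Fin k → ℕ => hg (I ∘ Tuple.sort I) J
    have hg3 := fun I J : Fin k → ℕ => hg I (J ∘ Tuple.sort J)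
    simp only [Function.comp_apply] at hg1 hg2 hg3
    simp only [hg, hg1, hg2, hg3] at h
    have hp1 : ∀ I, ∑ J ∈ cube k M, G (I ∘ Tuple.sort I) J = ∑ J ∈ cube k M, G I J := by
      intro I
      rw [← cube_perm_sum k M (fun J => G (I ∘ Tuple.sort I) J) (Tuple.sort I)]
      refine Finset.sum_congr rfl fun J _ => ?_
      rw [hG, Fr_perm]
    have hp2 : ∀ J, ∑ I ∈ cube k M, G I (J ∘ Tuple.sort J) = ∑ I ∈ cube k M, G I J := by
      intro J
      rw [← cube_perm_sum k M (fun I => G I (J ∘ Tuple.sort J)) (Tuple.sort J)]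
      refine Finset.sum_congr rfl fun I _ => ?_
      rw [hG, Fr_perm]
    have e1 : ∀ I, ∑ J ∈ cube k M, (1 * 1 * G (I ∘ Tuple.sort I) (J ∘ Tuple.sort J)
        + 1 * -1 * G (I ∘ Tuple.sort I) J) +
        ∑ J ∈ cube k M, (-1 * 1 * G I (J ∘ Tuple.sort J) + -1 * -1 * G I J)
        = ∑ J ∈ cube k M, G (I ∘ Tuple.sort I) (J ∘ Tuple.sort J)
          - ∑ J ∈ cube k M, G I (J ∘ Tuple.sort J) := by
      intro I
      rw [Finset.sum_add_distrib, Finset.sum_add_distrib]
      simp only [← Finset.mul_sum, hp1]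
      ring
    have h' : 0 ≤ ∑ I ∈ cube k M, (∑ J ∈ cube k M, (1 * 1 * G (I ∘ Tuple.sort I) (J ∘ Tuple.sort J)
        + 1 * -1 * G (I ∘ Tuple.sort I) J) +
        ∑ J ∈ cube k M, (-1 * 1 * G I (J ∘ Tuple.sort J) + -1 * -1 * G I J)) := h
    simp only [e1] at h'
    rw [Finset.sum_sub_distrib] at h'
    have e2 : ∑ I ∈ cube k M, ∑ J ∈ cube k M, G I (J ∘ Tuple.sort J) =
        ∑ I ∈ cube k M, ∑ J ∈ cube k M, G I J := by
      rw [Finset.sum_comm]
      simp only [hp2]
      rw [Finset.sum_comm]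
    rw [e2] at h'
    linarith
  -- step C
  have hC : ∑ I ∈ cube k M, ∑ J ∈ cube k M, G (I ∘ Tuple.sort I) (J ∘ Tuple.sort J) ≤
      ∑ I ∈ cube k M, ∑ J ∈ cube k M, Fr ψ k L L 0 (I ∘ Tuple.sort I) (J ∘ Tuple.sort J) := by
    have hK : PD (fun x y : Fin k → (Fin d → ℤ) => ∏ a : Fin k, ψ a (x a - y a)
        - ∏ a, r (x a - y a)) :=
      PD.prod_sub Finset.univ (fun a (x y : Fin k → (Fin d → ℤ)) => r (x a - y a))
        (fun (a : Fin k) (x y : Fin k → (Fin d → ℤ)) => ψ a (x a - y a))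
        (fun a => hr.comp (fun x : Fin k → (Fin d → ℤ) => x a))
        (fun a => (hψ a).comp (fun x : Fin k → (Fin d → ℤ) => x a))
        (fun a => (hsub a).comp (fun x : Fin k → (Fin d → ℤ) => x a))
    have h := hK.avg (cube k M) (fun _ => (1:ℝ)) L
      (fun e I a => pos e (I (Tuple.sort I a)))
    have e1 : ∀ I J : Fin k → ℕ, 1 * 1 * EE L (fun e => EE L (fun e' =>
        ∏ a : Fin k, ψ a (pos e (I (Tuple.sort I a)) - pos e' (J (Tuple.sort J a))) -
          ∏ a : Fin k, r (pos e (I (Tuple.sort I a)) - pos e' (J (Tuple.sort J a))))) =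
        Fr ψ k L L 0 (I ∘ Tuple.sort I) (J ∘ Tuple.sort J) -
          G (I ∘ Tuple.sort I) (J ∘ Tuple.sort J) := by
      intro I J
      rw [hG]
      unfold Fr
      rw [← EE_sub, one_mul, one_mul]
      refine EE_congr L fun e => ?_
      rw [← EE_sub]
      refine EE_congr L fun e' => ?_
      congr 1
      · refine Finset.prod_congr rfl fun a _ => ?_
        rw [← hevψ]; congr 1; simp only [Function.comp_apply]; abel
      · refine Finset.prod_congr rfl fun a _ => ?_
        rw [← hev]; congr 1; simp only [Function.comp_apply]; abel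
    simp only [e1, Finset.sum_sub_distrib] at h
    linarith
  refine hB.trans (hC.trans ?_)
  -- step D
  have hD1 : ∑ I ∈ cube k M, ∑ J ∈ cube k M, Fr ψ k L L 0 (I ∘ Tuple.sort I) (J ∘ Tuple.sort J)
      ≤ ∑ I ∈ cube k M, (k.factorial : ℝ) * ∑ J ∈ mono k M, Fr ψ k L L 0 (I ∘ Tuple.sort I) J := by
    refine Finset.sum_le_sum fun I hI => ?_
    refine sortsum k M (fun J => Fr ψ k L L 0 (I ∘ Tuple.sort I) J) fun J hJ => ?_
    refine hpos _ ?_ _ hJ
    rw [mem_mono]
    refine ⟨fun a => ?_, Tuple.monotone_sort I⟩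
    exact mem_cube.1 hI _
  refine hD1.trans ?_
  have hD2 := sortsum k M (fun I => (k.factorial : ℝ) * ∑ J ∈ mono k M, Fr ψ k L L 0 I J)
    (fun I hI => mul_nonneg (by positivity) (Finset.sum_nonneg fun J hJ => hpos I hI J hJ))
  refine hD2.trans_eq ?_
  rw [← Finset.mul_sum]
  ring

lemma sum_mono_succ (k M : ℕ) (φ : (Fin (k + 1) → ℕ) → ℝ) :
    ∑ I ∈ mono (k + 1) M, φ I =
      ∑ i ∈ range M, ∑ I ∈ mono k (M - i), φ (Fin.cons i (fun a => i + I a)) := by
  rw [Finset.sum_sigma']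
  symm
  refine Finset.sum_bij' (fun p _ => Fin.cons p.1 (fun a => p.1 + p.2 a))
    (fun I _ => ⟨I 0, fun a => I a.succ - I 0⟩) ?_ ?_ ?_ ?_ ?_
  · rintro ⟨i, I⟩ h
    rw [Finset.mem_sigma] at h
    obtain ⟨h1, h2⟩ := h
    simp only at h1 h2
    rw [Finset.mem_range] at h1
    rw [mem_mono] at h2 ⊢
    refine ⟨fun a => ?_, ?_⟩
    · refine Fin.cases ?_ (fun a => ?_) a
      · simpa using h1
      · have := h2.1 a
        simp only [Fin.cons_succ]
        omega
    · intro a b hab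
      induction a using Fin.cases with
      | zero =>
        induction b using Fin.cases with
        | zero => exact le_rfl
        | succ b => simp
      | succ a =>
        induction b using Fin.cases with
        | zero => exact absurd hab (by simp)
        | succ b =>
          simp only [Fin.cons_succ]
          have := h2.2 (Fin.succ_le_succ_iff.1 hab)
          omega
  · intro I h
    rw [mem_mono] at h
    rw [Finset.mem_sigma, Finset.mem_range, mem_mono]
    refine ⟨h.1 0, fun a => ?_, fun a b hab => ?_⟩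
    · have := h.1 a.succ
      have := h.2 (Fin.zero_le a.succ)
      have := h.1 0
      simp only
      omega
    · have := h.2 (Fin.succ_le_succ_iff.2 hab)
      simp only
      omega
  · rintro ⟨i, I⟩ _
    simp
  · intro I h
    rw [mem_mono] at h
    funext a
    refine Fin.cases ?_ (fun a => ?_) a
    · simp
    · have := h.2 (Fin.zero_le a.succ)
      simp only [Fin.cons_succ]
      omega
  · rintro ⟨i, I⟩ _
    rfl

lemma Fr_succ (ψ : ℕ → (Fin d → ℤ) → ℝ) (k L1 L2 : ℕ) (z : Fin d → ℤ) (i j : ℕ)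
    (I J : Fin k → ℕ) (hi : i ≤ L1) (hj : j ≤ L2) :
    Fr ψ (k + 1) L1 L2 z (Fin.cons i (fun a => i + I a)) (Fin.cons j (fun a => j + J a)) =
      EE (i + j) (fun e => ψ 0 (z + pos e (i + j)) *
        Fr (fun n => ψ (n + 1)) k (L1 - i) (L2 - j) (z + pos e (i + j)) I J) := by
  obtain ⟨p, rfl⟩ := Nat.exists_eq_add_of_le hi
  obtain ⟨q, rfl⟩ := Nat.exists_eq_add_of_le hj
  rw [Nat.add_sub_cancel_left, Nat.add_sub_cancel_left]
  have h := EE_diff i j (fun w => ψ 0 w * Fr (fun n => ψ (n + 1)) k p q w I J) z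
  rw [← h]
  unfold Fr
  rw [EE_append]
  refine EE_congr i fun e1 => ?_
  have h1 : ∀ e2 : ℕ → St d, EE (j + q) (fun e' => ∏ a : Fin (k + 1), ψ a
      (z + pos e' ((Fin.cons j (fun a => j + J a) : Fin (k + 1) → ℕ) a)
        - pos (glue i e1 e2) ((Fin.cons i (fun a => i + I a) : Fin (k + 1) → ℕ) a))) =
      EE j (fun e1' => ψ 0 (z + pos e1' j - pos e1 i) *
        EE q (fun e2' => ∏ a : Fin k, ψ (a + 1)
          (z + pos e1' j - pos e1 i + pos e2' (J a) - pos e2 (I a)))) := by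
    intro e2
    rw [EE_append]
    refine EE_congr j fun e1' => ?_
    rw [← EE_mul_left]
    refine EE_congr q fun e2' => ?_
    rw [Fin.prod_univ_succ]
    congr 1
    · simp only [Fin.cons_zero, Fin.val_zero]
      rw [pos_glue_le _ _ le_rfl, pos_glue_le _ _ le_rfl]
    · refine Finset.prod_congr rfl fun a _ => ?_
      simp only [Fin.cons_succ, Fin.val_succ]
      rw [pos_glue_add, pos_glue_add]
      congr 1
      abel
  simp only [h1]
  rw [EE_comm]
  refine EE_congr j fun e1' => ?_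
  rw [EE_mul_left]

end Pool.Agent.H111R3
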