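import Pool.Agent.H111R3.Mom

set_option autoImplicit false
set_option linter.unusedSectionVars false
open Finset

namespace Pool.Agent.H111R3

open Pool.Agent.Helper964.Chg (glue Loc glue_lt glue_add)

variable {d : ℕ} [NeZero d]

lemma Fr_zero (ψ : ℕ → (Fin d → ℤ) → ℝ) (L1 L2 : ℕ) (z : Fin d → ℤ) (I J : Fin 0 → ℕ) :
    Fr ψ 0 L1 L2 z I J = 1 := by
  unfold Fr
  simp only [Finset.univ_eq_empty, Finset.prod_empty]
  rw [EE_const, EE_const]

lemma dl_mul (w : Fin d → ℤ) (F : (Fin d → ℤ) → ℝ) : dl w * F w = dl w * F 0 := by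
  unfold dl
  split_ifs with h
  · rw [h]
  · simp

lemma EE_dl (n : ℕ) (w : Fin d → ℤ) : EE n (fun e => dl (w + pos e n)) = pk n w := by
  rw [← pk_neg]
  unfold pk dl
  refine EE_congr n fun e => ?_
  congr 1
  rw [eq_iff_iff]
  constructor
  · intro h; exact eq_neg_of_add_eq_zero_right h
  · intro h; rw [h]; simp

lemma dl_nonneg (w : Fin d → ℤ) : 0 ≤ dl w := by unfold dl; split_ifs <;> norm_num

lemma dl_le_one (w : Fin d → ℤ) : dl w ≤ 1 := by unfold dl; split_ifs <;> norm_num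

lemma Fr_dl_succ (k L1 L2 : ℕ) (i j : ℕ) (I J : Fin k → ℕ) (hi : i ≤ L1) (hj : j ≤ L2) :
    Fr (d := d) (fun _ => dl) (k + 1) L1 L2 0 (Fin.cons i (fun a => i + I a))
      (Fin.cons j (fun a => j + J a)) =
      pk (i + j) (0 : Fin d → ℤ) * Fr (d := d) (fun _ => dl) k (L1 - i) (L2 - j) 0 I J := by
  rw [Fr_succ _ _ _ _ _ _ _ _ _ hi hj]
  have h1 : ∀ e : ℕ → St d, dl (0 + pos e (i + j)) *
      Fr (fun _ => dl) k (L1 - i) (L2 - j) (0 + pos e (i + j)) I J =
      dl (0 + pos e (i + j)) * Fr (fun _ => dl) k (L1 - i) (L2 - j) 0 I J := fun e =>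
    dl_mul _ (fun w => Fr (fun _ => dl) k (L1 - i) (L2 - j) w I J)
  simp only [h1]
  rw [EE_mul_right, EE_dl]

lemma card_mono_zero (M : ℕ) : (mono 0 M).card = 1 := by
  have : mono 0 M = {default} := by
    ext I
    rw [mem_mono, Finset.mem_singleton]
    constructor
    · intro _; exact Subsingleton.elim _ _
    · intro _; exact ⟨fun a => a.elim0, fun a => a.elim0⟩
  rw [this]; rfl

lemma sum_mono_zero (M : ℕ) (φ : (Fin 0 → ℕ) → ℝ) : ∑ I ∈ mono 0 M, φ I = φ default := by
  have h : ∀ I : Fin 0 → ℕ, φ I = φ default := fun I => congrArg φ (Subsingleton.elim _ _)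
  simp only [h]
  rw [Finset.sum_const, card_mono_zero]; simp

lemma sum_mono_succ2 (k M M' : ℕ) (φ : (Fin (k + 1) → ℕ) → (Fin (k + 1) → ℕ) → ℝ) :
    ∑ I ∈ mono (k + 1) M, ∑ J ∈ mono (k + 1) M', φ I J =
      ∑ i ∈ range M, ∑ j ∈ range M', ∑ I ∈ mono k (M - i), ∑ J ∈ mono k (M' - j),
        φ (Fin.cons i (fun a => i + I a)) (Fin.cons j (fun a => j + J a)) := by
  rw [sum_mono_succ]
  refine Finset.sum_congr rfl fun i _ => ?_
  simp only [sum_mono_succ]
  rw [Finset.sum_comm]

lemma S_dl {x : ℝ} (hx0 : 0 < x) (hx1 : x ≤ 1) (R : ℕ) {B : ℝ}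
    (hB : ∑ i ∈ range R, ∑ j ∈ range R, x ^ (i + j) * pk (i + j) (0 : Fin d → ℤ) ≤ B) :
    ∀ k M M' L1 L2 : ℕ, M ≤ R → M' ≤ R → M ≤ L1 → M' ≤ L2 →
      x ^ (M + M') * ∑ I ∈ mono k M, ∑ J ∈ mono k M', Fr (d := d) (fun _ => dl) k L1 L2 0 I J
        ≤ B ^ k := by
  have hB0 : 0 ≤ B := le_trans (Finset.sum_nonneg fun i _ => Finset.sum_nonneg fun j _ =>
    mul_nonneg (by positivity) (pk_nonneg _ _)) hB
  intro k
  induction k with
  | zero =>
    intro M M' L1 L2 _ _ _ _
    simp only [Fr_zero, pow_zero]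
    rw [sum_mono_zero, sum_mono_zero]
    simpa using pow_le_one₀ hx0.le hx1
  | succ k ih =>
    intro M M' L1 L2 hM hM' hL1 hL2
    rw [sum_mono_succ2, Finset.mul_sum]
    simp only [Finset.mul_sum]
    calc ∑ i ∈ range M, ∑ j ∈ range M', ∑ I ∈ mono k (M - i), ∑ J ∈ mono k (M' - j),
          x ^ (M + M') * Fr (d := d) (fun _ => dl) (k + 1) L1 L2 0 (Fin.cons i (fun a => i + I a))
            (Fin.cons j (fun a => j + J a))
        = ∑ i ∈ range M, ∑ j ∈ range M', (x ^ (i + j) * pk (i + j) (0 : Fin d → ℤ)) *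
          (x ^ ((M - i) + (M' - j)) * ∑ I ∈ mono k (M - i), ∑ J ∈ mono k (M' - j),
            Fr (d := d) (fun _ => dl) k (L1 - i) (L2 - j) 0 I J) := by
          refine Finset.sum_congr rfl fun i hi => Finset.sum_congr rfl fun j hj => ?_
          rw [Finset.mem_range] at hi hj
          rw [Finset.mul_sum, Finset.mul_sum]
          refine Finset.sum_congr rfl fun I _ => ?_
          rw [Finset.mul_sum, Finset.mul_sum]
          refine Finset.sum_congr rfl fun J _ => ?_
          rw [Fr_dl_succ _ _ _ _ _ _ _ (by omega) (by omega)]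
          have : M + M' = (i + j) + ((M - i) + (M' - j)) := by omega
          rw [this, pow_add]
          ring
      _ ≤ ∑ i ∈ range M, ∑ j ∈ range M', (x ^ (i + j) * pk (i + j) (0 : Fin d → ℤ)) * B ^ k := by
          refine Finset.sum_le_sum fun i _ => Finset.sum_le_sum fun j _ => ?_
          refine mul_le_mul_of_nonneg_left ?_ (mul_nonneg (by positivity) (pk_nonneg _ _))
          exact ih _ _ _ _ (by omega) (by omega) (by omega) (by omega)
      _ ≤ ∑ i ∈ range R, ∑ j ∈ range R, (x ^ (i + j) * pk (i + j) (0 : Fin d → ℤ)) * B ^ k := by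
          have hn : ∀ i j : ℕ, 0 ≤ (x ^ (i + j) * pk (i + j) (0 : Fin d → ℤ)) * B ^ k := fun i j =>
            mul_nonneg (mul_nonneg (by positivity) (pk_nonneg _ _)) (by positivity)
          refine (Finset.sum_le_sum fun i _ => Finset.sum_le_sum_of_subset_of_nonneg
            (Finset.range_subset_range.2 hM') fun j _ _ => hn i j).trans ?_
          exact Finset.sum_le_sum_of_subset_of_nonneg (Finset.range_subset_range.2 hM)
            fun i _ _ => Finset.sum_nonneg fun j _ => hn i j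
      _ ≤ B ^ (k + 1) := by
          simp only [← Finset.sum_mul]
          rw [pow_succ']
          exact mul_le_mul_of_nonneg_right hB (by positivity)

lemma geom_bound {x : ℝ} (hx0 : 0 ≤ x) (hx1 : x < 1) (n : ℕ) :
    ∑ u ∈ range n, x ^ u ≤ 1 / (1 - x) := by
  rw [le_div_iff₀ (by linarith)]
  have h := mul_neg_geom_sum x n
  have : 0 ≤ x ^ n := by positivity
  linarith

lemma B_dl (hd : 2 ≤ d) {x : ℝ} (hx0 : 0 < x) (hx1 : x < 1) (R : ℕ) :
    ∑ i ∈ range R, ∑ j ∈ range R, x ^ (i + j) * pk (i + j) (0 : Fin d → ℤ) ≤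
      2 * C1 d / (1 - x) := by
  have hC := C1_ge (d := d)
  refine (Finset.sum_le_sum fun i _ => Finset.sum_le_sum fun j _ =>
    mul_le_mul_of_nonneg_left (pk_all hd (i + j) 0) (by positivity)).trans ?_
  have h := sum_pairs R (fun u => x ^ u * (2 * C1 d / ((u : ℝ) + 1))) (fun u => by positivity)
  refine (le_of_eq ?_).trans (h.trans ?_)
  · refine Finset.sum_congr rfl fun i _ => Finset.sum_congr rfl fun j _ => ?_
    rfl
  · have h2 : ∀ u : ℕ, ((u:ℝ) + 1) * (x ^ u * (2 * C1 d / ((u : ℝ) + 1))) = 2 * C1 d * x ^ u := by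
      intro u; field_simp
    simp only [h2]
    rw [← Finset.mul_sum, div_eq_mul_one_div]
    exact mul_le_mul_of_nonneg_left (geom_bound hx0.le hx1 _) (by positivity)

/-- Constant. -/
noncomputable def K3 (d : ℕ) : ℝ := 4 * C1 d * Real.exp 2

lemma K3_ge : 4 ≤ K3 d := by
  unfold K3
  have h1 := C1_ge (d := d)
  have h2 : (1:ℝ) ≤ Real.exp 2 := Real.one_le_exp (by norm_num)
  nlinarith

lemma Xr_dl_nonneg (M M' : ℕ) (z : Fin d → ℤ) (e e' : ℕ → St d) : 0 ≤ Xr dl M M' z e e' :=
  Finset.sum_nonneg fun _ _ => Finset.sum_nonneg fun _ _ => dl_nonneg _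

lemma Xr_dl_le (M M' : ℕ) (z : Fin d → ℤ) (e e' : ℕ → St d) : Xr dl M M' z e e' ≤ M * M' := by
  unfold Xr
  refine (Finset.sum_le_sum fun i _ => Finset.sum_le_sum fun j _ => dl_le_one _).trans ?_
  simp

lemma C3_base (hd : 2 ≤ d) (k M L : ℕ) (hL : M ≤ L) :
    EE L (fun e => EE L (fun e' => Xr (d := d) dl M M 0 e e' ^ k)) ≤
      (k.factorial : ℝ) * (K3 d * M) ^ k := by
  have hK := K3_ge (d := d)
  have hC := C1_ge (d := d)
  rcases Nat.eq_zero_or_pos k with rfl | hk
  · simp only [pow_zero, Nat.factorial_zero, Nat.cast_one, mul_one]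
    rw [EE_const, EE_const]
  have hk' : (0:ℝ) < k := by exact_mod_cast hk
  have hfac : (k:ℝ) ^ k ≤ Real.exp k * k.factorial := by
    have := Real.pow_div_factorial_le_exp (k:ℝ) hk'.le k
    rwa [div_le_iff₀ (by positivity)] at this
  rcases lt_or_ge M k with hkM | hkM
  · -- trivial bound
    have h1 : EE L (fun e => EE L (fun e' => Xr (d := d) dl M M 0 e e' ^ k)) ≤ ((M:ℝ) * M) ^ k := by
      refine (EE_mono L fun e => EE_mono L fun e' => pow_le_pow_left₀ (Xr_dl_nonneg _ _ _ _ _)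
        (Xr_dl_le M M 0 e e') k).trans_eq ?_
      rw [EE_const, EE_const]
    refine h1.trans ?_
    have hM : (M:ℝ) ≤ k := by exact_mod_cast hkM.le
    calc ((M:ℝ) * M) ^ k = (M:ℝ) ^ k * (M:ℝ) ^ k := by rw [mul_pow]
      _ ≤ (M:ℝ) ^ k * (k:ℝ) ^ k := by gcongr
      _ ≤ (M:ℝ) ^ k * (Real.exp k * k.factorial) := by gcongr
      _ = (k.factorial : ℝ) * ((Real.exp 1) ^ k * (M:ℝ) ^ k) := by
          rw [← Real.exp_nat_mul, mul_one]; ring
      _ ≤ (k.factorial : ℝ) * (K3 d ^ k * (M:ℝ) ^ k) := by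
          have : Real.exp 1 ≤ K3 d := by
            have := Real.exp_one_lt_d9
            linarith
          gcongr
      _ = _ := by rw [mul_pow]
  · -- main case
    have hM0 : (0:ℝ) < M := by exact_mod_cast (lt_of_lt_of_le hk hkM)
    have hT := T_lemma (d := d) dl PD_dl (fun _ => dl) (fun _ => PD_dl)
      (fun _ => by simpa using PD.zero) k M L (fun I _ J _ => by
        unfold Fr
        exact EE_nonneg L fun e => EE_nonneg L fun e' => Finset.prod_nonneg fun a _ => dl_nonneg _)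
    refine hT.trans ?_
    set t : ℝ := k / M with ht
    have ht0 : 0 < t := by positivity
    have ht1 : t ≤ 1 := by rw [ht, div_le_one hM0]; exact_mod_cast hkM
    set x := Real.exp (-t) with hx
    have hx0 : 0 < x := Real.exp_pos _
    have hx1 : x < 1 := by rw [hx, Real.exp_lt_one_iff]; linarith
    have hx2 : t / 2 ≤ 1 - x := by
      have h1 : x ≤ 1 / (1 + t) := by
        rw [hx, Real.exp_neg, one_div]
        apply inv_anti₀ (by linarith)
        have := Real.add_one_le_exp t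
        linarith
      have h2 : 1 / (1 + t) ≤ 1 - t / 2 := by
        rw [div_le_iff₀ (by linarith)]
        nlinarith
      linarith
    have hS := S_dl (d := d) hx0 hx1.le M (B_dl hd hx0 hx1 M) k M M L L le_rfl le_rfl hL hL
    have hxM : x ^ (M + M) = Real.exp (-(2 * k)) := by
      rw [hx, ← Real.exp_nat_mul]
      congr 1
      rw [ht]; push_cast; field_simp; ring
    rw [hxM, Real.exp_neg] at hS
    have hS' : ∑ I ∈ mono k M, ∑ J ∈ mono k M, Fr (d := d) (fun _ => dl) k L L 0 I J ≤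
        Real.exp (2 * k) * (2 * C1 d / (1 - x)) ^ k := by
      rw [inv_mul_le_iff₀ (Real.exp_pos _)] at hS
      exact hS
    have hq : 2 * C1 d / (1 - x) ≤ 4 * C1 d * (M / k) := by
      rw [div_le_iff₀ (by linarith)]
      calc 2 * C1 d = 4 * C1 d * (M / k) * (t / 2) := by rw [ht]; field_simp; ring
        _ ≤ 4 * C1 d * (M / k) * (1 - x) := by gcongr
    calc (k.factorial : ℝ) ^ 2 * ∑ I ∈ mono k M, ∑ J ∈ mono k M,
          Fr (d := d) (fun _ => dl) k L L 0 I J
        ≤ (k.factorial : ℝ) ^ 2 * (Real.exp (2 * k) * (4 * C1 d * (M / k)) ^ k) := by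
          have : 0 ≤ 2 * C1 d / (1 - x) := div_nonneg (by linarith) (by linarith)
          refine mul_le_mul_of_nonneg_left (hS'.trans ?_) (by positivity)
          gcongr
      _ = (k.factorial : ℝ) * ((k.factorial : ℝ) / (k:ℝ) ^ k) * (K3 d * M) ^ k := by
          have : Real.exp (2 * k) = Real.exp 2 ^ k := by
            rw [← Real.exp_nat_mul]; congr 1; ring
          rw [this]
          unfold K3
          rw [mul_pow, mul_pow, mul_pow, mul_pow, mul_pow, div_pow]
          field_simp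
      _ ≤ (k.factorial : ℝ) * 1 * (K3 d * M) ^ k := by
          have : (k.factorial : ℝ) / (k:ℝ) ^ k ≤ 1 := by
            rw [div_le_one (by positivity)]
            exact_mod_cast Nat.factorial_le_pow k
          have : 0 ≤ K3 d * M := by positivity
          gcongr
      _ = _ := by ring

/-- Moment bound with displacement. -/
lemma C3 (hd : 2 ≤ d) (k M M' L : ℕ) (hL : M ≤ L) (hL' : M' ≤ L) (z : Fin d → ℤ) :
    EE L (fun e => EE L (fun e' => Xr (d := d) dl M M' z e e' ^ k)) ≤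
      (k.factorial : ℝ) * (K3 d * Real.sqrt (M * M')) ^ k := by
  have hK := K3_ge (d := d)
  rcases Nat.eq_zero_or_pos M with rfl | hM
  · have : ∀ e e' : ℕ → St d, Xr (d := d) dl 0 M' z e e' = 0 := by intro e e'; simp [Xr]
    simp only [this]
    rcases Nat.eq_zero_or_pos k with rfl | hk
    · simp only [pow_zero, Nat.factorial_zero, Nat.cast_one, mul_one]
      rw [EE_const, EE_const]
    · simp only [zero_pow hk.ne']
      rw [EE_const, EE_const]
      simp [hk.ne']
  rcases Nat.eq_zero_or_pos M' with rfl | hM'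
  · have : ∀ e e' : ℕ → St d, Xr (d := d) dl M 0 z e e' = 0 := by intro e e'; simp [Xr]
    simp only [this]
    rcases Nat.eq_zero_or_pos k with rfl | hk
    · simp only [pow_zero, Nat.factorial_zero, Nat.cast_one, mul_one]
      rw [EE_const, EE_const]
    · simp only [zero_pow hk.ne']
      rw [EE_const, EE_const]
      simp [hk.ne']
  have hm : (0:ℝ) < M := by exact_mod_cast hM
  have hm' : (0:ℝ) < M' := by exact_mod_cast hM'
  set s := Real.sqrt (M' / M) with hs
  have hs0 : 0 < s := Real.sqrt_pos.2 (by positivity)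
  have hs1 : s * M = Real.sqrt (M * M') := by
    rw [hs, ← Real.sqrt_sq hm.le, ← Real.sqrt_mul (by positivity)]
    congr 1
    rw [Real.sqrt_sq hm.le]
    field_simp
  have hs2 : s⁻¹ * M' = Real.sqrt (M * M') := by
    rw [inv_mul_eq_iff_eq_mul₀ hs0.ne', hs, ← Real.sqrt_mul (by positivity)]
    have : (M':ℝ) / M * (M * M') = (M' : ℝ) ^ 2 := by field_simp
    rw [this, Real.sqrt_sq hm'.le]
  refine (disp dl PD_dl k L M M' z (t := s ^ k) (by positivity)).trans ?_
  have h1 := C3_base hd k M L hL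
  have h2 := C3_base hd k M' L hL'
  have e1 : s ^ k * ((k.factorial : ℝ) * (K3 d * M) ^ k) =
      (k.factorial : ℝ) * (K3 d * Real.sqrt (M * M')) ^ k := by
    rw [← hs1]; rw [mul_pow, mul_pow, mul_pow]; ring
  have e2 : (s ^ k)⁻¹ * ((k.factorial : ℝ) * (K3 d * M') ^ k) =
      (k.factorial : ℝ) * (K3 d * Real.sqrt (M * M')) ^ k := by
    rw [← hs2, ← inv_pow]; rw [mul_pow, mul_pow, mul_pow]; ring
  have h3 := mul_le_mul_of_nonneg_left h1 (show 0 ≤ s ^ k by positivity)
  have h4 := mul_le_mul_of_nonneg_left h2 (show 0 ≤ (s ^ k)⁻¹ by positivity)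
  rw [e1] at h3
  rw [e2] at h4
  linarith

end Pool.Agent.H111R3
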