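import Pool.Agent.H111R3.Mom2

set_option autoImplicit false
set_option linter.unusedSectionVars false
open Finset

namespace Pool.Agent.H111R3

open Pool.Agent.Helper964.Chg (glue Loc glue_lt glue_add)

variable {d : ℕ} [NeZero d]

/-- Rough part. -/
noncomputable def rr (κ : ℕ) (x : Fin d → ℤ) : ℝ := dl x - pk (2 * κ) x

/-- Alternating kernels. -/
noncomputable def alt (κ : ℕ) (a : ℕ) : (Fin d → ℤ) → ℝ := if Even a then rr κ else dl

/-- Link weight. -/
noncomputable def KK (d : ℕ) [NeZero d] (κ u v : ℕ) : ℝ :=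
  EE (d := d) u (fun e => rr κ (pos e u) * pk v (pos e u))

lemma PD_rr (κ : ℕ) : PD (fun x y : Fin d → ℤ => rr κ (x - y)) := PD_dl_sub κ

lemma PD_alt (κ a : ℕ) : PD (fun x y : Fin d → ℤ => alt κ a (x - y)) := by
  unfold alt
  split_ifs
  · exact PD_rr κ
  · exact PD_dl

lemma PD_alt_sub (κ a : ℕ) : PD (fun x y : Fin d → ℤ => alt κ a (x - y) - rr κ (x - y)) := by
  unfold alt
  split_ifs
  · simpa using PD.zero
  · have := PD_pk (d := d) κ
    convert this using 3
    unfold rr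
    ring

lemma alt_shift (κ : ℕ) : (fun n => alt (d := d) κ (n + 1 + 1)) = alt κ := by
  funext n
  unfold alt
  have : Even (n + 1 + 1) ↔ Even n := by
    rw [show n + 1 + 1 = n + 2 by ring]
    exact Nat.even_add.trans (by simp)
  simp only [this]

lemma Fr_alt (κ k L1 L2 i i' j j' : ℕ) (I J : Fin k → ℕ) (hi : i ≤ L1) (hi' : i' ≤ L1 - i)
    (hj : j ≤ L2) (hj' : j' ≤ L2 - j) :
    Fr (d := d) (alt κ) (k + 1 + 1) L1 L2 0
      (Fin.cons i (fun a => i + (Fin.cons i' (fun a => i' + I a) : Fin (k + 1) → ℕ) a))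
      (Fin.cons j (fun a => j + (Fin.cons j' (fun a => j' + J a) : Fin (k + 1) → ℕ) a))
      = KK d κ (i + j) (i' + j') * Fr (d := d) (alt κ) k (L1 - i - i') (L2 - j - j') 0 I J := by
  rw [Fr_succ _ _ _ _ _ _ _ _ _ hi hj]
  unfold KK
  rw [← EE_mul_right]
  refine EE_congr _ fun e => ?_
  rw [Fr_succ _ _ _ _ _ _ _ _ _ hi' hj']
  simp only [zero_add]
  rw [alt_shift]
  have h0 : alt (d := d) κ 0 = rr κ := by simp [alt]
  have h1 : alt (d := d) κ 1 = dl := by simp [alt]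
  rw [h0, h1]
  have h2 : ∀ e' : ℕ → St d, dl (pos e (i + j) + pos e' (i' + j')) *
      Fr (alt κ) k (L1 - i - i') (L2 - j - j') (pos e (i + j) + pos e' (i' + j')) I J =
      dl (pos e (i + j) + pos e' (i' + j')) * Fr (alt κ) k (L1 - i - i') (L2 - j - j') 0 I J :=
    fun e' => dl_mul _ (fun w => Fr (alt κ) k (L1 - i - i') (L2 - j - j') w I J)
  simp only [h2]
  rw [EE_mul_right, EE_dl]
  ring

lemma swap_kernel (u w : ℕ) (g : (Fin d → ℤ) → ℝ) :
    EE u (fun e => pk w (pos e u) * g (pos e u)) = EE w (fun e => pk u (pos e w) * g (pos e w)) := by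
  have h1 : ∀ e : ℕ → St d, pk w (pos e u) * g (pos e u) =
      EE w (fun e' => (if pos e' w = pos e u then (1:ℝ) else 0) * g (pos e u)) := by
    intro e
    rw [EE_mul_right]; rfl
  have h2 : ∀ e : ℕ → St d, pk u (pos e w) * g (pos e w) =
      EE u (fun e' => (if pos e' u = pos e w then (1:ℝ) else 0) * g (pos e w)) := by
    intro e
    rw [EE_mul_right]; rfl
  simp only [h1, h2]
  rw [EE_comm]
  refine EE_congr w fun e => EE_congr u fun e' => ?_
  by_cases h : pos e w = pos e' u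
  · simp [h]
  · simp [h, Ne.symm h]

lemma par_zero : par (0 : Fin d → ℤ) = 0 := by simp [par]

lemma two_zmod : (2 : ZMod 2) = 0 := by decide

lemma KK_odd_left (κ i v : ℕ) : KK d κ (2 * i + 1) v = 0 := by
  unfold KK
  have : ∀ e : ℕ → St d, rr κ (pos e (2 * i + 1)) * pk v (pos e (2 * i + 1)) = 0 := by
    intro e
    have h1 : par (pos e (2 * i + 1)) = 1 := by
      rw [par_pos]; push_cast; rw [two_zmod]; simp
    have h2 : rr κ (pos e (2 * i + 1)) = 0 := by
      unfold rr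
      rw [pk_par (by rw [h1]; push_cast; rw [two_zmod]; simp)]
      unfold dl
      rw [if_neg]
      · simp
      · intro h0
        rw [h0, par_zero] at h1
        exact absurd h1 (by decide)
    rw [h2, zero_mul]
  simp only [this]
  exact EE_const _ _

lemma KK_odd_right (κ i j : ℕ) : KK d κ (2 * i) (2 * j + 1) = 0 := by
  unfold KK
  have : ∀ e : ℕ → St d, rr κ (pos e (2 * i)) * pk (2 * j + 1) (pos e (2 * i)) = 0 := by
    intro e
    have h1 : par (pos e (2 * i)) = 0 := by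
      rw [par_pos]; push_cast; rw [two_zmod]; simp
    rw [pk_par (n := 2 * j + 1) (by rw [h1]; push_cast; rw [two_zmod]; simp)]
    rw [mul_zero]
  simp only [this]
  exact EE_const _ _

lemma KK_even (κ i j : ℕ) : KK d κ (2 * i) (2 * j) =
    EE (d := d) (2 * κ) (fun e => pk (2 * i) (0 : Fin d → ℤ) * pk (2 * j) (0 : Fin d → ℤ) -
      pk (2 * i) (pos e (2 * κ)) * pk (2 * j) (pos e (2 * κ))) := by
  unfold KK rr
  simp only [sub_mul]
  rw [EE_sub, EE_sub, EE_const]
  rw [swap_kernel (2 * i) (2 * κ) (pk (2 * j))]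
  congr 1
  have : ∀ e : ℕ → St d, dl (pos e (2 * i)) * pk (2 * j) (pos e (2 * i)) =
      dl (0 + pos e (2 * i)) * pk (2 * j) (0 : Fin d → ℤ) := by
    intro e
    rw [zero_add]
    exact dl_mul _ _
  simp only [this]
  rw [EE_mul_right, EE_dl]

lemma KK_nonneg (κ u v : ℕ) : 0 ≤ KK d κ u v := by
  rcases Nat.even_or_odd' u with ⟨i, rfl | rfl⟩
  · rcases Nat.even_or_odd' v with ⟨j, rfl | rfl⟩
    · rw [KK_even]
      refine EE_nonneg _ fun e => ?_
      have h1 := pk_even_le (d := d) i (pos e (2 * κ))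
      have h2 := pk_even_le (d := d) j (pos e (2 * κ))
      have h3 := pk_nonneg (2 * j) (pos e (2 * κ))
      have h4 := pk_nonneg (2 * i) (0 : Fin d → ℤ)
      nlinarith [mul_le_mul h1 h2 h3 h4]
    · rw [KK_odd_right]
  · rw [KK_odd_left]

/-- bound functions -/
noncomputable def bb (d : ℕ) (u : ℕ) : ℝ := 2 * C1 d / (u + 1)
/-- bound functions -/
noncomputable def cc (d κ : ℕ) (v : ℕ) : ℝ := 6 * C1 d * Real.sqrt κ / ((v + 1) * Real.sqrt (v + 1))

lemma bb_nonneg (u : ℕ) : 0 ≤ bb d u := by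
  unfold bb; have := C1_ge (d := d); positivity

lemma cc_nonneg (κ u : ℕ) : 0 ≤ cc d κ u := by
  unfold cc; have := C1_ge (d := d); positivity

lemma diff_cc (hd : 2 ≤ d) (j κ : ℕ) :
    pk (2 * j) (0 : Fin d → ℤ) - pk (2 * (j + κ)) (0 : Fin d → ℤ) ≤ cc d κ (2 * j) := by
  refine (diff_bound hd j κ).trans ?_
  unfold cc
  have hC := C1_ge (d := d)
  have hj : (0:ℝ) < (j:ℝ) + 1 := by positivity
  have hv : (0:ℝ) < ((2 * j : ℕ) : ℝ) + 1 := by positivity
  have h2 : ((2 * j : ℕ) : ℝ) + 1 ≤ 2 * ((j:ℝ) + 1) := by push_cast; linarith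
  have h3 : Real.sqrt (((2 * j : ℕ) : ℝ) + 1) ≤ (3 / 2) * Real.sqrt ((j:ℝ) + 1) := by
    rw [show (3/2 : ℝ) = Real.sqrt (9/4) by
      rw [show (9/4 : ℝ) = (3/2) ^ 2 by norm_num, Real.sqrt_sq (by norm_num)],
      ← Real.sqrt_mul (by norm_num)]
    apply Real.sqrt_le_sqrt
    linarith
  have hs : 0 < Real.sqrt ((j:ℝ) + 1) := Real.sqrt_pos.2 hj
  have hs2 : 0 < Real.sqrt (((2 * j : ℕ) : ℝ) + 1) := Real.sqrt_pos.2 hv
  rw [div_le_div_iff₀ (by positivity) (by positivity)]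
  have h4 : (((2 * j : ℕ) : ℝ) + 1) * Real.sqrt (((2 * j : ℕ) : ℝ) + 1) ≤
      (2 * ((j:ℝ) + 1)) * ((3 / 2) * Real.sqrt ((j:ℝ) + 1)) := by gcongr
  have h5 : 0 ≤ 2 * C1 d * Real.sqrt κ := by positivity
  calc 2 * C1 d * Real.sqrt κ * ((((2 * j : ℕ) : ℝ) + 1) * Real.sqrt (((2 * j : ℕ) : ℝ) + 1))
      ≤ 2 * C1 d * Real.sqrt κ * ((2 * ((j:ℝ) + 1)) * ((3 / 2) * Real.sqrt ((j:ℝ) + 1))) := by
        gcongr
    _ = 6 * C1 d * Real.sqrt κ * (((j:ℝ) + 1) * Real.sqrt ((j:ℝ) + 1)) := by ring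

lemma pk_bb (hd : 2 ≤ d) (u : ℕ) (x : Fin d → ℤ) : pk u x ≤ bb d u := pk_all hd u x

lemma KK_le (hd : 2 ≤ d) (κ u v : ℕ) : KK d κ u v ≤ bb d u * cc d κ v + bb d v * cc d κ u := by
  have b1 := bb_nonneg (d := d) u
  have b2 := bb_nonneg (d := d) v
  have c1 := cc_nonneg (d := d) κ u
  have c2 := cc_nonneg (d := d) κ v
  rcases Nat.even_or_odd' u with ⟨i, rfl | rfl⟩
  · rcases Nat.even_or_odd' v with ⟨j, rfl | rfl⟩
    · rw [KK_even]
      have h0 : EE (d := d) (2 * κ) (fun e => pk (2 * i) (0 : Fin d → ℤ) *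
          pk (2 * j) (0 : Fin d → ℤ) - pk (2 * i) (pos e (2 * κ)) * pk (2 * j) (pos e (2 * κ))) ≤
          EE (d := d) (2 * κ) (fun e => pk (2 * i) (0 : Fin d → ℤ) *
            (pk (2 * j) (0 : Fin d → ℤ) - pk (2 * j) (0 + pos e (2 * κ))) +
            pk (2 * j) (0 : Fin d → ℤ) *
            (pk (2 * i) (0 : Fin d → ℤ) - pk (2 * i) (0 + pos e (2 * κ)))) := by
        refine EE_mono _ fun e => ?_
        rw [zero_add]
        have h1 := pk_even_le (d := d) i (pos e (2 * κ))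
        have h2 := pk_even_le (d := d) j (pos e (2 * κ))
        nlinarith [mul_nonneg (sub_nonneg.2 h1) (sub_nonneg.2 h2)]
      refine h0.trans ?_
      rw [EE_add, EE_mul_left, EE_mul_left, EE_sub, EE_sub, EE_const, EE_const, pk_CK, pk_CK]
      have e1 : 2 * κ + 2 * j = 2 * (j + κ) := by ring
      have e2 : 2 * κ + 2 * i = 2 * (i + κ) := by ring
      rw [e1, e2]
      have h3 := diff_cc hd j κ
      have h4 := diff_cc hd i κ
      have h5 := pk_bb hd (2 * i) (0 : Fin d → ℤ)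
      have h6 := pk_bb hd (2 * j) (0 : Fin d → ℤ)
      have h7 := pk_nonneg (2 * i) (0 : Fin d → ℤ)
      have h8 := pk_nonneg (2 * j) (0 : Fin d → ℤ)
      have h9 : 0 ≤ pk (2 * j) (0 : Fin d → ℤ) - pk (2 * (j + κ)) (0 : Fin d → ℤ) :=
        sub_nonneg.2 (pk_even_anti j κ)
      have h10 : 0 ≤ pk (2 * i) (0 : Fin d → ℤ) - pk (2 * (i + κ)) (0 : Fin d → ℤ) :=
        sub_nonneg.2 (pk_even_anti i κ)
      exact add_le_add (mul_le_mul h5 h3 h9 b1) (mul_le_mul h6 h4 h10 b2)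
    · rw [KK_odd_right]; positivity
  · rw [KK_odd_left]; positivity

lemma sum_bb (M : ℕ) : ∑ i ∈ range M, ∑ j ∈ range M, bb d (i + j) ≤ 4 * C1 d * M := by
  refine (sum_pairs M (bb d) bb_nonneg).trans_eq ?_
  have : ∀ u : ℕ, ((u:ℝ) + 1) * bb d u = 2 * C1 d := by
    intro u; unfold bb; field_simp
  simp only [this]
  rw [Finset.sum_const, Finset.card_range, nsmul_eq_mul]
  push_cast; ring

lemma sum_cc (κ M : ℕ) : ∑ i ∈ range M, ∑ j ∈ range M, cc d κ (i + j) ≤
    18 * C1 d * Real.sqrt (κ * M) := by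
  refine (sum_pairs M (cc d κ) (cc_nonneg κ)).trans ?_
  have hC := C1_ge (d := d)
  have : ∀ u : ℕ, ((u:ℝ) + 1) * cc d κ u = 6 * C1 d * Real.sqrt κ * (1 / Real.sqrt ((u:ℝ) + 1)) := by
    intro u; unfold cc
    have : (0:ℝ) < Real.sqrt ((u:ℝ) + 1) := Real.sqrt_pos.2 (by positivity)
    field_simp
  simp only [this]
  rw [← Finset.mul_sum]
  have h := sum_inv_sqrt (2 * M)
  have h2 : Real.sqrt ((2 * M : ℕ) : ℝ) ≤ 3 / 2 * Real.sqrt M := by
    rw [show (3/2 : ℝ) = Real.sqrt (9/4) by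
      rw [show (9/4 : ℝ) = (3/2) ^ 2 by norm_num, Real.sqrt_sq (by norm_num)],
      ← Real.sqrt_mul (by norm_num)]
    apply Real.sqrt_le_sqrt
    push_cast
    have : (0:ℝ) ≤ M := Nat.cast_nonneg M
    linarith
  rw [Real.sqrt_mul (Nat.cast_nonneg κ)]
  calc 6 * C1 d * Real.sqrt κ * ∑ i ∈ range (2 * M), 1 / Real.sqrt ((i:ℝ) + 1)
      ≤ 6 * C1 d * Real.sqrt κ * (2 * (3 / 2 * Real.sqrt M)) := by
        refine mul_le_mul_of_nonneg_left ?_ (by positivity)
        linarith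
    _ = _ := by ring

lemma sum_KK (hd : 2 ≤ d) (κ M : ℕ) :
    ∑ i ∈ range M, ∑ j ∈ range M, ∑ i' ∈ range M, ∑ j' ∈ range M, KK d κ (i + j) (i' + j') ≤
      144 * C1 d ^ 2 * (M * Real.sqrt (κ * M)) := by
  have hC := C1_ge (d := d)
  have h1 : ∑ i ∈ range M, ∑ j ∈ range M, ∑ i' ∈ range M, ∑ j' ∈ range M,
      KK d κ (i + j) (i' + j') ≤
      ∑ i ∈ range M, ∑ j ∈ range M, ∑ i' ∈ range M, ∑ j' ∈ range M,
        (bb d (i + j) * cc d κ (i' + j') + bb d (i' + j') * cc d κ (i + j)) :=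
    Finset.sum_le_sum fun i _ => Finset.sum_le_sum fun j _ => Finset.sum_le_sum fun i' _ =>
      Finset.sum_le_sum fun j' _ => KK_le hd κ _ _
  have h2 : ∑ i ∈ range M, ∑ j ∈ range M, ∑ i' ∈ range M, ∑ j' ∈ range M,
        (bb d (i + j) * cc d κ (i' + j') + bb d (i' + j') * cc d κ (i + j))
      = 2 * ((∑ i ∈ range M, ∑ j ∈ range M, bb d (i + j)) *
        ∑ i ∈ range M, ∑ j ∈ range M, cc d κ (i + j)) := by
    simp only [Finset.sum_add_distrib, ← Finset.mul_sum, ← Finset.sum_mul]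
    ring
  rw [h2] at h1
  refine h1.trans ?_
  have h3 := sum_bb (d := d) M
  have h4 := sum_cc (d := d) κ M
  have h5 : 0 ≤ ∑ i ∈ range M, ∑ j ∈ range M, cc d κ (i + j) :=
    Finset.sum_nonneg fun i _ => Finset.sum_nonneg fun j _ => cc_nonneg _ _
  have h6 := mul_le_mul h3 h4 h5 (by positivity)
  calc 2 * ((∑ i ∈ range M, ∑ j ∈ range M, bb d (i + j)) *
        ∑ i ∈ range M, ∑ j ∈ range M, cc d κ (i + j))
      ≤ 2 * (4 * C1 d * M * (18 * C1 d * Real.sqrt (κ * M))) := by linarith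
    _ = _ := by ring

lemma mono_cons {k M : ℕ} {I : Fin (k + 1) → ℕ} (h : I ∈ mono (k + 1) M) :
    ∃ i < M, ∃ I' ∈ mono k (M - i), I = Fin.cons i (fun a => i + I' a) := by
  rw [mem_mono] at h
  refine ⟨I 0, h.1 0, fun a => I a.succ - I 0, ?_, ?_⟩
  · rw [mem_mono]
    refine ⟨fun a => ?_, fun a b hab => ?_⟩
    · have := h.1 a.succ
      have := h.2 (Fin.zero_le a.succ)
      have := h.1 0
      try simp only
      omega
    · have := h.2 (Fin.succ_le_succ_iff.2 hab)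
      try simp only
      omega
  · funext a
    refine Fin.cases ?_ (fun a => ?_) a
    · simp
    · have := h.2 (Fin.zero_le a.succ)
      simp only [Fin.cons_succ]
      omega

lemma Fr_alt_nonneg (κ : ℕ) : ∀ h M M' L1 L2 : ℕ, M ≤ L1 → M' ≤ L2 →
    ∀ I ∈ mono (2 * h) M, ∀ J ∈ mono (2 * h) M', 0 ≤ Fr (d := d) (alt κ) (2 * h) L1 L2 0 I J := by
  intro h
  induction h with
  | zero =>
    intro M M' L1 L2 _ _ I _ J _
    have : Fr (d := d) (alt κ) (2 * 0) L1 L2 0 I J = 1 := Fr_zero _ _ _ _ _ _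
    rw [this]; norm_num
  | succ h ih =>
    intro M M' L1 L2 hM hM' I hI J hJ
    obtain ⟨i, hi, I1, hI1, rfl⟩ := mono_cons (k := 2 * h + 1) hI
    obtain ⟨i', hi', I2, hI2, rfl⟩ := mono_cons (k := 2 * h) hI1
    obtain ⟨j, hj, J1, hJ1, rfl⟩ := mono_cons (k := 2 * h + 1) hJ
    obtain ⟨j', hj', J2, hJ2, rfl⟩ := mono_cons (k := 2 * h) hJ1
    have := Fr_alt (d := d) κ (2 * h) L1 L2 i i' j j' I2 J2 (by omega) (by omega) (by omega)
      (by omega)
    refine le_of_le_of_eq ?_ this.symm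
    exact mul_nonneg (KK_nonneg _ _ _) (ih _ _ _ _ (by omega) (by omega) _ hI2 _ hJ2)

lemma S_alt (κ R : ℕ) {B : ℝ}
    (hB : ∑ i ∈ range R, ∑ j ∈ range R, ∑ i' ∈ range R, ∑ j' ∈ range R,
      KK d κ (i + j) (i' + j') ≤ B) :
    ∀ h M M' L1 L2 : ℕ, M ≤ R → M' ≤ R → M ≤ L1 → M' ≤ L2 →
      ∑ I ∈ mono (2 * h) M, ∑ J ∈ mono (2 * h) M', Fr (d := d) (alt κ) (2 * h) L1 L2 0 I J
        ≤ B ^ h := by
  have hB0 : 0 ≤ B := le_trans (Finset.sum_nonneg fun i _ => Finset.sum_nonneg fun j _ =>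
    Finset.sum_nonneg fun i' _ => Finset.sum_nonneg fun j' _ => KK_nonneg _ _ _) hB
  intro h
  induction h with
  | zero =>
    intro M M' L1 L2 _ _ _ _
    have : ∀ I J : Fin (2 * 0) → ℕ, Fr (d := d) (alt κ) (2 * 0) L1 L2 0 I J = 1 :=
      fun I J => Fr_zero _ _ _ _ _ _
    simp only [this, pow_zero]
    have h1 : (mono (2 * 0) M).card = 1 := card_mono_zero M
    have h2 : (mono (2 * 0) M').card = 1 := card_mono_zero M'
    rw [Finset.sum_const, Finset.sum_const, h1, h2]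
    simp
  | succ h ih =>
    intro M M' L1 L2 hM hM' hL1 hL2
    have e1 := sum_mono_succ2 (2 * h + 1) M M' (fun I J => Fr (d := d) (alt κ) (2 * h + 1 + 1)
      L1 L2 0 I J)
    have e2 : ∑ I ∈ mono (2 * (h + 1)) M, ∑ J ∈ mono (2 * (h + 1)) M',
        Fr (d := d) (alt κ) (2 * (h + 1)) L1 L2 0 I J =
        ∑ I ∈ mono (2 * h + 1 + 1) M, ∑ J ∈ mono (2 * h + 1 + 1) M',
        Fr (d := d) (alt κ) (2 * h + 1 + 1) L1 L2 0 I J := rfl
    rw [e2, e1]
    have hn : ∀ i j i' j' : ℕ, 0 ≤ KK d κ (i + j) (i' + j') * B ^ h := fun i j i' j' =>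
      mul_nonneg (KK_nonneg _ _ _) (by positivity)
    calc ∑ i ∈ range M, ∑ j ∈ range M', ∑ I ∈ mono (2 * h + 1) (M - i),
          ∑ J ∈ mono (2 * h + 1) (M' - j), Fr (d := d) (alt κ) (2 * h + 1 + 1) L1 L2 0
            (Fin.cons i (fun a => i + I a)) (Fin.cons j (fun a => j + J a))
        ≤ ∑ i ∈ range M, ∑ j ∈ range M', ∑ i' ∈ range R, ∑ j' ∈ range R,
          KK d κ (i + j) (i' + j') * B ^ h := by
          refine Finset.sum_le_sum fun i hi => Finset.sum_le_sum fun j hj => ?_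
          rw [Finset.mem_range] at hi hj
          rw [sum_mono_succ2]
          refine le_trans (b := ∑ i' ∈ range (M - i), ∑ j' ∈ range (M' - j),
            KK d κ (i + j) (i' + j') * B ^ h) ?_ ?_
          · refine Finset.sum_le_sum fun i' hi' => Finset.sum_le_sum fun j' hj' => ?_
            rw [Finset.mem_range] at hi' hj'
            have e3 : ∀ I J : Fin (2 * h) → ℕ, Fr (d := d) (alt κ) (2 * h + 1 + 1) L1 L2 0
              (Fin.cons i (fun a => i + (Fin.cons i' (fun a => i' + I a) : Fin (2 * h + 1) → ℕ) a))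
              (Fin.cons j (fun a => j + (Fin.cons j' (fun a => j' + J a) : Fin (2 * h + 1) → ℕ) a))
              = KK d κ (i + j) (i' + j') * Fr (alt κ) (2 * h) (L1 - i - i') (L2 - j - j') 0 I J :=
              fun I J => Fr_alt κ (2 * h) L1 L2 i i' j j' I J (by omega) (by omega) (by omega)
                (by omega)
            simp only [e3, ← Finset.mul_sum]
            refine mul_le_mul_of_nonneg_left ?_ (KK_nonneg _ _ _)
            exact ih _ _ _ _ (by omega) (by omega) (by omega) (by omega)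
          · refine (Finset.sum_le_sum fun i' _ => Finset.sum_le_sum_of_subset_of_nonneg
              (Finset.range_subset_range.2 (show M' - j ≤ R by omega))
              fun j' _ _ => hn i j i' j').trans ?_
            exact Finset.sum_le_sum_of_subset_of_nonneg
              (Finset.range_subset_range.2 (show M - i ≤ R by omega))
              fun i' _ _ => Finset.sum_nonneg fun j' _ => hn i j i' j'
      _ ≤ ∑ i ∈ range R, ∑ j ∈ range R, ∑ i' ∈ range R, ∑ j' ∈ range R,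
          KK d κ (i + j) (i' + j') * B ^ h := by
          refine (Finset.sum_le_sum fun i _ => Finset.sum_le_sum_of_subset_of_nonneg
            (Finset.range_subset_range.2 hM') fun j _ _ => Finset.sum_nonneg fun i' _ =>
              Finset.sum_nonneg fun j' _ => hn i j i' j').trans ?_
          exact Finset.sum_le_sum_of_subset_of_nonneg (Finset.range_subset_range.2 hM)
            fun i _ _ => Finset.sum_nonneg fun j _ => Finset.sum_nonneg fun i' _ =>
              Finset.sum_nonneg fun j' _ => hn i j i' j'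
      _ ≤ B ^ (h + 1) := by
          simp only [← Finset.sum_mul]
          rw [pow_succ']
          exact mul_le_mul_of_nonneg_right hB (by positivity)

/-- High moments of the rough part are small. -/
lemma C4 (hd : 2 ≤ d) (κ h M L : ℕ) (hL : M ≤ L) (z : Fin d → ℤ) :
    EE L (fun e => EE L (fun e' => Xr (d := d) (rr κ) M M z e e' ^ (2 * h))) ≤
      ((2 * h).factorial : ℝ) ^ 2 * (144 * C1 d ^ 2 * (M * Real.sqrt (κ * M))) ^ h := by
  have h0 := disp (rr (d := d) κ) (PD_rr κ) (2 * h) L M M z (t := 1) one_pos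
  rw [one_mul, inv_one, one_mul, add_self_div_two] at h0
  refine h0.trans ?_
  have hT := T_lemma (d := d) (rr κ) (PD_rr κ) (alt κ) (PD_alt κ) (PD_alt_sub κ) (2 * h) M L
    (fun I hI J hJ => Fr_alt_nonneg κ h M M L L hL hL I hI J hJ)
  refine hT.trans ?_
  refine mul_le_mul_of_nonneg_left ?_ (by positivity)
  exact S_alt κ M (sum_KK hd κ M) h M M L L le_rfl le_rfl hL hL

end Pool.Agent.H111R3
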