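import Pool.Agent.H111R3.Four

set_option autoImplicit false
set_option linter.unusedSectionVars false
open Finset

namespace Pool.Agent.H111R3

variable {d : ℕ} [NeZero d]

/-- Constant. -/
noncomputable def C1 (d : ℕ) : ℝ := C0 d ^ d

lemma C1_ge : 1 ≤ C1 d := one_le_pow₀ C0_ge

lemma a_bound (hd : 2 ≤ d) (j : ℕ) : pk (2 * j) (0 : Fin d → ℤ) ≤ C1 d / (j + 1) := by
  refine (pk_bound j).trans ?_
  rw [div_pow]
  unfold C1
  have h1 : (1:ℝ) ≤ Real.sqrt (j + 1) := by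
    rw [Real.one_le_sqrt]; have : (0:ℝ) ≤ j := Nat.cast_nonneg j; linarith
  have h2 : ((j:ℝ) + 1) ≤ Real.sqrt (j + 1) ^ d := by
    calc ((j:ℝ) + 1) = Real.sqrt (j + 1) ^ 2 := by rw [Real.sq_sqrt (by positivity)]
      _ ≤ Real.sqrt (j + 1) ^ d := pow_le_pow_right₀ h1 hd
  have h3 : (0:ℝ) ≤ C0 d ^ d := by have := C1_ge (d := d); unfold C1 at this; linarith
  gcongr

lemma pk_all (hd : 2 ≤ d) (n : ℕ) (x : Fin d → ℤ) : pk n x ≤ 2 * C1 d / (n + 1) := by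
  refine (pk_le n x).trans ((a_bound hd _).trans ?_)
  have h3 := C1_ge (d := d)
  rw [div_le_div_iff₀ (by positivity) (by positivity)]
  have : (n:ℝ) + 1 ≤ 2 * (((n / 2 : ℕ) : ℝ) + 1) := by
    have : n + 1 ≤ 2 * (n / 2 + 1) := by omega
    exact_mod_cast this
  nlinarith

lemma D_anti (i j : ℕ) (h : i ≤ j) :
    pk (2 * j) (0 : Fin d → ℤ) - pk (2 * (j + 1)) (0 : Fin d → ℤ) ≤
      pk (2 * i) (0 : Fin d → ℤ) - pk (2 * (i + 1)) (0 : Fin d → ℤ) := by
  induction j, h using Nat.le_induction with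
  | base => exact le_rfl
  | succ j _ ih => exact (pk_convex j).trans ih

lemma D_sum (i m : ℕ) :
    (m : ℝ) * (pk (2 * (i + m)) (0 : Fin d → ℤ) - pk (2 * (i + m + 1)) (0 : Fin d → ℤ)) ≤
      pk (2 * i) (0 : Fin d → ℤ) - pk (2 * (i + m)) (0 : Fin d → ℤ) := by
  induction m with
  | zero => simp
  | succ m ih =>
    have h1 := D_anti (d := d) (i + m) (i + m + 1) (by omega)
    have h2 : (m : ℝ) * (pk (2 * (i + m + 1)) (0 : Fin d → ℤ)
        - pk (2 * (i + m + 1 + 1)) (0 : Fin d → ℤ)) ≤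
        (m : ℝ) * (pk (2 * (i + m)) (0 : Fin d → ℤ) - pk (2 * (i + m + 1)) (0 : Fin d → ℤ)) := by
      gcongr
    rw [show i + (m + 1) = i + m + 1 by ring]
    push_cast
    nlinarith

lemma D_bound (hd : 2 ≤ d) (j : ℕ) :
    pk (2 * j) (0 : Fin d → ℤ) - pk (2 * (j + 1)) (0 : Fin d → ℤ) ≤ 4 * C1 d / (j + 1) ^ 2 := by
  have h3 := C1_ge (d := d)
  have h1 := D_sum (d := d) (j / 2) (j - j / 2)
  have e1 : j / 2 + (j - j / 2) = j := by omega
  rw [e1] at h1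
  have h2 := a_bound hd (j / 2)
  have h5 : 0 ≤ pk (2 * (j + 1)) (0 : Fin d → ℤ) := pk_nonneg _ _
  set D := pk (2 * j) (0 : Fin d → ℤ) - pk (2 * (j + 1)) (0 : Fin d → ℤ) with hD
  have hD0 : 0 ≤ D := pk_diff_nonneg j
  have h4 : (((j - j / 2 : ℕ) : ℝ) + 1) * D ≤ C1 d / (((j / 2 : ℕ) : ℝ) + 1) := by
    have : (((j - j / 2 : ℕ) : ℝ) + 1) * D = ((j - j / 2 : ℕ) : ℝ) * D + D := by ring
    rw [this]
    linarith
  have e2 : ((j:ℝ) + 1) / 2 ≤ ((j - j / 2 : ℕ) : ℝ) + 1 := by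
    have : j + 1 ≤ 2 * ((j - j / 2) + 1) := by omega
    have : ((j:ℝ) + 1) ≤ 2 * (((j - j / 2 : ℕ) : ℝ) + 1) := by exact_mod_cast this
    linarith
  have e3 : ((j:ℝ) + 1) / 2 ≤ ((j / 2 : ℕ) : ℝ) + 1 := by
    have : j + 1 ≤ 2 * ((j / 2) + 1) := by omega
    have : ((j:ℝ) + 1) ≤ 2 * (((j / 2 : ℕ) : ℝ) + 1) := by exact_mod_cast this
    linarith
  have hj : (0:ℝ) < (j:ℝ) + 1 := by positivity
  have h6 : ((j:ℝ) + 1) / 2 * D ≤ C1 d / (((j:ℝ) + 1) / 2) := by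
    calc ((j:ℝ) + 1) / 2 * D ≤ (((j - j / 2 : ℕ) : ℝ) + 1) * D := by gcongr
      _ ≤ C1 d / (((j / 2 : ℕ) : ℝ) + 1) := h4
      _ ≤ C1 d / (((j:ℝ) + 1) / 2) := by
          apply div_le_div_of_nonneg_left (by linarith) (by positivity) e3
  rw [le_div_iff₀ (by positivity)]
  rw [le_div_iff₀ (by positivity)] at h6
  nlinarith

lemma diff_le_mul (j k : ℕ) :
    pk (2 * j) (0 : Fin d → ℤ) - pk (2 * (j + k)) (0 : Fin d → ℤ) ≤
      k * (pk (2 * j) (0 : Fin d → ℤ) - pk (2 * (j + 1)) (0 : Fin d → ℤ)) := by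
  induction k with
  | zero => simp
  | succ k ih =>
    have h1 := D_anti (d := d) j (j + k) (by omega)
    rw [show j + (k + 1) = j + k + 1 by ring]
    push_cast
    linarith

/-- Comparison of return probabilities. -/
lemma diff_bound (hd : 2 ≤ d) (j k : ℕ) :
    pk (2 * j) (0 : Fin d → ℤ) - pk (2 * (j + k)) (0 : Fin d → ℤ) ≤
      2 * C1 d * Real.sqrt k / ((j + 1) * Real.sqrt (j + 1)) := by
  have h3 := C1_ge (d := d)
  have hj : (0:ℝ) < (j:ℝ) + 1 := by positivity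
  have hk : (0:ℝ) ≤ (k:ℝ) := by positivity
  set x := pk (2 * j) (0 : Fin d → ℤ) - pk (2 * (j + k)) (0 : Fin d → ℤ) with hx
  have hx0 : 0 ≤ x := sub_nonneg.2 (pk_even_anti j k)
  have h1 : x ≤ C1 d / (j + 1) := by
    have := a_bound hd j
    have : 0 ≤ pk (2 * (j + k)) (0 : Fin d → ℤ) := pk_nonneg _ _
    linarith
  have h2 : x ≤ k * (4 * C1 d / (j + 1) ^ 2) :=
    (diff_le_mul j k).trans (mul_le_mul_of_nonneg_left (D_bound hd j) hk)
  refine abs_le_of_sq_le_sq' ?_ (by positivity) |>.2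
  calc x ^ 2 = x * x := by ring
    _ ≤ (C1 d / (j + 1)) * (k * (4 * C1 d / (j + 1) ^ 2)) := by gcongr
    _ = _ := by
      rw [div_pow, mul_pow, mul_pow, mul_pow, Real.sq_sqrt hk, Real.sq_sqrt hj.le]
      field_simp
      ring

lemma sum_pairs (M : ℕ) (f : ℕ → ℝ) (hf : ∀ u, 0 ≤ f u) :
    ∑ i ∈ range M, ∑ j ∈ range M, f (i + j) ≤ ∑ u ∈ range (2 * M), ((u:ℝ) + 1) * f u := by
  rw [← Finset.sum_product']
  rw [← Finset.sum_fiberwise_of_maps_to (s := range M ×ˢ range M) (t := range (2 * M))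
    (g := fun p => p.1 + p.2)]
  · refine Finset.sum_le_sum fun u _ => ?_
    have h1 : ∑ p ∈ range M ×ˢ range M with p.1 + p.2 = u, f (p.1 + p.2)
        = (((range M ×ˢ range M).filter (fun p => p.1 + p.2 = u)).card : ℝ) * f u := by
      rw [← nsmul_eq_mul, ← Finset.sum_const]
      refine Finset.sum_congr rfl fun p hp => ?_
      rw [(Finset.mem_filter.1 hp).2]
    rw [h1]
    refine mul_le_mul_of_nonneg_right ?_ (hf u)
    have h2 : ((range M ×ˢ range M).filter (fun p => p.1 + p.2 = u)).card ≤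
        (Finset.HasAntidiagonal.antidiagonal u : Finset (ℕ × ℕ)).card := by
      refine Finset.card_le_card fun p hp => ?_
      rw [Finset.HasAntidiagonal.mem_antidiagonal]
      exact (Finset.mem_filter.1 hp).2
    rw [Finset.Nat.card_antidiagonal] at h2
    exact_mod_cast h2
  · intro p hp
    rw [Finset.mem_product, Finset.mem_range, Finset.mem_range] at hp
    rw [Finset.mem_range]
    omega

lemma sum_inv_sqrt (M : ℕ) : ∑ u ∈ range M, 1 / Real.sqrt ((u:ℝ) + 1) ≤ 2 * Real.sqrt M := by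
  induction M with
  | zero => simp
  | succ M ih =>
    rw [Finset.sum_range_succ]
    have h1 : 1 / Real.sqrt ((M:ℝ) + 1) ≤ 2 * (Real.sqrt ((M:ℝ) + 1) - Real.sqrt M) := by
      have hM : (0:ℝ) ≤ M := Nat.cast_nonneg M
      have hp : 0 < Real.sqrt ((M:ℝ) + 1) := Real.sqrt_pos.2 (by positivity)
      rw [div_le_iff₀ hp]
      have e1 := Real.sq_sqrt (show (0:ℝ) ≤ (M:ℝ) + 1 by positivity)
      have e2 := Real.sq_sqrt hM
      have e3 := Real.sqrt_le_sqrt (show (M:ℝ) ≤ (M:ℝ) + 1 by linarith)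
      have e4 := Real.sqrt_nonneg (M:ℝ)
      nlinarith [sq_nonneg (Real.sqrt ((M:ℝ) + 1) - Real.sqrt M)]
    push_cast
    linarith

end Pool.Agent.H111R3
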