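import Pool.Agent.H111R3.Walk

set_option autoImplicit false
open Finset

namespace Pool.Agent.H111R3

/-- Positive semidefinite kernels. -/
def PD {Ω : Type*} (K : Ω → Ω → ℝ) : Prop := Matrix.PosSemidef (Matrix.of K)

namespace PD

variable {Ω Ω' : Type*} {K K' : Ω → Ω → ℝ}

lemma symm (hK : PD K) (x y : Ω) : K x y = K y x := by
  have h := hK.1.apply x y
  simpa using h.symm

lemma fam {ι : Type*} (hK : PD K) (s : Finset ι) (f : ι → Ω) (c : ι → ℝ) :
    0 ≤ ∑ i ∈ s, ∑ j ∈ s, c i * c j * K (f i) (f j) := by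
  have h1 : (Matrix.of K).PosSemidef := hK
  have h := (h1.submatrix (fun i : s => f i)).dotProduct_mulVec_nonneg (fun i : s => c i)
  have h2 : star (fun i : s => c i) ⬝ᵥ
      (((Matrix.of K).submatrix (fun i : s => f i) (fun i : s => f i)).mulVec (fun i : s => c i))
      = ∑ i ∈ s, ∑ j ∈ s, c i * c j * K (f i) (f j) := by
    simp only [dotProduct, Matrix.mulVec, Matrix.submatrix_apply, Matrix.of_apply, Pi.star_apply,
      star_trivial]
    rw [Finset.sum_coe_sort s (fun i => c i * ∑ j : s, K (f i) (f j) * c j)]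
    refine Finset.sum_congr rfl fun i _ => ?_
    rw [Finset.sum_coe_sort s (fun j => K (f i) (f j) * c j), Finset.mul_sum]
    exact Finset.sum_congr rfl fun j _ => by ring
  rw [h2] at h
  exact h

lemma mk' (hs : ∀ x y, K x y = K y x)
    (h : ∀ (s : Finset Ω) (c : Ω → ℝ), 0 ≤ ∑ x ∈ s, ∑ y ∈ s, c x * c y * K x y) : PD K := by
  refine ⟨?_, fun x => ?_⟩
  · ext i j
    simp [Matrix.conjTranspose_apply, hs i j]
  · have h1 := h x.support (fun i => x i)
    simp only [Finsupp.sum, star_trivial, Matrix.of_apply]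
    refine h1.trans_eq ?_
    exact Finset.sum_congr rfl fun i _ => Finset.sum_congr rfl fun j _ => by ring

lemma comp (hK : PD K) (f : Ω' → Ω) : PD (fun x y => K (f x) (f y)) := by
  have h1 : (Matrix.of K).PosSemidef := hK
  exact h1.submatrix f

lemma mul (hK : PD K) (hK' : PD K') : PD (fun x y => K x y * K' x y) := by
  have h1 : (Matrix.of K).PosSemidef := hK
  have h2 : (Matrix.of K').PosSemidef := hK'
  exact h1.hadamard h2

lemma add (hK : PD K) (hK' : PD K') : PD (fun x y => K x y + K' x y) := by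
  have h1 : (Matrix.of K).PosSemidef := hK
  have h2 : (Matrix.of K').PosSemidef := hK'
  exact h1.add h2

lemma one : PD (fun _ _ : Ω => (1 : ℝ)) := by
  refine mk' (fun _ _ => rfl) fun s c => ?_
  have : ∑ x ∈ s, ∑ y ∈ s, c x * c y * 1 = (∑ x ∈ s, c x) ^ 2 := by
    rw [sq, Finset.sum_mul_sum]
    exact Finset.sum_congr rfl fun i _ => Finset.sum_congr rfl fun j _ => by ring
  rw [this]
  positivity

lemma pow (hK : PD K) (n : ℕ) : PD (fun x y => K x y ^ n) := by
  induction n with
  | zero => simpa using one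
  | succ n ih =>
    have := ih.mul hK
    simpa [pow_succ] using this

lemma push {ι : Type*} (hK : PD K) (A : Ω' → Finset ι) (f : Ω' → ι → Ω) :
    PD (fun x y => ∑ i ∈ A x, ∑ j ∈ A y, K (f x i) (f y j)) := by
  classical
  refine mk' (fun x y => ?_) fun s c => ?_
  · rw [Finset.sum_comm]
    exact Finset.sum_congr rfl fun i _ => Finset.sum_congr rfl fun j _ => hK.symm _ _
  · have h := hK.fam (s.sigma A) (fun p => f p.1 p.2) (fun p => c p.1)
    refine h.trans_eq ?_
    rw [Finset.sum_sigma]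
    refine Finset.sum_congr rfl fun x _ => ?_
    simp only [Finset.sum_sigma]
    rw [Finset.sum_comm]
    refine Finset.sum_congr rfl fun y _ => ?_
    rw [Finset.mul_sum]
    refine Finset.sum_congr rfl fun i _ => ?_
    rw [Finset.mul_sum]

/-- The equality kernel. -/
lemma eqk [DecidableEq Ω] : PD (fun x y : Ω => if x = y then (1 : ℝ) else 0) := by
  refine mk' (fun x y => ?_) fun s c => ?_
  · by_cases h : x = y
    · simp [h]
    · simp [h, Ne.symm h]
  · refine Finset.sum_nonneg fun x hx => ?_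
    have : ∑ y ∈ s, c x * c y * (if x = y then (1 : ℝ) else 0) = c x * c x := by
      simp [hx]
    rw [this]
    exact mul_self_nonneg _

variable {d : ℕ} [NeZero d]

/-- Averaging. -/
lemma avg {ι : Type*} (hK : PD K) (s : Finset ι) (c : ι → ℝ) (n : ℕ)
    (F : (ℕ → St d) → ι → Ω) :
    0 ≤ ∑ i ∈ s, ∑ j ∈ s, c i * c j * EE n (fun e => EE n (fun e' => K (F e i) (F e' j))) := by
  classical
  have h := hK.fam ((Finset.univ : Finset (Fin n → St d)) ×ˢ s) (fun p => F (ext p.1) p.2)
    (fun p => (1 / (2 * (d : ℝ))) ^ n * c p.2)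
  refine h.trans_eq ?_
  rw [Finset.sum_product_right]
  refine Finset.sum_congr rfl fun i _ => ?_
  have h1 : ∀ e : Fin n → St d, ∑ p ∈ (Finset.univ : Finset (Fin n → St d)) ×ˢ s,
      (1 / (2 * (d : ℝ))) ^ n * c i * ((1 / (2 * (d : ℝ))) ^ n * c p.2) *
        K (F (ext e) i) (F (ext p.1) p.2)
      = ∑ j ∈ s, c i * c j * ((1 / (2 * (d : ℝ))) ^ n *
        EE n (fun e' => K (F (ext e) i) (F e' j))) := by
    intro e
    rw [Finset.sum_product_right]
    refine Finset.sum_congr rfl fun j _ => ?_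
    rw [EE_eq_sum, Finset.mul_sum, Finset.mul_sum]
    exact Finset.sum_congr rfl fun e' _ => by ring
  simp only [h1]
  rw [Finset.sum_comm]
  refine Finset.sum_congr rfl fun j _ => ?_
  rw [EE_eq_sum n (fun e => EE n (fun e' => K (F e i) (F e' j))), Finset.mul_sum]

end PD

end Pool.Agent.H111R3
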