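import Pool.Agent.H111R3.Asym

set_option autoImplicit false
set_option linter.unusedSectionVars false
open Finset Filter

namespace Pool.Agent.H111R3

variable {d : ℕ} [NeZero d]

/-- Box radius. -/
noncomputable def RR (b2 : ℝ) (T n : ℕ) : ℕ := ⌈Real.sqrt (4 * b2 * T * n)⌉₊

open Classical in
lemma E1 {b2 : ℝ} (hb2 : 0 < b2) (N g m T n : ℕ) (hT0 : 0 < N * (g + m)) (h2n : N * (g + m) ≤ 2 * n) :
    EE (N * (g + m)) (fun e => if ∀ k : Fin N, good (box d (RR b2 T n)) (obs (d := d) g m 0 e k)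
      then (0:ℝ) else 1) ≤ (4 * d * N) * Real.exp (-(b2 * T)) := by
  refine (not_good_tail N g m (RR b2 T n) hT0).trans ?_
  have h1 : b2 * T ≤ (RR b2 T n : ℝ) ^ 2 / (2 * ((N * (g + m) : ℕ) : ℝ)) := by
    have hp : (0:ℝ) < ((N * (g + m) : ℕ) : ℝ) := by exact_mod_cast hT0
    rw [le_div_iff₀ (by positivity)]
    have h2 : Real.sqrt (4 * b2 * T * n) ≤ (RR b2 T n : ℝ) := Nat.le_ceil _
    have h3 : 4 * b2 * T * n ≤ (RR b2 T n : ℝ) ^ 2 := by
      calc 4 * b2 * T * n = Real.sqrt (4 * b2 * T * n) ^ 2 := (Real.sq_sqrt (by positivity)).symm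
        _ ≤ _ := by gcongr
    have h4 : ((N * (g + m) : ℕ) : ℝ) ≤ 2 * n := by exact_mod_cast h2n
    calc b2 * T * (2 * ((N * (g + m) : ℕ) : ℝ)) ≤ b2 * T * (2 * (2 * n)) := by gcongr
      _ = 4 * b2 * T * n := by ring
      _ ≤ _ := h3
  have h5 : Real.exp (-((RR b2 T n : ℝ) ^ 2 / (2 * ((N * (g + m) : ℕ) : ℝ)))) ≤
      Real.exp (-(b2 * T)) := Real.exp_le_exp.2 (by linarith)
  calc (N:ℝ) * (4 * d * Real.exp (-((RR b2 T n : ℝ) ^ 2 / (2 * ((N * (g + m) : ℕ) : ℝ)))))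
      ≤ N * (4 * d * Real.exp (-(b2 * T))) := by gcongr
    _ = _ := by ring

lemma E2 {b2 η er : ℝ} (hb2 : 0 < b2) (hη : 0 < η) (her : 0 < er) (N h m n T κ : ℕ) (hN : 1 ≤ N)
    (hT : 1 ≤ T) (hn : 1 ≤ n) (hm : (m:ℝ) ≤ 2 * n) (hκ : (κ:ℝ) ≤ Real.exp (-(er * T)) * m)
    (hh : 2 * b2 ≤ er * h) :
    ((2 * h).factorial : ℝ) ^ 2 * (144 * C1 d ^ 2 * (m * Real.sqrt (κ * m))) ^ h /
      (η * T * n / N ^ 2) ^ (2 * h) ≤
      (((2 * h).factorial : ℝ) ^ 2 * (144 * C1 d ^ 2 * (2 * N ^ 2 / η) ^ 2) ^ h) *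
        Real.exp (-(b2 * T)) := by
  have hC := C1_ge (d := d)
  have hT' : (1:ℝ) ≤ T := by exact_mod_cast hT
  have hn' : (1:ℝ) ≤ n := by exact_mod_cast hn
  have hN' : (1:ℝ) ≤ N := by exact_mod_cast hN
  have hm0 : (0:ℝ) ≤ m := Nat.cast_nonneg m
  have h1 : Real.sqrt (κ * m) ≤ Real.exp (-(er * T) / 2) * m := by
    rw [Real.sqrt_le_left (by positivity)]
    calc (κ:ℝ) * m ≤ (Real.exp (-(er * T)) * m) * m := by gcongr
      _ = (Real.exp (-(er * T) / 2) * m) ^ 2 := by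
          rw [mul_pow, ← Real.exp_nat_mul]
          push_cast
          rw [show (2:ℝ) * (-(er * T) / 2) = -(er * T) by ring]
          ring
  have hτ : 0 < η * T * n / (N:ℝ) ^ 2 := by positivity
  have h2 : 144 * C1 d ^ 2 * (m * Real.sqrt (κ * m)) / (η * T * n / (N:ℝ) ^ 2) ^ 2 ≤
      144 * C1 d ^ 2 * (2 * N ^ 2 / η) ^ 2 * Real.exp (-(er * T) / 2) := by
    rw [div_le_iff₀ (by positivity)]
    calc 144 * C1 d ^ 2 * (m * Real.sqrt (κ * m))
        ≤ 144 * C1 d ^ 2 * ((2 * n) * (Real.exp (-(er * T) / 2) * (2 * n))) := by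
          have : Real.exp (-(er * T) / 2) * m ≤ Real.exp (-(er * T) / 2) * (2 * n) := by gcongr
          have := h1.trans this
          gcongr
      _ = 144 * C1 d ^ 2 * (2 * N ^ 2 / η) ^ 2 * Real.exp (-(er * T) / 2) *
          ((η * 1 * n / (N:ℝ) ^ 2) ^ 2) := by field_simp
      _ ≤ 144 * C1 d ^ 2 * (2 * N ^ 2 / η) ^ 2 * Real.exp (-(er * T) / 2) *
          ((η * T * n / (N:ℝ) ^ 2) ^ 2) := by gcongr
  have h3 : (144 * C1 d ^ 2 * (m * Real.sqrt (κ * m))) ^ h / (η * T * n / (N:ℝ) ^ 2) ^ (2 * h) =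
      (144 * C1 d ^ 2 * (m * Real.sqrt (κ * m)) / (η * T * n / (N:ℝ) ^ 2) ^ 2) ^ h := by
    rw [div_pow (144 * C1 d ^ 2 * (m * Real.sqrt (κ * m))) ((η * T * n / (N:ℝ) ^ 2) ^ 2) h,
      ← pow_mul]
  rw [mul_div_assoc, h3, mul_assoc (((2 * h).factorial : ℝ) ^ 2)]
  refine mul_le_mul_of_nonneg_left ?_ (by positivity)
  calc (144 * C1 d ^ 2 * (m * Real.sqrt (κ * m)) / (η * T * n / (N:ℝ) ^ 2) ^ 2) ^ h
      ≤ (144 * C1 d ^ 2 * (2 * N ^ 2 / η) ^ 2 * Real.exp (-(er * T) / 2)) ^ h := by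
        gcongr
    _ = (144 * C1 d ^ 2 * (2 * N ^ 2 / η) ^ 2) ^ h * Real.exp (-(er * T) / 2) ^ h := by
        rw [mul_pow]
    _ ≤ (144 * C1 d ^ 2 * (2 * N ^ 2 / η) ^ 2) ^ h * Real.exp (-(b2 * T)) := by
        refine mul_le_mul_of_nonneg_left ?_ (by positivity)
        rw [← Real.exp_nat_mul]
        refine Real.exp_le_exp.2 ?_
        nlinarith

lemma E3 (hd : 2 ≤ d) {b' : ℝ} (hb : 0 < b')
    (hH : ∀ c : ℝ, 1 < c → ∀ᶠ N : ℕ in atTop,
      EE N (fun e => Real.exp ((b' / N) * Jq (d := d) 0 (N + 1) e)) ≤ c ^ N)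
    {u h0 : ℝ} (hu0 : 0 < u) (hu1 : u < 1) (hh0 : 0 < h0) (J : ℕ)
    (hN : 6 * K3 d * b' ≤ h0 * u * 2 ^ J) {b2 ρ er δ : ℝ} (hb2 : 0 < b2) (hρ : 0 < ρ)
    (her : 0 < er) (hδ : 0 < δ) (hsmall : C1 d / K3 d * er * 2 ^ J ≤ δ / 2) :
    ∃ C : ℝ, 0 < C ∧ ∀ (n m κ T : ℕ) (a : ℝ), 1 ≤ n → 1 ≤ m → 1 ≤ T → 0 ≤ a →
      (m:ℝ) ≤ Real.exp (er * T) * (κ + 1) →
      4 * (m / (2 * b')) / (1 - u) ^ 2 * 2 ^ J * a ≤ 1 / (1 + h0) →
      ((C0 d / Real.sqrt (ρ * n / (2 * 2 ^ J))) ^ d) ^ (2 ^ J) *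
        Psi (wt (Λ := box d (RR b2 T n)) (m := m)) (fun x y => GO κ (toOb x) (toOb y))
          (Fin (2 ^ J)) a ≤ C * Real.exp (δ * T) := by
  have hK := K3_ge (d := d)
  have hC := C1_ge (d := d)
  have hC0 := C0_ge (d := d)
  have h1u : 0 < 1 - u := by linarith
  obtain ⟨Cp, hCp0, hCp⟩ := poly_le_exp (d * 2 ^ J) (δ := δ / 2) (by positivity)
  set CA : ℝ := C0 d * (2 * Real.sqrt (4 * b2) + 3) * Real.sqrt (2 * 2 ^ J / ρ) with hCA
  have hCA0 : 0 < CA := by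
    have : 0 < Real.sqrt (2 * 2 ^ J / ρ) := Real.sqrt_pos.2 (by positivity)
    positivity
  set w : ℝ := u / (6 * K3 d * (1 - u)) * 2 ^ J with hw
  refine ⟨(J + 1) * (CA ^ d * Real.exp (w + 2 + C1 d / K3 d)) ^ (2 ^ J) * Cp, by positivity, ?_⟩
  intro n m κ T a hn hm hT ha hκ hY
  have hT' : (1:ℝ) ≤ T := by exact_mod_cast hT
  have hn' : (1:ℝ) ≤ n := by exact_mod_cast hn
  set R := RR b2 T n with hR
  have hcard : (box d R).card = (2 * R + 1) ^ d := card_box R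
  have hcard1 : 1 ≤ (box d R).card := by
    rw [hcard]; exact Nat.one_le_pow _ _ (by omega)
  have hpsi := psi_bound hd hb hH hu0 hu1 hh0 J m κ hm (box d R) hcard1 ha hY hN
  have hs0 : 0 ≤ (C0 d / Real.sqrt (ρ * n / (2 * 2 ^ J))) ^ d := by positivity
  -- s |Λ|
  have hsL : (C0 d / Real.sqrt (ρ * n / (2 * 2 ^ J))) ^ d * ((box d R).card : ℝ) ≤ (CA * T) ^ d := by
    rw [hcard]
    push_cast
    rw [← mul_pow]
    refine pow_le_pow_left₀ (by positivity) ?_ d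
    have hx : 0 < Real.sqrt (ρ * n / (2 * 2 ^ J)) := Real.sqrt_pos.2 (by positivity)
    have h1 : (R:ℝ) ≤ Real.sqrt (4 * b2 * T * n) + 1 := (Nat.ceil_lt_add_one (Real.sqrt_nonneg _)).le
    have h2 : Real.sqrt (4 * b2 * T * n) = Real.sqrt (4 * b2) * Real.sqrt (T * n) := by
      rw [← Real.sqrt_mul (by positivity)]; congr 1; ring
    have h3 : 1 ≤ Real.sqrt ((T:ℝ) * n) := by
      rw [Real.one_le_sqrt]; nlinarith
    have h4 : 2 * (R:ℝ) + 1 ≤ (2 * Real.sqrt (4 * b2) + 3) * Real.sqrt (T * n) := by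
      rw [h2] at h1
      nlinarith
    have h5 : Real.sqrt (T * n) = Real.sqrt (2 * 2 ^ J / ρ) * Real.sqrt T *
        Real.sqrt (ρ * n / (2 * 2 ^ J)) := by
      rw [← Real.sqrt_mul (by positivity), ← Real.sqrt_mul (by positivity)]
      congr 1
      field_simp
    have h6 : Real.sqrt (T:ℝ) ≤ T := by
      rw [Real.sqrt_le_left (by positivity)]; nlinarith
    rw [div_mul_eq_mul_div, div_le_iff₀ hx]
    calc C0 d * (2 * (R:ℝ) + 1) ≤ C0 d * ((2 * Real.sqrt (4 * b2) + 3) * Real.sqrt (T * n)) := by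
          gcongr
      _ = CA * Real.sqrt T * Real.sqrt (ρ * n / (2 * 2 ^ J)) := by rw [h5, hCA]; ring
      _ ≤ CA * T * Real.sqrt (ρ * n / (2 * 2 ^ J)) := by gcongr
  -- log
  have hlog : Real.log (1 + m / (κ + 1)) ≤ er * T + 1 := by
    have h1 : (1:ℝ) + m / (κ + 1) ≤ Real.exp (er * T + 1) := by
      have h2 : (m:ℝ) / (κ + 1) ≤ Real.exp (er * T) := by
        rw [div_le_iff₀ (by positivity)]; exact hκ
      have h3 : 1 ≤ Real.exp (er * T) := Real.one_le_exp (by positivity)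
      rw [Real.exp_add]
      have h4 : (2:ℝ) ≤ Real.exp 1 := by
        have := Real.add_one_le_exp (1:ℝ); linarith
      nlinarith
    calc Real.log (1 + m / (κ + 1)) ≤ Real.log (Real.exp (er * T + 1)) :=
          Real.log_le_log (by positivity) h1
      _ = _ := Real.log_exp _
  have hCK : 0 < C1 d / K3 d := by positivity
  have hD : Real.exp (2 + C1 d / K3 d * Real.log (1 + m / (κ + 1))) ≤
      Real.exp (2 + C1 d / K3 d) * Real.exp (C1 d / K3 d * er * T) := by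
    rw [← Real.exp_add]
    refine Real.exp_le_exp.2 ?_
    have := mul_le_mul_of_nonneg_left hlog hCK.le
    linarith
  calc ((C0 d / Real.sqrt (ρ * n / (2 * 2 ^ J))) ^ d) ^ (2 ^ J) *
        Psi (wt (Λ := box d R) (m := m)) (fun x y => GO κ (toOb x) (toOb y)) (Fin (2 ^ J)) a
      ≤ ((C0 d / Real.sqrt (ρ * n / (2 * 2 ^ J))) ^ d) ^ (2 ^ J) *
        ((J + 1) * (((box d R).card * Real.exp w) *
        Real.exp (2 + C1 d / K3 d * Real.log (1 + m / (κ + 1)))) ^ (2 ^ J)) := by gcongr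
    _ = (J + 1) * ((C0 d / Real.sqrt (ρ * n / (2 * 2 ^ J))) ^ d * (box d R).card * Real.exp w *
        Real.exp (2 + C1 d / K3 d * Real.log (1 + m / (κ + 1)))) ^ (2 ^ J) := by
        rw [mul_pow, mul_pow, mul_pow, mul_pow, mul_pow]; ring
    _ ≤ (J + 1) * ((CA * T) ^ d * Real.exp w *
        (Real.exp (2 + C1 d / K3 d) * Real.exp (C1 d / K3 d * er * T))) ^ (2 ^ J) := by
        gcongr
    _ = (J + 1) * (CA ^ d * Real.exp (w + 2 + C1 d / K3 d)) ^ (2 ^ J) *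
        (((T:ℝ) ^ (d * 2 ^ J)) * Real.exp (C1 d / K3 d * er * 2 ^ J * T)) := by
        have e1 : Real.exp (w + 2 + C1 d / K3 d) = Real.exp w * Real.exp (2 + C1 d / K3 d) := by
          rw [← Real.exp_add]; congr 1; ring
        have e2 : Real.exp (C1 d / K3 d * er * 2 ^ J * T) =
            Real.exp (C1 d / K3 d * er * T) ^ (2 ^ J) := by
          rw [← Real.exp_nat_mul]; congr 1; push_cast; ring
        rw [e1, e2, pow_mul (T:ℝ)]
        simp only [mul_pow]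
        ring
    _ ≤ (J + 1) * (CA ^ d * Real.exp (w + 2 + C1 d / K3 d)) ^ (2 ^ J) *
        ((Cp * Real.exp (δ / 2 * T)) * Real.exp (δ / 2 * T)) := by
        have h1 := hCp T (by positivity)
        have h2 : Real.exp (C1 d / K3 d * er * 2 ^ J * T) ≤ Real.exp (δ / 2 * T) :=
          Real.exp_le_exp.2 (by gcongr)
        gcongr
    _ = _ := by
        rw [mul_assoc Cp, ← Real.exp_add]
        rw [show δ / 2 * T + δ / 2 * T = δ * T by ring]
        ring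

end Pool.Agent.H111R3
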