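import Pool.Agent.H111R3.QB

set_option autoImplicit false
set_option linter.unusedSectionVars false
open Finset Filter

namespace Pool.Agent.H111R3

variable {d : ℕ} [NeZero d]

lemma Xc_dl_le (s1 M s2 M' : ℕ) (e : ℕ → St d) : Xc dl s1 M s2 M' e ≤ M * M' := by
  unfold Xc
  refine (Finset.sum_le_sum fun i _ => Finset.sum_le_sum fun j _ => dl_le_one _).trans ?_
  simp

lemma Xc_dl_nonneg (s1 M s2 M' : ℕ) (e : ℕ → St d) : 0 ≤ Xc dl s1 M s2 M' e :=
  Finset.sum_nonneg fun _ _ => Finset.sum_nonneg fun _ _ => dl_nonneg _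

lemma Qk_dl_nonneg (N g m : ℕ) (e : ℕ → St d) : 0 ≤ Qk dl N g m e :=
  Finset.sum_nonneg fun _ _ => Finset.sum_nonneg fun _ _ => Xc_dl_nonneg _ _ _ _ _

lemma Qk_dl_le (N g m : ℕ) (e : ℕ → St d) : Qk dl N g m e ≤ (N:ℝ) ^ 2 * (m:ℝ) ^ 2 := by
  unfold Qk
  calc ∑ l ∈ range N, ∑ k ∈ range l, Xc dl (k * (g + m) + g) m (l * (g + m) + g) m e
      ≤ ∑ l ∈ range N, ∑ k ∈ range l, (m:ℝ) * m :=
        Finset.sum_le_sum fun l _ => Finset.sum_le_sum fun k _ => Xc_dl_le _ _ _ _ _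
    _ ≤ ∑ l ∈ range N, ∑ k ∈ range N, (m:ℝ) * m := by
        refine Finset.sum_le_sum fun l hl => Finset.sum_le_sum_of_subset_of_nonneg
          (Finset.range_subset_range.2 (Finset.mem_range.1 hl).le) fun _ _ _ => by positivity
    _ = _ := by
        simp only [Finset.sum_const, Finset.card_range, nsmul_eq_mul]; ring

lemma Q_bound (hd : 2 ≤ d) {b1 b' : ℝ} (hb1 : 0 < b1) (hbb : b1 < b')
    (hH : ∀ c : ℝ, 1 < c → ∀ᶠ N : ℕ in atTop,
      EE N (fun e => Real.exp ((b' / N) * Jq (d := d) 0 (N + 1) e)) ≤ c ^ N) :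
    ∃ J0 : ℕ, ∀ J : ℕ, J0 ≤ J → ∀ ρ : ℝ, 0 < ρ → ∃ M : ℝ, ∃ n0 : ℕ, ∀ n g m : ℕ, n0 ≤ n →
      1 ≤ m → 2 ^ J * (g + m) ≤ n + 2 ^ J → ρ * n / (2 * 2 ^ J) ≤ ((g / 2 : ℕ) : ℝ) + 1 →
      EE (2 ^ J * (g + m)) (fun e => Real.exp (b1 * ((1 / (n:ℝ)) * Qk (d := d) dl (2 ^ J) g m e)))
        ≤ M := by
  classical
  have hK := K3_ge (d := d)
  have hC := C1_ge (d := d)
  have hb' : 0 < b' := hb1.trans hbb
  set b2 : ℝ := b1 + (b' - b1) / 3 with hb2
  set b3 : ℝ := b1 + 2 * (b' - b1) / 3 with hb3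
  have h12 : b1 < b2 := by rw [hb2]; linarith
  have h23 : b2 < b3 := by rw [hb2, hb3]; linarith
  have h34 : b3 < b' := by rw [hb3]; linarith
  have hb2p : 0 < b2 := by linarith
  have hb3p : 0 < b3 := by linarith
  set η : ℝ := (b3 - b2) / b3 with hη
  have hη0 : 0 < η := div_pos (by linarith) hb3p
  set ra : ℝ := b3 / b' with hra
  have hra0 : 0 < ra := by positivity
  have hra1 : ra < 1 := by rw [hra, div_lt_one hb']; exact h34
  set u : ℝ := (1 - ra) / 4 with hu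
  have hu0 : 0 < u := by rw [hu]; linarith
  have hu1 : u < 1 := by rw [hu]; linarith
  have h1u : 0 < 1 - u := by linarith
  set y1 : ℝ := ra / (1 - u) ^ 2 with hy1
  have hy10 : 0 < y1 := by positivity
  have hy11 : y1 < 1 := by
    rw [hy1, div_lt_one (by positivity)]
    rw [hu]
    nlinarith [sq_nonneg ((1 - ra) / 4)]
  set h0 : ℝ := 2 / (1 + y1) - 1 with hh0
  have hh0p : 0 < h0 := by
    rw [hh0, sub_pos, lt_div_iff₀ (by linarith)]; linarith
  have hh01 : 1 / (1 + h0) = (1 + y1) / 2 := by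
    rw [hh0]; field_simp; ring
  obtain ⟨J0, hJ0⟩ := pow_unbounded_of_one_lt (6 * K3 d * b' / (h0 * u)) (by norm_num : (1:ℝ) < 2)
  refine ⟨J0, fun J hJ ρ hρ => ?_⟩
  have hN : 6 * K3 d * b' ≤ h0 * u * 2 ^ J := by
    rw [div_lt_iff₀ (by positivity)] at hJ0
    have : (2:ℝ) ^ J0 ≤ 2 ^ J := pow_le_pow_right₀ (by norm_num) hJ
    have h2 : (2:ℝ) ^ J0 * (h0 * u) ≤ 2 ^ J * (h0 * u) := by gcongr
    linarith
  set δ : ℝ := (b2 - b1) / 2 with hδ
  have hδ0 : 0 < δ := by rw [hδ]; linarith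
  set er : ℝ := δ * K3 d / (2 * C1 d * 2 ^ J) with her
  have her0 : 0 < er := by positivity
  have hsmall : C1 d / K3 d * er * 2 ^ J ≤ δ / 2 := by
    apply le_of_eq
    rw [her]
    have : K3 d ≠ 0 := by positivity
    have : C1 d ≠ 0 := by positivity
    field_simp
  set h : ℕ := ⌈2 * b2 / er⌉₊ with hh
  have hhe : 2 * b2 ≤ er * h := by
    have := Nat.le_ceil (2 * b2 / er)
    rw [div_le_iff₀ her0] at this
    rw [hh]; linarith
  obtain ⟨CE, hCE0, hCE⟩ := E3 hd hb' hH hu0 hu1 hh0p J hN hb2p hρ her0 hδ0 hsmall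
  set N : ℕ := 2 ^ J with hNdef
  have hN1 : 1 ≤ N := Nat.one_le_two_pow
  have hNr : (N:ℝ) = 2 ^ J := by rw [hNdef]; push_cast; rfl
  set CII : ℝ := (((2 * h).factorial : ℝ) ^ 2 * (144 * C1 d ^ 2 * (2 * N ^ 2 / η) ^ 2) ^ h) with hCII
  have hCII0 : 0 ≤ CII := by positivity
  set Ct : ℝ := 4 * d * N + N ^ 2 * CII + CE with hCt
  have hCt0 : 0 ≤ Ct := by positivity
  set γ : ℝ := b2 - δ with hγ
  have hγ1 : b1 < γ := by rw [hγ, hδ]; linarith
  obtain ⟨n0, hn0⟩ := exists_nat_gt (2 * y1 * N / (1 - y1))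
  refine ⟨Real.exp b1 + Ct * Real.exp b1 / (1 - Real.exp (-(γ - b1))), max n0 N, ?_⟩
  intro n g m hn hm hgm hg
  have hnn0 : n0 ≤ n := le_trans (le_max_left _ _) hn
  have hnN : N ≤ n := le_trans (le_max_right _ _) hn
  have hn1 : 1 ≤ n := le_trans hN1 hnN
  have hnr : (0:ℝ) < n := by exact_mod_cast hn1
  have hmr : (0:ℝ) < m := by exact_mod_cast hm
  have h2n : N * (g + m) ≤ 2 * n := by omega
  have hT0 : 0 < N * (g + m) := Nat.mul_pos (by omega) (by omega)
  have hNm : (N:ℝ) * m ≤ n + N := by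
    have h1 : N * m ≤ N * (g + m) := Nat.mul_le_mul_left _ (by omega)
    have h2 : N * m ≤ n + N := h1.trans hgm
    exact_mod_cast h2
  have hm2n : (m:ℝ) ≤ 2 * n := by
    have h1 : m ≤ N * (g + m) := by nlinarith
    have h2 : m ≤ 2 * n := h1.trans h2n
    exact_mod_cast h2
  refine tail_to_exp (N * (g + m)) (fun e => (1 / (n:ℝ)) * Qk (d := d) dl N g m e)
    (fun e => mul_nonneg (by positivity) (Qk_dl_nonneg _ _ _ _)) (N ^ 2 * m ^ 2 + 1) ?_ hb1 hγ1
    hCt0 ?_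
  · intro e
    have h1 := Qk_dl_le (d := d) N g m e
    have h2 : (1 / (n:ℝ)) * Qk (d := d) dl N g m e ≤ 1 * Qk (d := d) dl N g m e := by
      refine mul_le_mul_of_nonneg_right ?_ (Qk_dl_nonneg _ _ _ _)
      rw [div_le_one hnr]; exact_mod_cast hn1
    push_cast
    linarith
  · intro T hT
    have hTr : (1:ℝ) ≤ T := by exact_mod_cast hT
    set κ : ℕ := ⌊Real.exp (-(er * T)) * m⌋₊ with hκ
    have hκ1 : (κ:ℝ) ≤ Real.exp (-(er * T)) * m := Nat.floor_le (by positivity)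
    have hκ2 : (m:ℝ) ≤ Real.exp (er * T) * (κ + 1) := by
      have h1 := (Nat.lt_floor_add_one (Real.exp (-(er * T)) * m)).le
      have h2 : (m:ℝ) = Real.exp (er * T) * (Real.exp (-(er * T)) * m) := by
        rw [← mul_assoc, ← Real.exp_add]; simp
      calc (m:ℝ) = Real.exp (er * T) * (Real.exp (-(er * T)) * m) := h2
        _ ≤ _ := by gcongr
    set τ : ℝ := η * T * n / N ^ 2 with hτ
    have hτ0 : 0 < τ := by positivity
    have hev : ∀ e : ℕ → St d, (if (T:ℝ) ≤ (1 / (n:ℝ)) * Qk (d := d) dl N g m e then (1:ℝ) else 0)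
        = if (T:ℝ) * n ≤ Qk (d := d) dl N g m e then (1:ℝ) else 0 := by
      intro e
      congr 1
      rw [eq_iff_iff, one_div, ← div_eq_inv_mul, le_div_iff₀ hnr]
    simp only [hev]
    refine (union_tail κ N g m (box d (RR b2 T n)) hτ0.le (N * (g + m))).trans ?_
    -- (I)
    have hI := E1 (d := d) hb2p N g m T n hT0 h2n
    -- (II)
    have hII1 : ∀ l ∈ range N, ∀ k ∈ range l, EE (N * (g + m)) (fun e => if τ ≤
        Xc (rr (d := d) κ) (k * (g + m) + g) m (l * (g + m) + g) m e then (1:ℝ) else 0) ≤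
        CII * Real.exp (-(b2 * T)) := by
      intro l hl k hk
      refine (r_tail hd κ h N g m k l (Finset.mem_range.1 hk) (Finset.mem_range.1 hl) hτ0).trans ?_
      exact E2 hb2p hη0 her0 N h m n T κ hN1 hT hn1 hm2n hκ1 hhe
    have hII : ∑ l ∈ range N, ∑ k ∈ range l, EE (N * (g + m)) (fun e => if τ ≤
        Xc (rr (d := d) κ) (k * (g + m) + g) m (l * (g + m) + g) m e then (1:ℝ) else 0) ≤
        N ^ 2 * CII * Real.exp (-(b2 * T)) := by
      calc _ ≤ ∑ l ∈ range N, ∑ k ∈ range l, CII * Real.exp (-(b2 * T)) :=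
            Finset.sum_le_sum fun l hl => Finset.sum_le_sum fun k hk => hII1 l hl k hk
        _ ≤ ∑ l ∈ range N, ∑ k ∈ range N, CII * Real.exp (-(b2 * T)) := by
            refine Finset.sum_le_sum fun l hl => Finset.sum_le_sum_of_subset_of_nonneg
              (Finset.range_subset_range.2 (Finset.mem_range.1 hl).le) fun _ _ _ => by positivity
        _ = _ := by
            simp only [Finset.sum_const, Finset.card_range, nsmul_eq_mul]; ring
    -- (III)
    have hsx : ∀ x : Fin d → ℤ, pk g x ≤ (C0 d / Real.sqrt (ρ * n / (2 * 2 ^ J))) ^ d :=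
      fun x => pk_g_bound g (by positivity) hg x
    have hs0 : 0 ≤ (C0 d / Real.sqrt (ρ * n / (2 * 2 ^ J))) ^ d := by
      have := C0_ge (d := d)
      positivity
    have hIII0 := main_tail (d := d) κ N g m (box d (RR b2 T n)) hs0 hsx (a := b3 / (2 * n))
      (x := T * n - N ^ 2 * τ) (by positivity)
    have hYc : 4 * (m / (2 * b')) / (1 - u) ^ 2 * 2 ^ J * (b3 / (2 * n)) ≤ 1 / (1 + h0) := by
      rw [hh01]
      have e1 : 4 * (m / (2 * b')) / (1 - u) ^ 2 * 2 ^ J * (b3 / (2 * n)) = y1 * (N * m / n) := by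
        rw [hy1, hra, hNr]; field_simp; norm_num
      rw [e1]
      have h1 : (N:ℝ) * m / n ≤ 1 + N / n := by
        rw [div_le_iff₀ hnr]
        have : (1 + (N:ℝ) / n) * n = n + N := by field_simp
        rw [this]; exact hNm
      have h2 : y1 * (N / n) ≤ (1 - y1) / 2 := by
        have h3 : 2 * y1 * N / (1 - y1) < n := lt_of_lt_of_le hn0 (by exact_mod_cast hnn0)
        rw [div_lt_iff₀ (by linarith)] at h3
        rw [mul_div_assoc', div_le_iff₀ hnr]
        linarith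
      have h4 : y1 * ((N:ℝ) * m / n) ≤ y1 * (1 + N / n) := by gcongr
      linarith
    have hE3 := hCE n m κ T (b3 / (2 * n)) hn1 hm hT (by positivity) hκ2 hYc
    have hexp : 2 * (b3 / (2 * (n:ℝ))) * (T * n - N ^ 2 * τ) = b2 * T := by
      rw [hτ, hη]
      field_simp
      ring
    rw [hexp] at hIII0
    have hIII : EE (N * (g + m)) (fun e => if (∀ k : Fin N, good (box d (RR b2 T n))
        (obs (d := d) g m 0 e k)) ∧ T * n - N ^ 2 * τ ≤ Qk (pk (2 * κ)) N g m e then (1:ℝ) else 0) ≤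
        CE * Real.exp (-(γ * T)) := by
      refine hIII0.trans ?_
      calc Real.exp (-(b2 * T)) * _ ≤ Real.exp (-(b2 * T)) * (CE * Real.exp (δ * T)) :=
            mul_le_mul_of_nonneg_left hE3 (Real.exp_pos _).le
        _ = CE * Real.exp (-(γ * T)) := by
            rw [mul_left_comm, ← Real.exp_add, hγ]
            congr 2
            ring
    have hexp2 : Real.exp (-(b2 * T)) ≤ Real.exp (-(γ * T)) := by
      refine Real.exp_le_exp.2 ?_
      rw [hγ]; nlinarith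
    have hI' : (4 * d * N) * Real.exp (-(b2 * T)) ≤ (4 * d * N) * Real.exp (-(γ * T)) := by gcongr
    have hII' : N ^ 2 * CII * Real.exp (-(b2 * T)) ≤ N ^ 2 * CII * Real.exp (-(γ * T)) := by gcongr
    have hfin : Ct * Real.exp (-(γ * T)) = (4 * d * N) * Real.exp (-(γ * T)) +
        N ^ 2 * CII * Real.exp (-(γ * T)) + CE * Real.exp (-(γ * T)) := by rw [hCt]; ring
    rw [hfin]
    linarith

end Pool.Agent.H111R3
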