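import Pool.Agent.H111R3.Cross

set_option autoImplicit false
set_option linter.unusedSectionVars false
open Finset

namespace Pool.Agent.H111R3

open Pool.Agent.Helper964.Chg (glue Loc glue_lt glue_add)

variable {d : ℕ} [NeZero d]

/-- Smoothed self-intersections of the first `n` points. -/
noncomputable def Jq (κ n : ℕ) (e : ℕ → St d) : ℝ :=
  ∑ j ∈ range n, ∑ i ∈ range j, pk (2 * κ) (pos e j - pos e i)

lemma Jq_nonneg (κ n : ℕ) (e : ℕ → St d) : 0 ≤ Jq κ n e :=
  Finset.sum_nonneg fun _ _ => Finset.sum_nonneg fun _ _ => pk_nonneg _ _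

lemma Xc_nonneg (κ s1 M s2 M' : ℕ) (e : ℕ → St d) : 0 ≤ Xc (pk (2 * κ)) s1 M s2 M' e :=
  Finset.sum_nonneg fun _ _ => Finset.sum_nonneg fun _ _ => pk_nonneg _ _

lemma sum_range_add' (n m : ℕ) (f : ℕ → ℝ) :
    ∑ i ∈ range (n + m), f i = ∑ i ∈ range n, f i + ∑ i ∈ range m, f (n + i) :=
  Finset.sum_range_add f n m

lemma Jq_split (κ n m : ℕ) (e : ℕ → St d) :
    Jq κ (n + m) e = Jq κ n e + Jq κ m (shift n e) + Xc (pk (2 * κ)) 0 n n m e := by
  unfold Jq Xc
  rw [sum_range_add', add_assoc]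
  congr 1
  rw [Finset.sum_comm (s := range n) (t := range m), ← Finset.sum_add_distrib]
  refine Finset.sum_congr rfl fun j _ => ?_
  rw [sum_range_add', add_comm]
  congr 1
  · refine Finset.sum_congr rfl fun i _ => ?_
    rw [pos_shift, pos_shift]
    congr 1; abel
  · refine Finset.sum_congr rfl fun i _ => ?_
    rw [zero_add]

lemma Jq_loc (κ n : ℕ) : Loc n (Jq (d := d) κ n) := by
  intro e1 e2 h
  unfold Jq
  refine Finset.sum_congr rfl fun j hj => Finset.sum_congr rfl fun i hi => ?_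
  rw [Finset.mem_range] at hi hj
  rw [pos_congr h (show j ≤ n by omega), pos_congr h (show i ≤ n by omega)]

lemma Xc_loc (r : (Fin d → ℤ) → ℝ) (s1 M s2 M' T : ℕ) (h1 : s1 + M ≤ T) (h2 : s2 + M' ≤ T) :
    Loc T (Xc (d := d) r s1 M s2 M') := by
  intro e1 e2 h
  unfold Xc
  refine Finset.sum_congr rfl fun j hj => Finset.sum_congr rfl fun i hi => ?_
  rw [Finset.mem_range] at hi hj
  rw [pos_congr h (show s2 + i ≤ T by omega), pos_congr h (show s1 + j ≤ T by omega)]

lemma EE_indep (n m : ℕ) (F G : (ℕ → St d) → ℝ) (hF : Loc n F) :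
    EE (n + m) (fun e => F e * G (shift n e)) = EE n F * EE m G := by
  rw [EE_append, ← EE_mul_right]
  refine EE_congr n fun e => ?_
  rw [← EE_mul_left]
  refine EE_congr m fun e' => ?_
  rw [shift_glue]
  congr 1
  exact hF _ _ fun i hi => glue_lt hi

lemma EE_shift (n m : ℕ) (G : (ℕ → St d) → ℝ) : EE (n + m) (fun e => G (shift n e)) = EE m G := by
  have h := EE_indep (d := d) n m (fun _ => 1) G (fun _ _ _ => rfl)
  simp only [one_mul] at h
  rw [h, EE_const, one_mul]

lemma EE_Jq_split (κ n m : ℕ) :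
    EE (n + m) (Jq (d := d) κ (n + m)) = EE n (Jq (d := d) κ n) + EE m (Jq (d := d) κ m) +
      EE (n + m) (Xc (d := d) (pk (2 * κ)) 0 n n m) := by
  have h : Jq (d := d) κ (n + m) = fun e => Jq κ n e + Jq κ m (shift n e) +
    Xc (pk (2 * κ)) 0 n n m e := funext (Jq_split κ n m)
  rw [h, EE_add, EE_add, EE_shift, EE_loc (Jq_loc κ n) m]

lemma pk_stp (κ : ℕ) (s : St d) : pk (2 * κ) (stp s) = 0 := by
  refine pk_par ?_
  have h2 : par (stp s) = 1 := by
    have := par_pos (d := d) (fun _ => s) 1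
    simpa [pos] using this
  rw [h2]
  push_cast
  rw [two_zmod]
  simp

lemma Jq_small (κ n : ℕ) (hn : n ≤ 2) (e : ℕ → St d) : Jq κ n e = 0 := by
  have h2 : Jq κ 2 e = 0 := by
    unfold Jq
    simp [Finset.sum_range_succ, pos, pk_stp]
  interval_cases n
  · simp [Jq]
  · simp [Jq]
  · exact h2

/-- Gaussian-type bound for centered smoothed self-intersections. -/
lemma C5 (hd : 2 ≤ d) (κ : ℕ) : ∀ (n : ℕ) (l : ℝ), 0 ≤ l → l * n ≤ 1 / (6 * K3 d) →
    EE n (fun e => Real.exp (l * (Jq (d := d) κ n e - EE n (Jq (d := d) κ n)))) ≤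
      Real.exp (36 * K3 d ^ 2 * (l * n) ^ 2) := by
  have hK := K3_ge (d := d)
  intro n
  induction n using Nat.strong_induction_on with
  | _ n ih =>
    intro l hl hln
    rcases Nat.lt_or_ge 2 n with hn | hn
    swap
    · have h1 : ∀ e : ℕ → St d, Jq κ n e = 0 := Jq_small κ n hn
      have h2 : EE n (Jq (d := d) κ n) = 0 := by
        rw [show Jq (d := d) κ n = fun _ => 0 from funext h1]
        exact EE_const _ _
      rw [h2]
      simp only [h1, sub_zero, mul_zero, Real.exp_zero]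
      rw [EE_const]
      exact Real.one_le_exp (by positivity)
    · obtain ⟨n1, n2, hn1, hn2, h12, h12', rfl⟩ : ∃ n1 n2 : ℕ, 1 ≤ n1 ∧ n1 ≤ n2 ∧ n2 ≤ n1 + 1 ∧
          n2 < n ∧ n = n1 + n2 :=
        ⟨n / 2, n - n / 2, by omega, by omega, by omega, by omega, by omega⟩
      have hn0 : (0:ℝ) < ((n1 + n2 : ℕ) : ℝ) := by
        have : 0 < n1 + n2 := by omega
        exact_mod_cast this
      set N : ℝ := ((n1 + n2 : ℕ) : ℝ) with hN
      have hNe : N = n1 + n2 := by rw [hN]; push_cast; rfl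
      have hl1 : 3 * (n2 : ℝ) ≤ 2 * N := by
        have : 3 * n2 ≤ 2 * (n1 + n2) := by omega
        rw [hN]; exact_mod_cast this
      have hl2 : (n1 : ℝ) ≤ n2 := by exact_mod_cast hn2
      have hsq : 9 * ((n1:ℝ) ^ 2 + (n2:ℝ) ^ 2) ≤ 5 * N ^ 2 := by
        have hcase : n2 = n1 ∨ n2 = n1 + 1 := by omega
        rw [hNe]
        rcases hcase with h | h
        · have : (n2:ℝ) = n1 := by exact_mod_cast h
          rw [this]; nlinarith
        · have : (n2:ℝ) = n1 + 1 := by exact_mod_cast h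
          rw [this]
          have : (1:ℝ) ≤ n1 := by exact_mod_cast hn1
          nlinarith
      have hlN : l * N ≤ 1 / (6 * K3 d) := hln
      -- first part
      have i1 := ih n1 (by omega) (3 / 2 * l) (by positivity) (by
        refine le_trans ?_ hlN
        nlinarith)
      have i2 := ih n2 (by omega) (3 / 2 * l) (by positivity) (by
        refine le_trans ?_ hlN
        nlinarith)
      have hU : EE (n1 + n2) (fun e => Real.exp (3 / 2 * (l * ((Jq (d := d) κ n1 e -
          EE n1 (Jq (d := d) κ n1)) + (Jq κ n2 (shift n1 e) - EE n2 (Jq (d := d) κ n2)))))) ≤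
          Real.exp (3 / 2 * (30 * K3 d ^ 2 * (l * N) ^ 2)) := by
        have e1 : ∀ e : ℕ → St d, Real.exp (3 / 2 * (l * ((Jq (d := d) κ n1 e -
          EE n1 (Jq (d := d) κ n1)) + (Jq κ n2 (shift n1 e) - EE n2 (Jq (d := d) κ n2))))) =
          Real.exp (3 / 2 * l * (Jq κ n1 e - EE n1 (Jq (d := d) κ n1))) *
          Real.exp (3 / 2 * l * (Jq κ n2 (shift n1 e) - EE n2 (Jq (d := d) κ n2))) := by
          intro e; rw [← Real.exp_add]; congr 1; ring
        simp only [e1]
        rw [EE_indep n1 n2 (fun e => Real.exp (3 / 2 * l * (Jq κ n1 e - EE n1 (Jq (d := d) κ n1))))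
          (fun e => Real.exp (3 / 2 * l * (Jq κ n2 e - EE n2 (Jq (d := d) κ n2))))
          (loc_comp (Jq_loc κ n1) (fun x => Real.exp (3 / 2 * l * (x - EE n1 (Jq (d := d) κ n1)))))]
        refine (mul_le_mul i1 i2 (EE_nonneg _ fun e => (Real.exp_pos _).le)
          (Real.exp_pos _).le).trans ?_
        rw [← Real.exp_add]
        refine Real.exp_le_exp.2 ?_
        have : 36 * K3 d ^ 2 * (3 / 2 * l * n1) ^ 2 + 36 * K3 d ^ 2 * (3 / 2 * l * n2) ^ 2
          = 9 * K3 d ^ 2 * l ^ 2 * (9 * ((n1:ℝ) ^ 2 + (n2:ℝ) ^ 2)) := by ring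
        rw [this]
        calc 9 * K3 d ^ 2 * l ^ 2 * (9 * ((n1:ℝ) ^ 2 + (n2:ℝ) ^ 2))
            ≤ 9 * K3 d ^ 2 * l ^ 2 * (5 * N ^ 2) := by gcongr
          _ = _ := by ring
      -- second part
      have hB2 : 3 * l * (K3 d * Real.sqrt (n1 * n2)) ≤ 3 * l * (K3 d * N) := by
        have : Real.sqrt (n1 * n2) ≤ N := by
          rw [Real.sqrt_le_left hn0.le, hNe]
          nlinarith [Nat.cast_nonneg (α := ℝ) n1, Nat.cast_nonneg (α := ℝ) n2]
        gcongr
      have hB3 : 3 * l * (K3 d * N) ≤ 1 / 2 := by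
        have : l * N * (6 * K3 d) ≤ 1 := by
          rwa [le_div_iff₀ (by positivity)] at hlN
        linarith
      have hV : EE (n1 + n2) (fun e => Real.exp (3 * (l * (Xc (d := d) (pk (2 * κ)) 0 n1 n1 n2 e -
          EE (n1 + n2) (Xc (d := d) (pk (2 * κ)) 0 n1 n1 n2))))) ≤
          Real.exp (3 * (6 * K3 d ^ 2 * (l * N) ^ 2)) := by
        have h1 := exp_mom_centered (d := d) (n1 + n2)
          (fun e => 3 * l * Xc (pk (2 * κ)) 0 n1 n1 n2 e)
          (B := 3 * l * (K3 d * Real.sqrt (n1 * n2))) (by positivity) (hB2.trans hB3) (fun k => by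
            have h2 := Xc_mom (d := d) hd κ k 0 n1 n1 n2 (n1 + n2) (by omega) le_rfl
            have e1 : ∀ e : ℕ → St d, (3 * l * Xc (pk (2 * κ)) 0 n1 n1 n2 e) ^ k =
              (3 * l) ^ k * Xc (pk (2 * κ)) 0 n1 n1 n2 e ^ k := fun e => mul_pow _ _ _
            simp only [e1]
            rw [EE_mul_left, mul_pow (3 * l)]
            calc (3 * l) ^ k * EE (n1 + n2) (fun e => Xc (pk (2 * κ)) 0 n1 n1 n2 e ^ k)
                ≤ (3 * l) ^ k * ((k.factorial : ℝ) * (K3 d * Real.sqrt (n1 * n2)) ^ k) := by gcongr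
              _ = _ := by ring)
        have e2 : ∀ e : ℕ → St d, 3 * (l * (Xc (d := d) (pk (2 * κ)) 0 n1 n1 n2 e -
          EE (n1 + n2) (Xc (d := d) (pk (2 * κ)) 0 n1 n1 n2))) = 3 * l * Xc (pk (2 * κ)) 0 n1 n1 n2 e -
          EE (n1 + n2) (fun e => 3 * l * Xc (d := d) (pk (2 * κ)) 0 n1 n1 n2 e) := by
          intro e; rw [EE_mul_left]; ring
        simp only [e2]
        refine h1.trans (Real.exp_le_exp.2 ?_)
        calc 2 * (3 * l * (K3 d * Real.sqrt (n1 * n2))) ^ 2 ≤ 2 * (3 * l * (K3 d * N)) ^ 2 := by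
              gcongr
          _ = _ := by ring
      have hH := holder_exp (d := d) (n1 + n2) _ _ (p := 3 / 2) (q := 3) (by norm_num) (by norm_num)
        (by norm_num) hU hV
      have e3 : ∀ e : ℕ → St d, l * (Jq κ (n1 + n2) e - EE (n1 + n2) (Jq (d := d) κ (n1 + n2))) =
          l * ((Jq (d := d) κ n1 e - EE n1 (Jq (d := d) κ n1)) + (Jq κ n2 (shift n1 e) - EE n2 (Jq (d := d) κ n2))) +
          l * (Xc (d := d) (pk (2 * κ)) 0 n1 n1 n2 e -
          EE (n1 + n2) (Xc (d := d) (pk (2 * κ)) 0 n1 n1 n2)) := by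
        intro e
        rw [Jq_split, EE_Jq_split]; ring
      simp only [e3]
      refine hH.trans_eq ?_
      congr 1
      ring

lemma EE_pk_diff (κ m i j : ℕ) (hij : i ≤ j) (hj : j ≤ m) :
    EE m (fun e => pk (2 * κ) (pos (d := d) e j - pos e i)) =
      pk (2 * κ + (j - i)) (0 : Fin d → ℤ) := by
  have hloc : Loc j (fun e : ℕ → St d => pk (2 * κ) (pos e j - pos e i)) := by
    intro e1 e2 h
    simp only
    rw [pos_congr h le_rfl, pos_congr h hij]
  rw [EE_loc' hloc hj]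
  obtain ⟨g, rfl⟩ := Nat.exists_eq_add_of_le hij
  have h1 : ∀ e : ℕ → St d, pk (2 * κ) (pos e (i + g) - pos e i) =
      pk (2 * κ) (0 + pos (shift i e) g) := by
    intro e; rw [pos_shift, zero_add]
  simp only [h1]
  rw [EE_shift i g (fun e => pk (2 * κ) (0 + pos e g)), pk_CK]
  congr 1
  omega

lemma sum_harm (a : ℕ) (m : ℕ) :
    ∑ u ∈ range m, 1 / ((a:ℝ) + 2 + u) ≤ Real.log (1 + m / (a + 1)) := by
  have ha : (0:ℝ) < (a:ℝ) + 1 := by positivity
  induction m with
  | zero => simp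
  | succ m ih =>
    rw [Finset.sum_range_succ]
    have h1 : 1 / ((a:ℝ) + 2 + m) ≤ Real.log (1 + (m + 1) / (a + 1)) - Real.log (1 + m / (a + 1)) := by
      rw [← Real.log_div (by positivity) (by positivity)]
      have h2 := Real.one_sub_inv_le_log_of_pos
        (show 0 < (1 + ((m:ℝ) + 1) / (a + 1)) / (1 + m / (a + 1)) by positivity)
      refine le_trans (le_of_eq ?_) h2
      field_simp
      ring
    push_cast
    linarith

lemma EE_Jq_le (hd : 2 ≤ d) (κ m : ℕ) :
    EE m (Jq (d := d) κ m) ≤ m * (2 * C1 d * Real.log (1 + m / (κ + 1))) := by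
  have hC := C1_ge (d := d)
  unfold Jq
  rw [EE_sum]
  have h1 : ∀ j ∈ range m, EE m (fun e => ∑ i ∈ range j, pk (2 * κ) (pos (d := d) e j - pos e i)) ≤
      2 * C1 d * Real.log (1 + m / (κ + 1)) := by
    intro j hj
    rw [Finset.mem_range] at hj
    rw [EE_sum]
    have h2 : ∀ i ∈ range j, EE m (fun e => pk (2 * κ) (pos (d := d) e j - pos e i)) ≤
        2 * C1 d * (1 / ((κ:ℝ) + 2 + (j - 1 - i : ℕ))) := by
      intro i hi
      rw [Finset.mem_range] at hi
      rw [EE_pk_diff κ m i j hi.le hj.le]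
      refine (pk_all hd _ _).trans ?_
      rw [mul_one_div]
      apply div_le_div_of_nonneg_left (by positivity) (by positivity)
      have : κ + 2 + (j - 1 - i) ≤ 2 * κ + (j - i) + 1 := by omega
      exact_mod_cast this
    refine (Finset.sum_le_sum h2).trans ?_
    rw [← Finset.mul_sum]
    rw [Finset.sum_range_reflect (fun i => 1 / ((κ:ℝ) + 2 + (i : ℕ))) j]
    refine mul_le_mul_of_nonneg_left ?_ (by positivity)
    refine (sum_harm κ j).trans ?_
    apply Real.log_le_log (by positivity)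
    have : (j:ℝ) ≤ m := by exact_mod_cast hj.le
    gcongr
  refine (Finset.sum_le_sum h1).trans_eq ?_
  rw [Finset.sum_const, Finset.card_range, nsmul_eq_mul]

/-- Exponential moment of the uncentered smoothed self-interaction. -/
lemma C6 (hd : 2 ≤ d) (κ m : ℕ) {c : ℝ} (hc : 0 ≤ c) (hcm : 2 * c * m ≤ 1 / (6 * K3 d)) :
    EE m (fun e => Real.exp (c * (m * pk (2 * κ) (0 : Fin d → ℤ) + 2 * Jq (d := d) κ m e))) ≤
      Real.exp (1 + c * m + 4 * C1 d * (c * m) * Real.log (1 + m / (κ + 1))) := by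
  have hK := K3_ge (d := d)
  have h5 := C5 hd κ m (2 * c) (by positivity) hcm
  have e1 : ∀ e : ℕ → St d, Real.exp (c * (m * pk (2 * κ) (0 : Fin d → ℤ) + 2 * Jq κ m e)) =
      Real.exp (c * m * pk (2 * κ) (0 : Fin d → ℤ) + 2 * c * EE m (Jq (d := d) κ m)) *
      Real.exp (2 * c * (Jq κ m e - EE m (Jq (d := d) κ m))) := by
    intro e; rw [← Real.exp_add]; congr 1; ring
  simp only [e1]
  rw [EE_mul_left]
  refine (mul_le_mul_of_nonneg_left h5 (Real.exp_pos _).le).trans ?_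
  rw [← Real.exp_add]
  refine Real.exp_le_exp.2 ?_
  have h6 := EE_Jq_le hd κ m
  have h7 := pk_le_one (2 * κ) (0 : Fin d → ℤ)
  have h8 : c * m * pk (2 * κ) (0 : Fin d → ℤ) ≤ c * m := by
    have : 0 ≤ c * m := by positivity
    nlinarith
  have h9 : 2 * c * EE m (Jq (d := d) κ m) ≤ 4 * C1 d * (c * m) * Real.log (1 + m / (κ + 1)) := by
    calc 2 * c * EE m (Jq (d := d) κ m)
        ≤ 2 * c * (m * (2 * C1 d * Real.log (1 + m / (κ + 1)))) := by gcongr
      _ = _ := by ring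
  have h10 : 36 * K3 d ^ 2 * (2 * c * m) ^ 2 ≤ 1 := by
    have h11 : 0 ≤ 2 * c * m := by positivity
    have h12 : 2 * c * m * (6 * K3 d) ≤ 1 := by rwa [le_div_iff₀ (by positivity)] at hcm
    have h13 : 0 ≤ 2 * c * m * (6 * K3 d) := by positivity
    calc 36 * K3 d ^ 2 * (2 * c * m) ^ 2 = (2 * c * m * (6 * K3 d)) ^ 2 := by ring
      _ ≤ 1 := by exact pow_le_one₀ h13 h12
  linarith

end Pool.Agent.H111R3
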