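import Pool.Agent.H111R3.Block

set_option autoImplicit false
set_option linter.unusedSectionVars false
open Finset Filter

namespace Pool.Agent.H111R3

open Pool.Agent.Helper964.Chg (glue Loc glue_lt glue_add)

variable {d : ℕ} [NeZero d]

lemma exp_one_step (s : ℝ) (i : Fin d) :
    EE (d := d) 1 (fun e => Real.exp (s * (pos e 1 i : ℤ))) ≤ Real.cosh s := by
  rw [EE_one (fun x => Real.exp (s * (x i : ℤ)))]
  rw [Fintype.sum_prod_type]
  have hd := d_pos (d := d)
  have h1 : ∀ j : Fin d, ∑ b : Bool, 1 / (2 * (d : ℝ)) * Real.exp (s * (stp (j, b) i : ℤ)) ≤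
      1 / (2 * (d : ℝ)) * (2 * Real.cosh s) := by
    intro j
    rw [← Finset.mul_sum]
    refine mul_le_mul_of_nonneg_left ?_ (by positivity)
    simp only [Fintype.sum_bool, stp]
    by_cases hj : j = i
    · subst hj
      simp only [Pi.single_eq_same, if_true, Bool.false_eq_true, if_false]
      rw [Real.cosh_eq]
      push_cast
      rw [mul_one, mul_neg, mul_one]
      linarith
    · have hj' : i ≠ j := fun h => hj h.symm
      rw [Pi.single_eq_of_ne hj', Pi.single_eq_of_ne hj']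
      simp only [Int.cast_zero, mul_zero, Real.exp_zero]
      have := Real.one_le_cosh s
      linarith
  refine (Finset.sum_le_sum fun j _ => h1 j).trans_eq ?_
  rw [Finset.sum_const, Finset.card_univ, Fintype.card_fin, nsmul_eq_mul]
  field_simp

lemma exp_walk (s : ℝ) (i : Fin d) (n : ℕ) :
    EE (d := d) n (fun e => Real.exp (s * (pos e n i : ℤ))) ≤ Real.exp (s ^ 2 / 2 * n) := by
  induction n with
  | zero => simp [EE_zero]
  | succ n ih =>
    have h := EE_pos_add (d := d) n 1 (fun x => Real.exp (s * (x i : ℤ)))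
    rw [← h]
    have h1 : ∀ e e' : ℕ → St d, Real.exp (s * (((pos e n + pos e' 1 : Fin d → ℤ) i : ℤ) : ℝ)) =
        Real.exp (s * (pos e n i : ℤ)) * Real.exp (s * (pos e' 1 i : ℤ)) := by
      intro e e'
      rw [← Real.exp_add]
      congr 1
      simp only [Pi.add_apply]
      push_cast; ring
    simp only [h1]
    simp only [EE_mul_left]
    rw [EE_mul_right]
    have h2 : EE (d := d) 1 (fun e => Real.exp (s * (pos e 1 i : ℤ))) ≤ Real.exp (s ^ 2 / 2) :=
      (exp_one_step s i).trans (Real.cosh_le_exp_half_sq s)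
    calc _ ≤ Real.exp (s ^ 2 / 2 * n) * Real.exp (s ^ 2 / 2) :=
          mul_le_mul ih h2 (EE_nonneg _ fun _ => (Real.exp_pos _).le) (Real.exp_pos _).le
      _ = _ := by rw [← Real.exp_add]; congr 1; push_cast; ring

/-- Box. -/
noncomputable def box (d R : ℕ) : Finset (Fin d → ℤ) := Fintype.piFinset (fun _ => Finset.Icc (-(R:ℤ)) R)

lemma mem_box {R : ℕ} {x : Fin d → ℤ} : x ∈ box d R ↔ ∀ i, -(R:ℤ) ≤ x i ∧ x i ≤ R := by
  simp [box]

lemma card_box (R : ℕ) : (box d R).card = (2 * R + 1) ^ d := by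
  unfold box
  rw [Fintype.card_piFinset]
  simp only [Int.card_Icc, Finset.prod_const, Finset.card_univ, Fintype.card_fin]
  congr 1
  omega

open Classical in
lemma box_tail (n T R : ℕ) (hn : n ≤ T) (hT : 0 < T) :
    EE (d := d) n (fun e => if pos e n ∈ box d R then (0:ℝ) else 1) ≤
      2 * d * Real.exp (-((R:ℝ) ^ 2 / (2 * T))) := by
  have hT' : (0:ℝ) < T := by exact_mod_cast hT
  have hn' : (n:ℝ) ≤ T := by exact_mod_cast hn
  set s : ℝ := R / T with hs
  have hs0 : 0 ≤ s := by positivity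
  have h1 : ∀ e : ℕ → St d, (if pos e n ∈ box d R then (0:ℝ) else 1) ≤
      ∑ i : Fin d, (Real.exp (s * (pos e n i : ℤ)) * Real.exp (-(s * R)) +
        Real.exp (-s * (pos e n i : ℤ)) * Real.exp (-(s * R))) := by
    intro e
    have hnn : ∀ i : Fin d, 0 ≤ (Real.exp (s * (pos e n i : ℤ)) * Real.exp (-(s * R)) +
        Real.exp (-s * (pos e n i : ℤ)) * Real.exp (-(s * R))) := fun i => by positivity
    split_ifs with h
    · exact Finset.sum_nonneg fun i _ => hnn i
    · rw [mem_box] at h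
      push Not at h
      obtain ⟨i, hi⟩ := h
      refine le_trans ?_ (Finset.single_le_sum (fun i _ => hnn i) (Finset.mem_univ i))
      by_cases h2 : -(R:ℤ) ≤ pos e n i
      · have h3 : (R:ℝ) ≤ (pos e n i : ℤ) := by
          have := (hi h2).le
          exact_mod_cast this
        have h4 : 1 ≤ Real.exp (s * (pos e n i : ℤ)) * Real.exp (-(s * R)) := by
          rw [← Real.exp_add]
          apply Real.one_le_exp
          nlinarith
        have : 0 ≤ Real.exp (-s * (pos e n i : ℤ)) * Real.exp (-(s * R)) := by positivity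
        linarith
      · push Not at h2
        have h3 : ((pos e n i : ℤ) : ℝ) ≤ -(R:ℝ) := by
          have := h2.le
          exact_mod_cast this
        have h4 : 1 ≤ Real.exp (-s * (pos e n i : ℤ)) * Real.exp (-(s * R)) := by
          rw [← Real.exp_add]
          apply Real.one_le_exp
          nlinarith
        have : 0 ≤ Real.exp (s * (pos e n i : ℤ)) * Real.exp (-(s * R)) := by positivity
        linarith
  refine (EE_mono n h1).trans ?_
  rw [EE_sum]
  have h2 : ∀ i ∈ (Finset.univ : Finset (Fin d)),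
      EE n (fun e => Real.exp (s * (pos (d := d) e n i : ℤ)) * Real.exp (-(s * R)) +
        Real.exp (-s * (pos e n i : ℤ)) * Real.exp (-(s * R))) ≤
      2 * Real.exp (-((R:ℝ) ^ 2 / (2 * T))) := by
    intro i _
    rw [EE_add, EE_mul_right, EE_mul_right]
    have h3 := exp_walk (d := d) s i n
    have h4 := exp_walk (d := d) (-s) i n
    rw [neg_sq] at h4
    have h5 : Real.exp (s ^ 2 / 2 * n) * Real.exp (-(s * R)) ≤ Real.exp (-((R:ℝ) ^ 2 / (2 * T))) := by
      rw [← Real.exp_add]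
      refine Real.exp_le_exp.2 ?_
      have e1 : s ^ 2 / 2 * n ≤ s ^ 2 / 2 * T := by gcongr
      have e2 : s ^ 2 / 2 * T + -(s * R) = -((R:ℝ) ^ 2 / (2 * T)) := by
        rw [hs]; field_simp; ring
      linarith
    have h6 := mul_le_mul_of_nonneg_right h3 (Real.exp_pos (-(s * R))).le
    have h7 := mul_le_mul_of_nonneg_right h4 (Real.exp_pos (-(s * R))).le
    linarith
  refine (Finset.sum_le_sum h2).trans_eq ?_
  rw [Finset.sum_const, Finset.card_univ, Fintype.card_fin, nsmul_eq_mul]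
  ring

open Classical in
/-- Probability that some block endpoint leaves the box. -/
lemma not_good_tail (N g m R : ℕ) (hT : 0 < N * (g + m)) :
    EE (N * (g + m)) (fun e => if ∀ k : Fin N, good (box d R) (obs (d := d) g m 0 e k)
      then (0:ℝ) else 1) ≤
      N * (4 * d * Real.exp (-((R:ℝ) ^ 2 / (2 * ((N * (g + m) : ℕ) : ℝ))))) := by
  set T := N * (g + m) with hTdef
  have h1 : ∀ e : ℕ → St d, (if ∀ k : Fin N, good (box d R) (obs (d := d) g m 0 e k)
      then (0:ℝ) else 1) ≤ ∑ k : Fin N,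
      ((if pos e (k * (g + m) + g) ∈ box d R then (0:ℝ) else 1) +
       (if pos e (k * (g + m) + g + m) ∈ box d R then (0:ℝ) else 1)) := by
    intro e
    have hnn : ∀ k : Fin N, 0 ≤ ((if pos e (k * (g + m) + g) ∈ box d R then (0:ℝ) else 1) +
       (if pos e (k * (g + m) + g + m) ∈ box d R then (0:ℝ) else 1)) := fun k => by
      split_ifs <;> norm_num
    split_ifs with h
    · exact Finset.sum_nonneg fun k _ => hnn k
    · push Not at h
      obtain ⟨k, hk⟩ := h
      refine le_trans ?_ (Finset.single_le_sum (fun i _ => hnn i) (Finset.mem_univ k))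
      have h2 : ¬ (pos e (k * (g + m) + g) ∈ box d R ∧ pos e (k * (g + m) + g + m) ∈ box d R) := by
        intro h3
        apply hk
        unfold good obs
        simp only [zero_add]
        refine ⟨h3.1, ?_⟩
        have h4 : pos e (k * (g + m) + g) + pos (ext (fun i : Fin m =>
            e (k * (g + m) + g + i))) m = pos e (k * (g + m) + g + m) := by
          have := pos_ext (m := m) (shift (k * (g + m) + g) e) le_rfl
          have e1 : (fun i : Fin m => e (k * (g + m) + g + i)) =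
            (fun i : Fin m => shift (k * (g + m) + g) e i) := rfl
          rw [e1, this, pos_shift]
          abel
        rw [h4]
        exact h3.2
      by_cases h5 : pos e (k * (g + m) + g) ∈ box d R
      · have h6 : ¬ pos e (k * (g + m) + g + m) ∈ box d R := fun h7 => h2 ⟨h5, h7⟩
        simp [h5, h6]
      · simp only [if_neg h5]
        split_ifs <;> norm_num
  refine (EE_mono _ h1).trans ?_
  rw [EE_sum]
  have h2 : ∀ k ∈ (Finset.univ : Finset (Fin N)), EE T (fun e =>
      ((if pos (d := d) e (k * (g + m) + g) ∈ box d R then (0:ℝ) else 1) +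
       (if pos e (k * (g + m) + g + m) ∈ box d R then (0:ℝ) else 1))) ≤
      4 * d * Real.exp (-((R:ℝ) ^ 2 / (2 * (T : ℝ)))) := by
    intro k _
    have hk : k * (g + m) + (g + m) ≤ T := by
      have : (k:ℕ) + 1 ≤ N := k.2
      calc k * (g + m) + (g + m) = (k + 1) * (g + m) := by ring
        _ ≤ N * (g + m) := Nat.mul_le_mul_right _ this
    have h3 : ∀ t ≤ T, EE T (fun e => if pos (d := d) e t ∈ box d R then (0:ℝ) else 1) ≤
        2 * d * Real.exp (-((R:ℝ) ^ 2 / (2 * (T : ℝ)))) := by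
      intro t ht
      rw [EE_loc' (loc_comp (loc_pos (d := d) (le_refl t)) (fun x => if x ∈ box d R then (0:ℝ) else 1)) ht]
      exact box_tail t T R ht hT
    rw [EE_add]
    have h4 := h3 (k * (g + m) + g) (by omega)
    have h5 := h3 (k * (g + m) + g + m) (by omega)
    linarith
  refine (Finset.sum_le_sum h2).trans_eq ?_
  rw [Finset.sum_const, Finset.card_univ, Fintype.card_fin, nsmul_eq_mul]

/-- Main-part cross interaction. -/
noncomputable def Qk (r : (Fin d → ℤ) → ℝ) (N g m : ℕ) (e : ℕ → St d) : ℝ :=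
  ∑ l ∈ range N, ∑ k ∈ range l, Xc r (k * (g + m) + g) m (l * (g + m) + g) m e

lemma Qk_le_GO (κ N g m : ℕ) (e : ℕ → St d) :
    2 * Qk (pk (2 * κ)) N g m e ≤
      ∑ k : Fin N, ∑ l : Fin N, GO κ (obs (d := d) g m 0 e k) (obs g m 0 e l) := by
  have h1 : ∑ k : Fin N, ∑ l : Fin N, GO κ (obs (d := d) g m 0 e k) (obs g m 0 e l) =
      ∑ k ∈ range N, ∑ l ∈ range N, GO κ (obs (d := d) g m 0 e k) (obs g m 0 e l) := by
    rw [← Fin.sum_univ_eq_sum_range (fun k => ∑ l ∈ range N, GO κ (obs (d := d) g m 0 e k)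
      (obs g m 0 e l))]
    refine Finset.sum_congr rfl fun k _ => ?_
    rw [← Fin.sum_univ_eq_sum_range (fun l => GO κ (obs (d := d) g m 0 e k) (obs g m 0 e l))]
  rw [h1, double_sum N (fun k l => GO κ (obs (d := d) g m 0 e k) (obs g m 0 e l))
    (fun i j => GO_symm κ _ _)]
  have h2 : 0 ≤ ∑ i ∈ range N, GO κ (obs (d := d) g m 0 e i) (obs g m 0 e i) :=
    Finset.sum_nonneg fun _ _ => GO_nonneg _ _ _
  have h3 : Qk (pk (2 * κ)) N g m e =
      ∑ j ∈ range N, ∑ i ∈ range j, GO κ (obs (d := d) g m 0 e i) (obs g m 0 e j) := by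
    unfold Qk
    refine Finset.sum_congr rfl fun l _ => Finset.sum_congr rfl fun k _ => ?_
    unfold Xc GO obs
    refine Finset.sum_congr rfl fun i hi => Finset.sum_congr rfl fun j hj => ?_
    rw [Finset.mem_range] at hi hj
    have e1 := pos_ext (m := m) (shift (k * (g + m) + g) e) hi.le
    have e2 := pos_ext (m := m) (shift (l * (g + m) + g) e) hj.le
    have e3 : pos (ext (fun i : Fin m => e (k * (g + m) + g + i))) i =
      pos (shift (k * (g + m) + g) e) i := e1
    have e4 : pos (ext (fun i : Fin m => e (l * (g + m) + g + i))) j =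
      pos (shift (l * (g + m) + g) e) j := e2
    simp only
    rw [e3, e4, pos_shift, pos_shift, ← pk_neg]
    congr 1
    abel
  rw [← h3]
  linarith

open Classical in
/-- Exponential bound for the smoothed cross interaction inside the box. -/
lemma main_tail (κ N g m : ℕ) (Λ : Finset (Fin d → ℤ)) {s : ℝ} (hs0 : 0 ≤ s)
    (hs : ∀ x : Fin d → ℤ, pk g x ≤ s) {a x : ℝ} (ha : 0 ≤ a) :
    EE (N * (g + m)) (fun e => if (∀ k : Fin N, good Λ (obs (d := d) g m 0 e k)) ∧
      x ≤ Qk (pk (2 * κ)) N g m e then (1:ℝ) else 0) ≤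
      Real.exp (-(2 * a * x)) * (s ^ N * Psi (wt (Λ := Λ) (m := m))
        (fun x y => GO κ (toOb x) (toOb y)) (Fin N) a) := by
  have h := dom (Λ := Λ) (m := m) g hs0 hs N 0
    (fun o => Real.exp (a * ∑ k, ∑ l, GO κ (o k) (o l))) (fun _ => (Real.exp_pos _).le)
  have h1 : ∀ e : ℕ → St d, (if (∀ k : Fin N, good Λ (obs (d := d) g m 0 e k)) ∧
      x ≤ Qk (pk (2 * κ)) N g m e then (1:ℝ) else 0) ≤
      Real.exp (-(2 * a * x)) * (if ∀ k : Fin N, good Λ (obs g m 0 e k) then
      Real.exp (a * ∑ k : Fin N, ∑ l : Fin N, GO κ (obs g m 0 e k) (obs g m 0 e l)) else 0) := by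
    intro e
    by_cases h2 : ∀ k : Fin N, good Λ (obs (d := d) g m 0 e k)
    · by_cases h3 : x ≤ Qk (pk (2 * κ)) N g m e
      · rw [if_pos ⟨h2, h3⟩, if_pos h2, ← Real.exp_add]
        apply Real.one_le_exp
        have h4 := Qk_le_GO κ N g m e
        nlinarith
      · rw [if_neg (fun h5 => h3 h5.2), if_pos h2]
        positivity
    · rw [if_neg (fun h5 => h2 h5.1), if_neg h2, mul_zero]
  refine (EE_mono _ h1).trans ?_
  rw [EE_mul_left]
  exact mul_le_mul_of_nonneg_left h (Real.exp_pos _).le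

open Classical in
/-- Rough part tail. -/
lemma r_tail (hd : 2 ≤ d) (κ h N g m k l : ℕ) (hkl : k < l) (hl : l < N) {τ : ℝ} (hτ : 0 < τ) :
    EE (N * (g + m)) (fun e => if τ ≤ Xc (rr (d := d) κ) (k * (g + m) + g) m
      (l * (g + m) + g) m e then (1:ℝ) else 0) ≤
      ((2 * h).factorial : ℝ) ^ 2 * (144 * C1 d ^ 2 * (m * Real.sqrt (κ * m))) ^ h / τ ^ (2 * h) := by
  have h1 : (k + 1) * (g + m) ≤ l * (g + m) := Nat.mul_le_mul_right _ hkl
  have h2 : (l + 1) * (g + m) ≤ N * (g + m) := Nat.mul_le_mul_right _ hl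
  have e1 : (k + 1) * (g + m) = k * (g + m) + g + m := by ring
  have e2 : (l + 1) * (g + m) = l * (g + m) + g + m := by ring
  have hM := Xc_mom_r (d := d) hd κ h (k * (g + m) + g) m (l * (g + m) + g) (N * (g + m))
    (by omega) (by omega)
  rw [le_div_iff₀ (by positivity), mul_comm]
  refine le_trans ?_ hM
  rw [← EE_mul_left]
  refine EE_mono _ fun e => ?_
  split_ifs with h3
  · rw [mul_one]
    exact pow_le_pow_left₀ hτ.le h3 _
  · rw [mul_zero, pow_mul]
    positivity

lemma Qk_split (κ N g m : ℕ) (e : ℕ → St d) :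
    Qk dl N g m e = Qk (pk (2 * κ)) N g m e + Qk (rr κ) N g m e := by
  unfold Qk Xc
  simp only [← Finset.sum_add_distrib]
  refine Finset.sum_congr rfl fun l _ => Finset.sum_congr rfl fun k _ => Finset.sum_congr rfl
    fun i _ => Finset.sum_congr rfl fun j _ => ?_
  unfold rr
  ring

open Classical in
/-- Union bound. -/
lemma union_tail (κ N g m : ℕ) (Λ : Finset (Fin d → ℤ)) {τ y : ℝ} (hτ : 0 ≤ τ) (T : ℕ) :
    EE T (fun e => if y ≤ Qk (d := d) dl N g m e then (1:ℝ) else 0) ≤
      EE T (fun e => if ∀ k : Fin N, good Λ (obs (d := d) g m 0 e k) then (0:ℝ) else 1) +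
      ∑ l ∈ range N, ∑ k ∈ range l, EE T (fun e => if τ ≤ Xc (rr (d := d) κ) (k * (g + m) + g) m
        (l * (g + m) + g) m e then (1:ℝ) else 0) +
      EE T (fun e => if (∀ k : Fin N, good Λ (obs (d := d) g m 0 e k)) ∧
        y - N ^ 2 * τ ≤ Qk (pk (2 * κ)) N g m e then (1:ℝ) else 0) := by
  simp only [← EE_sum]
  rw [← EE_add, ← EE_add]
  refine EE_mono T fun e => ?_
  have hA : 0 ≤ (if ∀ k : Fin N, good Λ (obs (d := d) g m 0 e k) then (0:ℝ) else 1) := by
    split_ifs <;> norm_num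
  have hBt : ∀ l k : ℕ, 0 ≤ (if τ ≤ Xc (rr (d := d) κ) (k * (g + m) + g) m
        (l * (g + m) + g) m e then (1:ℝ) else 0) := fun l k => by split_ifs <;> norm_num
  have hB : 0 ≤ ∑ l ∈ range N, ∑ k ∈ range l, (if τ ≤ Xc (rr (d := d) κ) (k * (g + m) + g) m
        (l * (g + m) + g) m e then (1:ℝ) else 0) :=
    Finset.sum_nonneg fun l _ => Finset.sum_nonneg fun k _ => hBt l k
  have hC : 0 ≤ (if (∀ k : Fin N, good Λ (obs (d := d) g m 0 e k)) ∧
        y - N ^ 2 * τ ≤ Qk (pk (2 * κ)) N g m e then (1:ℝ) else 0) := by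
    split_ifs <;> norm_num
  by_cases hy : y ≤ Qk (d := d) dl N g m e
  swap
  · rw [if_neg hy]; linarith
  rw [if_pos hy]
  by_cases h1 : ∀ k : Fin N, good Λ (obs (d := d) g m 0 e k)
  swap
  · rw [if_neg h1] at hA ⊢
    linarith
  by_cases h2 : ∃ l ∈ range N, ∃ k ∈ range l, τ ≤ Xc (rr (d := d) κ) (k * (g + m) + g) m
        (l * (g + m) + g) m e
  · obtain ⟨l, hl, k, hk, hτ2⟩ := h2
    have h3 : 1 ≤ ∑ l ∈ range N, ∑ k ∈ range l, (if τ ≤ Xc (rr (d := d) κ) (k * (g + m) + g) m
        (l * (g + m) + g) m e then (1:ℝ) else 0) := by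
      refine le_trans ?_ (Finset.single_le_sum
        (f := fun l => ∑ k ∈ range l, (if τ ≤ Xc (rr (d := d) κ) (k * (g + m) + g) m
        (l * (g + m) + g) m e then (1:ℝ) else 0))
        (fun l _ => Finset.sum_nonneg fun k _ => hBt l k) hl)
      refine le_trans ?_ (Finset.single_le_sum
        (f := fun k => (if τ ≤ Xc (rr (d := d) κ) (k * (g + m) + g) m
        (l * (g + m) + g) m e then (1:ℝ) else 0)) (fun k _ => hBt l k) hk)
      rw [if_pos hτ2]
    linarith
  · push Not at h2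
    have h3 : Qk (rr κ) N g m e ≤ N ^ 2 * τ := by
      unfold Qk
      calc ∑ l ∈ range N, ∑ k ∈ range l, Xc (rr κ) (k * (g + m) + g) m (l * (g + m) + g) m e
          ≤ ∑ l ∈ range N, ∑ k ∈ range l, τ :=
            Finset.sum_le_sum fun l hl => Finset.sum_le_sum fun k hk => (h2 l hl k hk).le
        _ ≤ ∑ l ∈ range N, ∑ k ∈ range N, τ := by
            refine Finset.sum_le_sum fun l hl => Finset.sum_le_sum_of_subset_of_nonneg
              (Finset.range_subset_range.2 (Finset.mem_range.1 hl).le) fun _ _ _ => hτ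
        _ = N ^ 2 * τ := by
            simp only [Finset.sum_const, Finset.card_range, nsmul_eq_mul]; ring
    have h4 := Qk_split κ N g m e
    have h5 : y - N ^ 2 * τ ≤ Qk (pk (2 * κ)) N g m e := by linarith
    rw [if_pos (show (∀ k : Fin N, good Λ (obs (d := d) g m 0 e k)) ∧
      y - N ^ 2 * τ ≤ Qk (pk (2 * κ)) N g m e from ⟨h1, h5⟩)]
    linarith

/-- From tails to exponential moments. -/
lemma tail_to_exp (n : ℕ) (X : (ℕ → St d) → ℝ) (hX : ∀ e, 0 ≤ X e) (K : ℕ) (hK : ∀ e, X e < K)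
    {b1 γ C : ℝ} (hb1 : 0 < b1) (hγ : b1 < γ) (hC : 0 ≤ C)
    (ht : ∀ T : ℕ, 1 ≤ T → EE n (fun e => if (T:ℝ) ≤ X e then (1:ℝ) else 0) ≤
      C * Real.exp (-(γ * T))) :
    EE n (fun e => Real.exp (b1 * X e)) ≤
      Real.exp b1 + C * Real.exp b1 / (1 - Real.exp (-(γ - b1))) := by
  have h1 : ∀ e : ℕ → St d, Real.exp (b1 * X e) ≤ Real.exp b1 +
      ∑ T ∈ range K, Real.exp (b1 * ((T:ℝ) + 2)) * (if ((T + 1 : ℕ) : ℝ) ≤ X e then (1:ℝ) else 0) := by
    intro e
    have hnn : ∀ T : ℕ, 0 ≤ Real.exp (b1 * ((T:ℝ) + 2)) *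
      (if ((T + 1 : ℕ) : ℝ) ≤ X e then (1:ℝ) else 0) := fun T =>
      mul_nonneg (Real.exp_pos _).le (by split_ifs <;> norm_num)
    rcases Nat.eq_zero_or_pos ⌊X e⌋₊ with h0 | h0
    · have h2 : X e < 1 := by
        have := Nat.lt_floor_add_one (X e)
        rw [h0] at this
        simpa using this
      have h3 : Real.exp (b1 * X e) ≤ Real.exp b1 := Real.exp_le_exp.2 (by nlinarith)
      have h4 : 0 ≤ ∑ T ∈ range K, Real.exp (b1 * ((T:ℝ) + 2)) *
        (if ((T + 1 : ℕ) : ℝ) ≤ X e then (1:ℝ) else 0) := Finset.sum_nonneg fun T _ => hnn T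
      linarith
    · obtain ⟨T, hT⟩ : ∃ T, ⌊X e⌋₊ = T + 1 := ⟨⌊X e⌋₊ - 1, by omega⟩
      have h2 : ((T + 1 : ℕ) : ℝ) ≤ X e := by
        rw [← hT]; exact Nat.floor_le (hX e)
      have h3 : X e < (T:ℝ) + 2 := by
        have := Nat.lt_floor_add_one (X e)
        rw [hT] at this
        push_cast at this
        linarith
      have hTK : T ∈ range K := by
        rw [Finset.mem_range]
        have := h2.trans_lt (hK e)
        have h5 : T + 1 < K := by exact_mod_cast this
        omega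
      have h4 := Finset.single_le_sum (fun T _ => hnn T) hTK
      rw [if_pos h2, mul_one] at h4
      have h5 : Real.exp (b1 * X e) ≤ Real.exp (b1 * ((T:ℝ) + 2)) := by
        refine Real.exp_le_exp.2 ?_
        gcongr
      have := Real.exp_pos b1
      linarith
  refine (EE_mono n h1).trans ?_
  rw [EE_add, EE_const, EE_sum]
  have h2 : ∀ T ∈ range K, EE n (fun e => Real.exp (b1 * ((T:ℝ) + 2)) *
      (if ((T + 1 : ℕ) : ℝ) ≤ X e then (1:ℝ) else 0)) ≤
      C * Real.exp b1 * Real.exp (-(γ - b1)) ^ T := by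
    intro T _
    rw [EE_mul_left]
    have h3 := ht (T + 1) (by omega)
    calc Real.exp (b1 * ((T:ℝ) + 2)) * EE n (fun e => if ((T + 1 : ℕ) : ℝ) ≤ X e then (1:ℝ) else 0)
        ≤ Real.exp (b1 * ((T:ℝ) + 2)) * (C * Real.exp (-(γ * ((T + 1 : ℕ) : ℝ)))) := by gcongr
      _ = C * Real.exp (b1 * ((T:ℝ) + 2) + -(γ * ((T + 1 : ℕ) : ℝ))) := by
          rw [Real.exp_add]; ring
      _ ≤ C * Real.exp (b1 + (T:ℝ) * (-(γ - b1))) := by
          refine mul_le_mul_of_nonneg_left (Real.exp_le_exp.2 ?_) hC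
          push_cast
          nlinarith
      _ = _ := by
          rw [Real.exp_add, Real.exp_nat_mul]; ring
  refine add_le_add le_rfl ((Finset.sum_le_sum h2).trans ?_)
  rw [← Finset.mul_sum, div_eq_mul_one_div]
  refine mul_le_mul_of_nonneg_left ?_ (by positivity)
  exact geom_bound (Real.exp_pos _).le (by rw [Real.exp_lt_one_iff]; linarith) K

end Pool.Agent.H111R3
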