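import Mathlib
import Pool.Agent.Helper964.Chg.Ex

set_option autoImplicit false
open Finset

namespace Pool.Agent.H111R3

open Pool.Agent.Helper964.Chg (Ex glue cons glue_lt glue_add Ex_append Ex_comm Ex_mono Ex_nonneg
  Ex_add Ex_mul_left Ex_mul_right Ex_sum Ex_const Ex_loc Loc Ex_eq_sum Ex_congr_loc Ex_sub
  Ex_jensen)

variable {d : ℕ}

/-- Steps. -/
abbrev St (d : ℕ) := Fin d × Bool

/-- Unit step. -/
def stp (s : St d) : Fin d → ℤ := Pi.single s.1 (if s.2 then 1 else -1)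

/-- Position after `k` steps. -/
def pos (e : ℕ → St d) (k : ℕ) : Fin d → ℤ := ∑ i ∈ range k, stp (e i)

/-- Uniform weights. -/
noncomputable def sw (d : ℕ) : St d → ℝ := fun _ => 1 / (2 * d)

lemma sw_sum (d : ℕ) [NeZero d] : ∑ s, sw d s = 1 := by
  have hd : (d : ℝ) ≠ 0 := by exact_mod_cast NeZero.ne d
  simp [sw]; field_simp

lemma sw_nonneg (s : St d) : 0 ≤ sw d s := by
  unfold sw; positivity

lemma pos_succ (e : ℕ → St d) (k : ℕ) : pos e (k + 1) = pos e k + stp (e k) := by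
  unfold pos; rw [Finset.sum_range_succ]

@[simp] lemma pos_zero (e : ℕ → St d) : pos e 0 = 0 := by simp [pos]

lemma pos_glue_le {n : ℕ} (e e' : ℕ → St d) {k : ℕ} (h : k ≤ n) :
    pos (glue n e e') k = pos e k := by
  unfold pos
  refine Finset.sum_congr rfl fun i hi => ?_
  rw [glue_lt (lt_of_lt_of_le (Finset.mem_range.1 hi) h)]

lemma pos_glue_add (n : ℕ) (e e' : ℕ → St d) (k : ℕ) :
    pos (glue n e e') (n + k) = pos e n + pos e' k := by
  induction k with
  | zero => simp [pos_glue_le]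
  | succ k ih => rw [← add_assoc, pos_succ, ih, glue_add, pos_succ, add_assoc]

lemma pos_congr {n : ℕ} {e e' : ℕ → St d} (h : ∀ i < n, e i = e' i) {k : ℕ} (hk : k ≤ n) :
    pos e k = pos e' k := by
  unfold pos
  refine Finset.sum_congr rfl fun i hi => ?_
  rw [h i (lt_of_lt_of_le (Finset.mem_range.1 hi) hk)]

/-- Flip of a step. -/
def flip (s : St d) : St d := (s.1, !s.2)

lemma flip_flip (s : St d) : flip (flip s) = s := by
  unfold flip; simp

lemma stp_flip (s : St d) : stp (flip s) = - stp s := by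
  unfold stp flip
  rw [← Pi.single_neg]
  cases s.2 <;> simp

variable [NeZero d]

/-- Expectation over the first `n` steps of simple random walk. -/
noncomputable def EE (n : ℕ) (f : (ℕ → St d) → ℝ) : ℝ := Ex (sw d) n f

lemma EE_mono (n : ℕ) {f g : (ℕ → St d) → ℝ} (h : ∀ e, f e ≤ g e) : EE n f ≤ EE n g :=
  Ex_mono sw_nonneg n h

lemma EE_nonneg (n : ℕ) {f : (ℕ → St d) → ℝ} (h : ∀ e, 0 ≤ f e) : 0 ≤ EE n f :=
  Ex_nonneg sw_nonneg n f h

lemma EE_const (n : ℕ) (c : ℝ) : EE (d := d) n (fun _ => c) = c := Ex_const (sw_sum d) n c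

lemma EE_add (n : ℕ) (f g : (ℕ → St d) → ℝ) : EE n (fun e => f e + g e) = EE n f + EE n g :=
  Ex_add n f g

lemma EE_sub (n : ℕ) (f g : (ℕ → St d) → ℝ) : EE n (fun e => f e - g e) = EE n f - EE n g :=
  Ex_sub n f g

lemma EE_mul_left (n : ℕ) (c : ℝ) (f : (ℕ → St d) → ℝ) : EE n (fun e => c * f e) = c * EE n f :=
  Ex_mul_left n c f

lemma EE_mul_right (n : ℕ) (c : ℝ) (f : (ℕ → St d) → ℝ) : EE n (fun e => f e * c) = EE n f * c :=
  Ex_mul_right n c f

lemma EE_sum {ι : Type*} (s : Finset ι) (n : ℕ) (f : ι → (ℕ → St d) → ℝ) :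
    EE n (fun e => ∑ i ∈ s, f i e) = ∑ i ∈ s, EE n (f i) := Ex_sum s n f

lemma EE_congr (n : ℕ) {f g : (ℕ → St d) → ℝ} (h : ∀ e, f e = g e) : EE n f = EE n g :=
  congrArg _ (funext h)

lemma EE_append (n m : ℕ) (f : (ℕ → St d) → ℝ) :
    EE (n + m) f = EE n (fun e => EE m (fun e' => f (glue n e e'))) := Ex_append n m f

lemma EE_comm (n m : ℕ) (f : (ℕ → St d) → (ℕ → St d) → ℝ) :
    EE n (fun a => EE m (fun b => f a b)) = EE m (fun b => EE n (fun a => f a b)) :=
  Ex_comm _ _ n m f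

lemma EE_loc {n : ℕ} {f : (ℕ → St d) → ℝ} (hf : Loc n f) (m : ℕ) : EE (n + m) f = EE n f :=
  Ex_loc (sw_sum d) hf m

lemma EE_zero (f : (ℕ → St d) → ℝ) : EE 0 f = f (fun _ => default) := rfl

lemma EE_jensen (n : ℕ) (c : (ℕ → St d) → ℝ) :
    Real.exp (EE n c) ≤ EE n (fun e => Real.exp (c e)) := Ex_jensen sw_nonneg (sw_sum d) n c

/-- Extension of a finite sequence. -/
def ext {n : ℕ} (e : Fin n → St d) : ℕ → St d := fun i => if h : i < n then e ⟨i, h⟩ else default

lemma EE_eq_sum (n : ℕ) (f : (ℕ → St d) → ℝ) :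
    EE n f = ∑ e : Fin n → St d, (1 / (2 * (d : ℝ))) ^ n * f (ext e) := by
  unfold EE
  rw [Ex_eq_sum]
  refine Finset.sum_congr rfl fun e _ => ?_
  have : ∏ i, sw d (e i) = (1 / (2 * (d : ℝ))) ^ n := by
    simp [sw]
  rw [this]
  rfl

lemma loc_pos {n k : ℕ} (h : k ≤ n) : Loc n (fun e : ℕ → St d => pos e k) :=
  fun _ _ he => pos_congr he h

lemma loc_comp {n : ℕ} {β γ : Type*} {f : (ℕ → St d) → β} (h : Loc n f) (g : β → γ) :
    Loc n (fun e => g (f e)) := fun e e' he => congrArg g (h e e' he)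

/-- Reversed walk. -/
def rv (n : ℕ) (e : ℕ → St d) : ℕ → St d := fun i => if i < n then flip (e (n - 1 - i)) else default

lemma pos_rv {n k : ℕ} (h : k ≤ n) (e : ℕ → St d) : pos (rv n e) k = pos e (n - k) - pos e n := by
  induction k with
  | zero => simp
  | succ k ih =>
    rw [pos_succ, ih (by omega)]
    have h1 : rv n e k = flip (e (n - (k + 1))) := by
      unfold rv
      rw [if_pos (by omega)]
      congr 2
      omega
    rw [h1, stp_flip]
    have h2 : n - k = (n - (k + 1)) + 1 := by omega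
    rw [h2, pos_succ]
    abel

lemma EE_rv (n : ℕ) (f : (ℕ → St d) → ℝ) : EE n f = EE n (fun e => f (rv n e)) := by
  rw [EE_eq_sum, EE_eq_sum]
  let R : (Fin n → St d) → (Fin n → St d) := fun e i => flip (e (Fin.rev i))
  have hR : Function.Involutive R := by
    intro e
    funext i
    simp only [R, Fin.rev_rev, flip_flip]
  rw [← Equiv.sum_comp (Equiv.mk R R hR.leftInverse hR.rightInverse)]
  refine Finset.sum_congr rfl fun e _ => ?_
  congr 1
  congr 1
  funext i
  simp only [Equiv.coe_fn_mk, R, rv, ext]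
  by_cases hi : i < n
  · rw [dif_pos hi, if_pos hi, dif_pos (by omega)]
    congr 2
    apply Fin.ext
    simp only [Fin.val_rev]
    omega
  · rw [dif_neg hi, if_neg hi]

/-- Difference of two independent walks is a walk. -/
lemma EE_diff (s t : ℕ) (H : (Fin d → ℤ) → ℝ) (z : Fin d → ℤ) :
    EE s (fun e => EE t (fun e' => H (z + pos e' t - pos e s))) =
      EE (s + t) (fun e => H (z + pos e (s + t))) := by
  rw [EE_append, EE_rv s]
  refine EE_congr s fun e => EE_congr t fun e' => ?_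
  rw [pos_glue_add, pos_rv le_rfl]
  congr 1
  simp
  abel

end Pool.Agent.H111R3
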